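import Pool.Agent.NDC.Gdf

/-!
NDC module Krk (size 3): kernels of hermitian forms.
PROOF. `ker_dim`: the linear map `a ↦ a ᵥ* F` (`Matrix.vecMulLinear`, or `Fᵀ.mulVecLin`,
`Matrix.rank_transpose`, `Matrix.rank` is the `finrank` of the range of `mulVecLin`) has a kernel of
dimension `n - F.rank ≥ n - ν` (`LinearMap.finrank_range_add_finrank_ker`), contained in `V` (`Submodule.finrank_mono`).
`psd_ker`: with `x k = conj (a k)` the number is `star x ⬝ᵥ (F *ᵥ x)` (expand the sums); it is zero iff
`F *ᵥ x = 0` (`Matrix.PosSemidef.dotProduct_mulVec_zero_iff`; the number is real nonnegative,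
so real part zero is the same as zero); `(F *ᵥ x) k = ∑ l, F k l * conj (a l)`, and its conjugate is
`∑ l, a l * F l k` (`F` hermitian: `conj (F k l) = F l k`).
`psd_re_nonneg`: same, `Matrix.PosSemidef.re_dotProduct_nonneg` (or the definition).
-/

open scoped ContDiff ComplexConjugate Topology ComplexOrder
open Complex MeasureTheory Matrix

namespace Pool.Agent.NDC

open Pool.Agent.CYF

variable {n : ℕ} {F : Matrix (Fin n) (Fin n) ℂ}

private theorem krk_vec (a : E n) (l : Fin n) : (a ᵥ* F) l = ∑ k, a k * F k l := rfl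

theorem ker_dim {ν : ℕ} (h : F.rank ≤ ν) (V : Submodule ℂ (E n))
    (hV : ∀ a : E n, (∀ l, ∑ k, a k * F k l = 0) → a ∈ V) : n ≤ Module.finrank ℂ V + ν := by
  have h1 : LinearMap.ker (Matrix.mulVecLin Fᵀ) ≤ V := by
    intro a ha
    apply hV
    intro l
    have h2 : Fᵀ *ᵥ a = 0 := LinearMap.mem_ker.mp ha
    rw [Matrix.mulVec_transpose] at h2
    have h3 := congrFun h2 l
    exact h3
  have h4 := LinearMap.finrank_range_add_finrank_ker (Matrix.mulVecLin Fᵀ)
  have h5 : Module.finrank ℂ (LinearMap.range (Matrix.mulVecLin Fᵀ)) = F.rank := by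
    rw [← Matrix.rank_transpose]; rfl
  have h6 := Submodule.finrank_mono h1
  have h7 : Module.finrank ℂ (Fin n → ℂ) = n := by simp
  rw [h5] at h4
  have h8 : F.rank + Module.finrank ℂ (LinearMap.ker (Matrix.mulVecLin Fᵀ)) = n := h4.trans h7
  calc n = F.rank + Module.finrank ℂ (LinearMap.ker (Matrix.mulVecLin Fᵀ)) := h8.symm
    _ ≤ ν + Module.finrank ℂ V := Nat.add_le_add h h6
    _ = Module.finrank ℂ V + ν := Nat.add_comm _ _

private theorem krk_sum (F : Matrix (Fin n) (Fin n) ℂ) (a : E n) :
    (∑ k, ∑ l, a k * conj (a l) * F k l) =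
      star (fun k => conj (a k)) ⬝ᵥ (F *ᵥ (fun k => conj (a k))) := by
  simp only [dotProduct, Matrix.mulVec, Finset.mul_sum, Pi.star_apply, RCLike.star_def,
    Complex.conj_conj]
  refine Finset.sum_congr rfl fun k _ => Finset.sum_congr rfl fun l _ => ?_
  ring

theorem psd_re_nonneg (hF : F.PosSemidef) (a : E n) :
    0 ≤ (∑ k, ∑ l, a k * conj (a l) * F k l).re := by
  rw [krk_sum]
  exact hF.re_dotProduct_nonneg _

theorem psd_ker (hF : F.PosSemidef) (a : E n) :
    (∑ k, ∑ l, a k * conj (a l) * F k l).re = 0 ↔ ∀ l, ∑ k, a k * F k l = 0 := by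
  have h0 : (∑ k, ∑ l, a k * conj (a l) * F k l).re = 0 ↔
      F *ᵥ (fun k => conj (a k)) = 0 := by
    rw [krk_sum, ← hF.dotProduct_mulVec_zero_iff]
    have h1 := hF.dotProduct_mulVec_nonneg (fun k => conj (a k))
    constructor
    · intro h
      apply Complex.ext
      · exact h
      · exact (Complex.nonneg_iff.mp h1).2.symm
    · intro h
      rw [h]
      rfl
  rw [h0, funext_iff]
  refine forall_congr' fun l => ?_
  have h2 : conj ((F *ᵥ (fun k => conj (a k))) l) = ∑ k, a k * F k l := by
    simp only [Matrix.mulVec, dotProduct, map_sum, map_mul, Complex.conj_conj]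
    refine Finset.sum_congr rfl fun k _ => ?_
    have h3 : conj (F l k) = F k l := by
      have := congrFun (congrFun hF.1 k) l
      simpa using this
    rw [h3, mul_comm]
  rw [← h2]
  constructor
  · intro h
    rw [h]
    simp
  · intro h
    simpa using h

end Pool.Agent.NDC
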