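import Pool.Agent.NDC.Glo

/-!
NDC module Psd (size 2): the Levi matrix of a function with nonnegative Levi form is positive
semidefinite.
PROOF. See the proof of the theorem at line 35 of Pool/Agent/CYF/Geo.lean (`Matrix.PosSemidef.of_dotProduct_mulVec_nonneg`).
Hermitian: `LM_conj` (CYF/Comm.lean). For a vector `x` put `a k = conj (x k)`: `star x ⬝ᵥ (lm w z *ᵥ x) =
∑ k, ∑ l, a k * conj (a l) * LM w z k l = levi w z a a` (`levi_eq_sum`), a real number (`LM_conj`).
`PosDef`: same, with `x ≠ 0 → a ≠ 0`. `lm_comb`: `LM_add`, `LM_const_mul` (as in `Form.comb`, module Glo).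
-/

open scoped ContDiff ComplexConjugate Topology ComplexOrder
open Complex MeasureTheory Matrix

namespace Pool.Agent.NDC

open Pool.Agent.CYF

variable {n : ℕ} {X : Type*} [TopologicalSpace X] {ι : Type*} {A : Mfd n X ι}

private theorem Psd_herm {w : E n → ℝ} {U : Set (E n)} (hU : IsOpen U)
    (hw : ContDiffOn ℝ ∞ w U) {z : E n} (hz : z ∈ U) : (lm w z).IsHermitian := by
  ext k l
  rw [conjTranspose_apply]
  exact LM_conj hU hw hz l k

private theorem Psd_quad {w : E n → ℝ} {U : Set (E n)} (hU : IsOpen U)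
    (hw : ContDiffOn ℝ ∞ w U) {z : E n} (hz : z ∈ U) (x : Fin n → ℂ) :
    star x ⬝ᵥ (lm w z *ᵥ x) = levi w z (fun k => conj (x k)) (fun k => conj (x k)) := by
  rw [levi_eq_sum (hw.contDiffAt (hU.mem_nhds hz))]
  simp only [dotProduct, mulVec, Finset.mul_sum]
  refine Finset.sum_congr rfl fun k _ => Finset.sum_congr rfl fun l _ => ?_
  have h2 : lm w z k l = LM w z k l := rfl
  rw [h2, Pi.star_apply, Complex.star_def, Complex.conj_conj]
  ring

theorem lm_psd {w : E n → ℝ} {U : Set (E n)} (hU : IsOpen U) (hw : ContDiffOn ℝ ∞ w U) {z : E n}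
    (hz : z ∈ U) (h : ∀ a : E n, 0 ≤ (levi w z a a).re) : (lm w z).PosSemidef := by
  have hherm := Psd_herm hU hw hz
  refine Matrix.PosSemidef.of_dotProduct_mulVec_nonneg hherm fun x => ?_
  rw [Complex.le_def]
  refine ⟨?_, ?_⟩
  · rw [Psd_quad hU hw hz]
    exact h _
  · have h3 := hherm.im_star_dotProduct_mulVec_self x
    rw [Complex.zero_im]
    exact h3.symm

theorem lm_posDef {w : E n → ℝ} {U : Set (E n)} (hU : IsOpen U) (hw : ContDiffOn ℝ ∞ w U)
    {z : E n} (hz : z ∈ U) (h : ∀ a : E n, a ≠ 0 → 0 < (levi w z a a).re) :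
    (lm w z).PosDef := by
  have hherm := Psd_herm hU hw hz
  refine Matrix.PosDef.of_dotProduct_mulVec_pos hherm fun x hx => ?_
  rw [Complex.lt_def]
  refine ⟨?_, ?_⟩
  · rw [Psd_quad hU hw hz]
    refine h _ fun h0 => hx ?_
    funext k
    have h1 := congrFun h0 k
    simpa using h1
  · have h3 := hherm.im_star_dotProduct_mulVec_self x
    rw [Complex.zero_im]
    exact h3.symm

theorem lm_comb (η om : Form A) {b : X → ℝ} (hb : Sm A b) (r t : ℝ) {i : ι} {z : E n}
    (hz : z ∈ (A.c i).target) :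
    lm ((η.comb om hb r t).w i) z
      = (r : ℂ) • lm (η.w i) z + (t : ℂ) • lm (vt A b i) z + lm (om.w i) z := by
  have hO := (A.c i).open_target
  have h1 : ContDiffOn ℝ ∞ (fun z => r * η.w i z) (A.c i).target :=
    contDiffOn_const.mul (η.smooth i)
  have h2 : ContDiffOn ℝ ∞ (fun z => t * vt A b i z) (A.c i).target :=
    contDiffOn_const.mul (hb i)
  have h12 : ContDiffOn ℝ ∞ (fun z => r * η.w i z + t * vt A b i z) (A.c i).target := h1.add h2
  have hw : (η.comb om hb r t).w i = fun z => r * η.w i z + t * vt A b i z + om.w i z := rfl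
  ext k l
  rw [hw]
  simp only [Matrix.add_apply, Matrix.smul_apply, smul_eq_mul, lm_apply]
  rw [LM_add hO h12 (om.smooth i) hz, LM_add hO h1 h2 hz, LM_const_mul hO (η.smooth i) hz,
    LM_const_mul hO (hb i) hz]

theorem lm_add_vt {b b' : X → ℝ} (hb : Sm A b) (hb' : Sm A b') {i : ι} {z : E n}
    (hz : z ∈ (A.c i).target) :
    lm (vt A (fun x => b x + b' x) i) z = lm (vt A b i) z + lm (vt A b' i) z := by
  have hO := (A.c i).open_target
  have hw : vt A (fun x => b x + b' x) i = fun z => vt A b i z + vt A b' i z := rfl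
  ext k l
  rw [hw]
  simp only [Matrix.add_apply, lm_apply]
  rw [LM_add hO (hb i) (hb' i) hz]

end Pool.Agent.NDC
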