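import Pool.Agent.NDC.Glo

/-!
NDC module Tlm (size 2): Levi matrices under changes of charts.
-/

open scoped ContDiff ComplexConjugate Topology ComplexOrder
open Complex MeasureTheory Matrix

namespace Pool.Agent.NDC

open Pool.Agent.CYF

variable {n : ℕ} {X : Type*} [TopologicalSpace X] {ι : Type*} {A : Mfd n X ι}

theorem Tm_det (φ : E n → E n) (z : E n) : (fderiv ℂ φ z).det = (Tm φ z).det := by
  have h : LinearMap.toMatrix' (fderiv ℂ φ z : E n →ₗ[ℂ] E n) = Tm φ z := by
    ext p k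
    rw [LinearMap.toMatrix'_apply]
    rfl
  rw [← h, LinearMap.det_toMatrix']

private theorem Tlm_mat (T M : Matrix (Fin n) (Fin n) ℂ) (k l : Fin n) :
    (Tᵀ * M * T.map conj) k l = ∑ p, ∑ q, T p k * conj (T q l) * M p q := by
  rw [Matrix.mul_apply]
  simp only [Matrix.mul_apply, Matrix.transpose_apply, Matrix.map_apply, Finset.sum_mul]
  rw [Finset.sum_comm]
  refine Finset.sum_congr rfl fun p _ => Finset.sum_congr rfl fun q _ => ?_
  ring

theorem lm_vt_chg {v : X → ℝ} (hv : Sm A v) {i j : ι} {z : E n} (hz : z ∈ Uo A i j) :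
    lm (vt A v i) z = (Tm (ph A i j) z)ᵀ * lm (vt A v j) (ph A i j z)
      * (Tm (ph A i j) z).map conj := by
  have h1 : vt A v i =ᶠ[𝓝 z] fun y => vt A v j (ph A i j y) := by
    filter_upwards [(isOpen_Uo A i j).mem_nhds hz] with y hy
    exact (vt_ph hy v).symm
  ext k l
  rw [Tlm_mat]
  change LM (vt A v i) z k l = _
  rw [LM_congr h1]
  exact chg (isOpen_Uo A i j) (contDiffOn_ph A i j) (A.c j).open_target (hv j) hz
    (ph_mem hz) k l

theorem lm_w_chg (θ : Form A) {i j : ι} {z : E n} (hz : z ∈ Uo A i j) :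
    lm (θ.w i) z = (Tm (ph A i j) z)ᵀ * lm (θ.w j) (ph A i j z)
      * (Tm (ph A i j) z).map conj := by
  ext k l
  rw [Tlm_mat]
  have h : levi (θ.w j) (ph A i j z) (fderiv ℂ (ph A i j) z (e k)) (fderiv ℂ (ph A i j) z (e l))
      = levi (θ.w i) z (e k) (e l) := θ.compat i j z hz.1 hz.2 (e k) (e l)
  have h2 : ContDiffAt ℝ ∞ (θ.w j) (ph A i j z) :=
    (θ.smooth j).contDiffAt ((A.c j).open_target.mem_nhds (ph_mem hz))
  change levi (θ.w i) z (e k) (e l) = _
  rw [← h, levi_eq_sum h2]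
  rfl

end Pool.Agent.NDC
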