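import Pool.Agent.NDC.Sdg

/-!
NDC module Enn (size 4): the coefficients of `dp W M = det (X M + W)` for `W > 0`, `M ≥ 0`, and the rank
of `M`.
PROOF. With `simdiag` (module Sdg): `X M + W = Qᴴ (X D + 1) Q` (with `.map C`), so
`dp W M = C (star Q.det * Q.det) * ∏ i, (1 + C (d i) * X)` (`Matrix.det_mul`, `Matrix.det_diagonal`,
`Matrix.det_conjTranspose`). The coefficient of `X^k` in `∏ i, (1 + C (d i) * X)` is
`∑ S ∈ Finset.powersetCard k univ, ∏ i ∈ S, d i` (`Finset.prod_one_add` or `Finset.prod_add`, then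
`Finset.prod_mul_distrib`, `Finset.prod_const`, `Polynomial.coeff_C_mul_X_pow`): it is a nonnegative
real number times the positive real number `|det Q|²`. Moreover `M.rank = #{i | d i ≠ 0}`
(`Matrix.rank_mul_eq_left_of_isUnit_det`, `Matrix.rank_mul_eq_right_of_isUnit_det`, `Matrix.rank_diagonal`).
If the rank is `≤ r`, every `S` with `r + 1` elements contains an `i` with `d i = 0`
and the sum vanishes; if the rank is `≥ r + 1` some `S` with `r + 1` elements has `d i > 0` for `i ∈ S`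
(`Finset.exists_subset_card_eq`), so the sum is positive.
-/

open scoped ContDiff ComplexConjugate Topology ComplexOrder
open Complex MeasureTheory Matrix

namespace Pool.Agent.NDC

open Pool.Agent.CYF

variable {n : ℕ} {W M : Matrix (Fin n) (Fin n) ℂ}

private noncomputable def Enn_e (d : Fin n → ℝ) (k : ℕ) : ℝ :=
  ∑ t ∈ (Finset.univ : Finset (Fin n)).powerset, if t.card = k then ∏ i ∈ t, d i else 0

private theorem Enn_coeff (d : Fin n → ℝ) (k : ℕ) :
    (∏ i, (1 + Polynomial.C ((d i : ℝ) : ℂ) * Polynomial.X)).coeff k = ((Enn_e d k : ℝ) : ℂ) := by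
  rw [Finset.prod_one_add, Polynomial.finsetSum_coeff]
  unfold Enn_e
  rw [Complex.ofReal_sum]
  refine Finset.sum_congr rfl fun t _ => ?_
  rw [Finset.prod_mul_distrib, Finset.prod_const, ← map_prod, Polynomial.coeff_C_mul_X_pow]
  by_cases h : t.card = k
  · rw [if_pos h.symm, if_pos h, Complex.ofReal_prod]
  · rw [if_neg (fun h' => h h'.symm), if_neg h, Complex.ofReal_zero]

private theorem Enn_dp {Q : Matrix (Fin n) (Fin n) ℂ} {d : Fin n → ℝ} (h1 : W = Qᴴ * Q)
    (h2 : M = Qᴴ * Matrix.diagonal (fun i => ((d i : ℝ) : ℂ)) * Q) :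
    dp W M = Polynomial.C (star Q.det * Q.det)
      * ∏ i, (1 + Polynomial.C ((d i : ℝ) : ℂ) * Polynomial.X) := by
  have h3 : (Polynomial.X : Polynomial ℂ) • M.map Polynomial.C + W.map Polynomial.C
      = (Qᴴ).map Polynomial.C
        * Matrix.diagonal (fun i => 1 + Polynomial.C ((d i : ℝ) : ℂ) * Polynomial.X)
        * Q.map Polynomial.C := by
    have h4 : Matrix.diagonal (fun i => 1 + Polynomial.C ((d i : ℝ) : ℂ) * Polynomial.X)
        = (Polynomial.X : Polynomial ℂ)
            • (Matrix.diagonal (fun i => ((d i : ℝ) : ℂ))).map Polynomial.C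
          + (1 : Matrix (Fin n) (Fin n) (Polynomial ℂ)) := by
      ext i j
      by_cases hij : i = j
      · subst hij
        simp [Matrix.smul_apply]
        ring
      · simp [Matrix.smul_apply, Matrix.diagonal_apply_ne _ hij, Matrix.one_apply_ne hij]
    rw [h4, Matrix.mul_add, Matrix.add_mul, Matrix.mul_one, Matrix.mul_smul, Matrix.smul_mul,
      h1, h2, Matrix.map_mul, Matrix.map_mul, Matrix.map_mul]
  unfold dp
  rw [h3, Matrix.det_mul, Matrix.det_mul, Matrix.det_diagonal]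
  have h5 : ((Qᴴ).map Polynomial.C).det = Polynomial.C (star Q.det) := by
    have h := (RingHom.map_det (Polynomial.C : ℂ →+* Polynomial ℂ) Qᴴ).symm
    rw [Matrix.det_conjTranspose] at h
    exact h
  have h6 : (Q.map Polynomial.C).det = Polynomial.C Q.det :=
    (RingHom.map_det (Polynomial.C : ℂ →+* Polynomial ℂ) Q).symm
  rw [h5, h6, map_mul]
  ring

private theorem Enn_dpc {Q : Matrix (Fin n) (Fin n) ℂ} {d : Fin n → ℝ} (h1 : W = Qᴴ * Q)
    (h2 : M = Qᴴ * Matrix.diagonal (fun i => ((d i : ℝ) : ℂ)) * Q) (k : ℕ) :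
    (dp W M).coeff k = ((Complex.normSq Q.det * Enn_e d k : ℝ) : ℂ) := by
  rw [Enn_dp h1 h2, Polynomial.coeff_C_mul, Enn_coeff, Complex.ofReal_mul]
  congr 1
  exact (Complex.normSq_eq_conj_mul_self).symm

private theorem Enn_rank {Q : Matrix (Fin n) (Fin n) ℂ} {d : Fin n → ℝ} (hQ : Q.det ≠ 0)
    (h2 : M = Qᴴ * Matrix.diagonal (fun i => ((d i : ℝ) : ℂ)) * Q) :
    M.rank = (Finset.univ.filter fun i => d i ≠ 0).card := by
  classical
  have h3 : IsUnit Q.det := isUnit_iff_ne_zero.2 hQ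
  have h4 : IsUnit (Qᴴ).det := by
    rw [Matrix.det_conjTranspose]
    exact isUnit_iff_ne_zero.2 (star_ne_zero.2 hQ)
  rw [h2, Matrix.rank_mul_eq_left_of_isUnit_det _ _ h3,
    Matrix.rank_mul_eq_right_of_isUnit_det _ _ h4, Matrix.rank_diagonal, Fintype.card_subtype]
  congr 1
  ext i
  simp

theorem dp_coeff_nonneg (hW : W.PosDef) (hM : M.PosSemidef) (k : ℕ) :
    0 ≤ ((dp W M).coeff k).re := by
  obtain ⟨Q, d, _, hd, h1, h2⟩ := simdiag hW hM
  rw [Enn_dpc h1 h2, Complex.ofReal_re]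
  refine mul_nonneg (Complex.normSq_nonneg _) (Finset.sum_nonneg fun t _ => ?_)
  split_ifs
  · exact Finset.prod_nonneg fun i _ => hd i
  · exact le_refl 0

theorem dp_coeff_zero (hW : W.PosDef) (hM : M.PosSemidef) {r : ℕ} (h : M.rank ≤ r) :
    (dp W M).coeff (r + 1) = 0 := by
  obtain ⟨Q, d, hQ, hd, h1, h2⟩ := simdiag hW hM
  rw [Enn_rank hQ h2] at h
  rw [Enn_dpc h1 h2]
  have h3 : Enn_e d (r + 1) = 0 := by
    refine Finset.sum_eq_zero fun t _ => ?_
    split_ifs with ht
    · by_contra h4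
      have h5 : t ⊆ Finset.univ.filter fun i => d i ≠ 0 := by
        intro i hi
        rw [Finset.mem_filter]
        exact ⟨Finset.mem_univ _, fun h6 => h4 (Finset.prod_eq_zero hi h6)⟩
      have h6 := Finset.card_le_card h5
      omega
    · rfl
  rw [h3, mul_zero, Complex.ofReal_zero]

theorem rank_of_coeff (hW : W.PosDef) (hM : M.PosSemidef) {r : ℕ}
    (h : ((dp W M).coeff (r + 1)).re = 0) : M.rank ≤ r := by
  obtain ⟨Q, d, hQ, hd, h1, h2⟩ := simdiag hW hM
  rw [Enn_dpc h1 h2, Complex.ofReal_re] at h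
  have h3 : Enn_e d (r + 1) = 0 :=
    (mul_eq_zero.1 h).resolve_left (Complex.normSq_pos.2 hQ).ne'
  rw [Enn_rank hQ h2]
  by_contra h4
  obtain ⟨t, ht1, ht2⟩ := Finset.exists_subset_card_eq (Nat.succ_le_of_lt (not_le.1 h4))
  have h5 := (Finset.sum_eq_zero_iff_of_nonneg (fun t _ => by
    split_ifs
    · exact Finset.prod_nonneg fun i _ => hd i
    · exact le_refl 0)).1 h3 t (Finset.mem_powerset.2 (Finset.subset_univ t))
  rw [if_pos ht2] at h5
  have h6 : 0 < ∏ i ∈ t, d i := by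
    refine Finset.prod_pos fun i hi => ?_
    exact lt_of_le_of_ne (hd i) (Ne.symm (Finset.mem_filter.1 (ht1 hi)).2)
  exact h6.ne' h5

end Pool.Agent.NDC
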