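import Pool.Agent.NDC.Glo

/-!
NDC module Adj (size 2): smoothness of determinants and adjugates.
PROOF. `Matrix.det_apply'`: sums of products (`ContDiffOn.sum`, `contDiffOn_prod`). Adjugate:
`Matrix.adjugate_apply`: determinant of `updateRow (G y) k (Pi.single l 1)`; its entries are
entries of `G y` or constants (`Matrix.updateRow_apply`, `split_ifs`). Trace: `Matrix.trace`, `Matrix.mul_apply`.
The continuous versions: same proofs with `continuousOn_finsetSum`, `continuousOn_finset_prod`.
-/

open scoped ContDiff ComplexConjugate Topology ComplexOrder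
open Complex MeasureTheory Matrix

namespace Pool.Agent.NDC

open Pool.Agent.CYF

variable {n : ℕ} {U : Set (E n)} {G H : E n → Matrix (Fin n) (Fin n) ℂ}

theorem contDiffOn_det (hG : ∀ i j, ContDiffOn ℝ ∞ (fun y => G y i j) U) :
    ContDiffOn ℝ ∞ (fun y => (G y).det) U := by
  have h : (fun y => (G y).det) = fun y => ∑ σ : Equiv.Perm (Fin n),
      ((Equiv.Perm.sign σ : ℤ) : ℂ) * ∏ i, G y (σ i) i := by
    funext y
    exact Matrix.det_apply' (G y)
  rw [h]
  refine ContDiffOn.sum fun σ _ => ?_
  refine ContDiffOn.mul contDiffOn_const ?_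
  exact contDiffOn_prod fun i _ => hG (σ i) i

theorem contDiffOn_adj (hG : ∀ i j, ContDiffOn ℝ ∞ (fun y => G y i j) U) (l k : Fin n) :
    ContDiffOn ℝ ∞ (fun y => (G y).adjugate l k) U := by
  have h : (fun y => (G y).adjugate l k) =
      fun y => ((G y).updateRow k (Pi.single l 1)).det := by
    funext y
    exact Matrix.adjugate_apply (G y) l k
  rw [h]
  refine contDiffOn_det (G := fun y => (G y).updateRow k (Pi.single l 1)) fun i j => ?_
  by_cases hik : i = k
  · subst hik
    have h2 : (fun y => ((G y).updateRow i (Pi.single l 1)) i j) =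
        fun _ => (Pi.single l 1 : Fin n → ℂ) j := by
      funext y
      rw [Matrix.updateRow_self]
    rw [h2]
    exact contDiffOn_const
  · have h2 : (fun y => ((G y).updateRow k (Pi.single l 1)) i j) = fun y => G y i j := by
      funext y
      rw [Matrix.updateRow_ne hik]
    rw [h2]
    exact hG i j

theorem contDiffOn_trace (hG : ∀ i j, ContDiffOn ℝ ∞ (fun y => G y i j) U)
    (hH : ∀ i j, ContDiffOn ℝ ∞ (fun y => H y i j) U) :
    ContDiffOn ℝ ∞ (fun y => ((G y).adjugate * H y).trace) U := by
  have h : (fun y => ((G y).adjugate * H y).trace) =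
      fun y => ∑ i, ∑ j, (G y).adjugate i j * H y j i := by
    funext y
    simp only [Matrix.trace, Matrix.diag_apply, Matrix.mul_apply]
  rw [h]
  refine ContDiffOn.sum fun i _ => ContDiffOn.sum fun j _ => ?_
  exact (contDiffOn_adj hG i j).mul (hH j i)

end Pool.Agent.NDC
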