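import Pool.Agent.NDC.Gdf

/-!
NDC module Sdg (size 3): simultaneous diagonalisation of a positive definite and a positive
semidefinite matrix.
-/

open scoped ContDiff ComplexConjugate Topology ComplexOrder
open Complex MeasureTheory Matrix

namespace Pool.Agent.NDC

open Pool.Agent.CYF

open scoped MatrixOrder in
private theorem sdg_factor {n : ℕ} {W : Matrix (Fin n) (Fin n) ℂ} (hW : W.PosSemidef) :
    ∃ B : Matrix (Fin n) (Fin n) ℂ, W = Bᴴ * B := by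
  obtain ⟨B, hB⟩ := CStarAlgebra.nonneg_iff_eq_star_mul_self.mp hW.nonneg
  exact ⟨B, hB⟩

theorem simdiag {n : ℕ} {W M : Matrix (Fin n) (Fin n) ℂ} (hW : W.PosDef) (hM : M.PosSemidef) :
    ∃ (Q : Matrix (Fin n) (Fin n) ℂ) (d : Fin n → ℝ), Q.det ≠ 0 ∧ (∀ i, 0 ≤ d i) ∧
      W = Qᴴ * Q ∧ M = Qᴴ * Matrix.diagonal (fun i => ((d i : ℝ) : ℂ)) * Q := by
  obtain ⟨B, hB⟩ := sdg_factor hW.posSemidef
  have hdW : W.det ≠ 0 := hW.det_pos.ne'
  have hdB : B.det ≠ 0 := by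
    intro h
    apply hdW
    rw [hB, Matrix.det_mul, h, mul_zero]
  have hu : IsUnit B.det := isUnit_iff_ne_zero.mpr hdB
  have h1 : B⁻¹ * B = 1 := Matrix.nonsing_inv_mul B hu
  have h2 : Bᴴ * (B⁻¹)ᴴ = 1 := by
    rw [← Matrix.conjTranspose_mul, h1, Matrix.conjTranspose_one]
  have hN : ((B⁻¹)ᴴ * M * B⁻¹).PosSemidef := hM.conjTranspose_mul_mul_same (B⁻¹)
  have hsp := hN.1.spectral_theorem
  set U : Matrix (Fin n) (Fin n) ℂ := (hN.1.eigenvectorUnitary : Matrix (Fin n) (Fin n) ℂ) with hU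
  have hUU : U * Uᴴ = 1 := by
    have := Unitary.coe_mul_star_self hN.1.eigenvectorUnitary
    exact this
  have hUd : U.det ≠ 0 := by
    intro h
    have h3 := congrArg Matrix.det hUU
    rw [Matrix.det_mul, h, zero_mul, Matrix.det_one] at h3
    exact zero_ne_one h3
  have hsp2 : (B⁻¹)ᴴ * M * B⁻¹ =
      U * Matrix.diagonal (fun i => ((hN.1.eigenvalues i : ℝ) : ℂ)) * Uᴴ := by
    conv_lhs => rw [hsp]
    rfl
  refine ⟨Uᴴ * B, hN.1.eigenvalues, ?_, fun i => hN.eigenvalues_nonneg i, ?_, ?_⟩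
  · rw [Matrix.det_mul, Matrix.det_conjTranspose]
    exact mul_ne_zero (star_ne_zero.mpr hUd) hdB
  · rw [Matrix.conjTranspose_mul, Matrix.conjTranspose_conjTranspose, Matrix.mul_assoc,
      ← Matrix.mul_assoc U, hUU, Matrix.one_mul, hB]
  · rw [Matrix.conjTranspose_mul, Matrix.conjTranspose_conjTranspose]
    calc M = (Bᴴ * (B⁻¹)ᴴ) * M * (B⁻¹ * B) := by rw [h1, h2, Matrix.one_mul, Matrix.mul_one]
      _ = Bᴴ * ((B⁻¹)ᴴ * M * B⁻¹) * B := by simp only [Matrix.mul_assoc]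
      _ = Bᴴ * (U * Matrix.diagonal (fun i => ((hN.1.eigenvalues i : ℝ) : ℂ)) * Uᴴ) * B :=
        congrArg (fun T => Bᴴ * T * B) hsp2
      _ = Bᴴ * U * Matrix.diagonal (fun i => ((hN.1.eigenvalues i : ℝ) : ℂ)) * (Uᴴ * B) := by
        simp only [Matrix.mul_assoc]

end Pool.Agent.NDC
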