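import Pool.Agent.NDC.Gdf

/-!
NDC module Krl (size 2): linear algebra of real linear forms on `ℂ^n`.
PROOF. As in module Kle (Kle.lean), over `ℝ`. `T : E n →ₗ[ℝ] (Fin N → ℝ)`, `T v j = L j v`. `real_surj`: a nonzero linear form vanishing on a
proper range gives a relation `∑ j, c j • L j = 0`. `real_indep`: conversely. `real_ker_le`: `finrank ℝ (E n) = 2 * n`
(`Module.finrank_mul_finrank ℝ ℂ (E n)` or `finrank_real_of_complex`, `Complex.finrank_real_complex`),
`finrank ℝ (ker T) = 2 n - 2 ν` (rank-nullity, `T` surjective), `V.restrictScalars ℝ ≤ ker T` and `finrank ℝ V = 2 * finrank ℂ V ≥ 2 n - 2 ν`, so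
they are equal (`Submodule.eq_of_le_of_finrank_le`).
-/

open scoped ContDiff ComplexConjugate Topology ComplexOrder
open Complex MeasureTheory Matrix

namespace Pool.Agent.NDC

open Pool.Agent.CYF

variable {n : ℕ}

private noncomputable def Krl_T {N : ℕ} (L : Fin N → (E n →L[ℝ] ℝ)) : E n →ₗ[ℝ] (Fin N → ℝ) :=
  LinearMap.pi fun j => (L j : E n →ₗ[ℝ] ℝ)

private theorem Krl_T_apply {N : ℕ} (L : Fin N → (E n →L[ℝ] ℝ)) (v : E n) (j : Fin N) :
    Krl_T L v j = L j v := rfl

private theorem Krl_range {N : ℕ} {L : Fin N → (E n →L[ℝ] ℝ)} (hL : LinearIndependent ℝ L) :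
    LinearMap.range (Krl_T L) = ⊤ := by
  by_contra hne
  have hlt : LinearMap.range (Krl_T L) < ⊤ := lt_top_iff_ne_top.2 hne
  obtain ⟨φ, hφ, hle⟩ := Submodule.exists_le_ker_of_lt_top _ hlt
  have h1 : ∑ j, φ (Pi.single j 1) • L j = 0 := by
    ext v
    have h2 : φ (Krl_T L v) = 0 := hle ⟨v, rfl⟩
    rw [LinearMap.pi_apply_eq_sum_univ φ] at h2
    simp only [_root_.sum_apply, _root_.smul_apply,
      _root_.zero_apply, smul_eq_mul]
    rw [← h2]
    refine Finset.sum_congr rfl fun j _ => ?_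
    rw [Krl_T_apply, smul_eq_mul, mul_comm]
    congr 2
    ext k
    by_cases h : k = j
    · subst h; simp
    · rw [Pi.single_eq_of_ne h]
      simp [Ne.symm h]
  have h3 := Fintype.linearIndependent_iff.1 hL _ h1
  apply hφ
  refine LinearMap.ext fun x => ?_
  rw [LinearMap.pi_apply_eq_sum_univ φ]
  refine Finset.sum_eq_zero fun j _ => ?_
  have h4 := h3 j
  have h5 : (fun k => if j = k then (1 : ℝ) else 0) = Pi.single j 1 := by
    ext k
    by_cases h : k = j
    · subst h; simp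
    · rw [Pi.single_eq_of_ne h]
      simp [Ne.symm h]
  rw [h5, h4, smul_zero]

theorem real_surj {N : ℕ} {L : Fin N → (E n →L[ℝ] ℝ)} (hL : LinearIndependent ℝ L)
    (b : Fin N → ℝ) : ∃ v : E n, ∀ j, L j v = b j := by
  have h : b ∈ LinearMap.range (Krl_T L) := by rw [Krl_range hL]; trivial
  obtain ⟨v, hv⟩ := h
  exact ⟨v, fun j => by rw [← Krl_T_apply, hv]⟩

theorem real_indep {N : ℕ} {L : Fin N → (E n →L[ℝ] ℝ)}
    (h : ∀ b : Fin N → ℝ, ∃ v : E n, ∀ j, L j v = b j) : LinearIndependent ℝ L := by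
  rw [Fintype.linearIndependent_iff]
  intro c hc k
  obtain ⟨v, hv⟩ := h (Pi.single k 1)
  have h1 : (∑ j, c j • L j) v = 0 := by rw [hc]; rfl
  simp only [_root_.sum_apply, _root_.smul_apply, smul_eq_mul,
    hv] at h1
  rw [Finset.sum_eq_single k] at h1
  · simpa using h1
  · intro j _ hj
    rw [Pi.single_eq_of_ne hj, mul_zero]
  · intro hk
    exact absurd (Finset.mem_univ k) hk

theorem real_ker_le {ν : ℕ} {L : Fin (2 * ν) → (E n →L[ℝ] ℝ)} (hL : LinearIndependent ℝ L)
    {V : Submodule ℂ (E n)} (hV : n ≤ Module.finrank ℂ V + ν) (h : ∀ v ∈ V, ∀ j, L j v = 0)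
    {v : E n} (hv : ∀ j, L j v = 0) : v ∈ V := by
  have h1 := LinearMap.finrank_range_add_finrank_ker (Krl_T L)
  rw [Krl_range hL, finrank_top] at h1
  have h2 : Module.finrank ℝ (Fin (2 * ν) → ℝ) = 2 * ν := by simp
  have h3 : Module.finrank ℝ (E n) = 2 * n := by
    rw [finrank_real_of_complex]
    simp [E]
  have h3' : Module.finrank ℝ (V.restrictScalars ℝ) = 2 * Module.finrank ℂ V :=
    finrank_real_of_complex V
  rw [h2, h3] at h1
  have h4 : V.restrictScalars ℝ ≤ LinearMap.ker (Krl_T L) := by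
    intro w hw
    rw [LinearMap.mem_ker]
    ext j
    exact h w hw j
  have h5 : V.restrictScalars ℝ = LinearMap.ker (Krl_T L) := by
    refine Submodule.eq_of_le_of_finrank_le h4 ?_
    omega
  have h6 : v ∈ V.restrictScalars ℝ := by
    rw [h5, LinearMap.mem_ker]
    ext j
    exact hv j
  exact h6

end Pool.Agent.NDC
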