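import Pool.Agent.NDC.Srx
import Pool.Agent.SRD.Npr

/-!
NDC module Aex (size 2): almost all level sets are regular.
-/

open scoped ContDiff ComplexConjugate Topology ComplexOrder
open Complex MeasureTheory Matrix

namespace Pool.Agent.NDC

open Pool.Agent.CYF

variable {n : ℕ} {X : Type*} [TopologicalSpace X] {ι : Type*} {A : Mfd n X ι}
  {Y : Set X} {N : ℕ} {u : Fin N → X → ℝ}

theorem ae_good [CompactSpace X] (hY : IsOpen Y) (hu : ∀ j, SmOn A Y (u j)) (i : ι) :
    ∀ᵐ z ∂(volume : Measure (E n)), z ∈ Ou A Y i →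
      LinearIndependent ℝ (fun j => fderiv ℝ (vt A (u j) i) z) →
      ∀ i', ∀ z' ∈ Ou A Y i', (∀ j, u j ((A.c i').symm z') = u j ((A.c i).symm z)) →
        LinearIndependent ℝ (fun j => fderiv ℝ (vt A (u j) i') z') := by
  obtain ⟨Z, hZ, hgood⟩ := null_values hY hu
  have hF : ContDiffOn ℝ ∞ (fun y => fun j => vt A (u j) i y) (Ou A Y i) :=
    contDiffOn_pi.2 fun j => hu j i
  have h0 := Pool.Agent.SRD.null_preimage (volume : Measure (E n)) (isOpen_Ou A hY i) hF hZ
  have h1 := measure_eq_zero_iff_ae_notMem.1 h0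
  filter_upwards [h1] with z hz hzO hind i' z' hz' hval
  apply hgood i' z' hz'
  intro hmem
  apply hz
  refine ⟨hzO, ?_, ?_⟩
  · intro b
    obtain ⟨v, hv⟩ := real_surj hind b
    refine ⟨v, ?_⟩
    have hd : ∀ j, DifferentiableAt ℝ (vt A (u j) i) z := fun j =>
      ((hu j i).contDiffAt ((isOpen_Ou A hY i).mem_nhds hzO)).differentiableAt (by simp)
    have hp : fderiv ℝ (fun y => fun j => vt A (u j) i y) z
        = ContinuousLinearMap.pi fun j => fderiv ℝ (vt A (u j) i) z := fderiv_pi hd
    rw [hp]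
    funext j
    exact hv j
  · have h2 : (fun j => vt A (u j) i z) = fun j => u j ((A.c i').symm z') := by
      funext j
      exact (hval j).symm
    rw [h2]
    exact hmem

end Pool.Agent.NDC
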