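import Mathlib

/-!
NDC module Slc (proved, copied from CIS).
-/
open scoped ContDiff Topology

namespace Pool.Agent.NDC

theorem slice {V W : Type*} [NormedAddCommGroup V] [NormedSpace ℝ V] [FiniteDimensional ℝ V]
    [NormedAddCommGroup W] [NormedSpace ℝ W] [FiniteDimensional ℝ W] {O : Set V} (hO : IsOpen O)
    {F : V → W} (hF : ContDiffOn ℝ ∞ F O) {G : V → ℝ} (hG : ContDiffOn ℝ ∞ G O) {z : V}
    (hz : z ∈ O) (hs : Function.Surjective (fderiv ℝ F z))
    (hk : ∀ y ∈ O, Function.Surjective (fderiv ℝ F y) →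
      ∀ v, fderiv ℝ F y v = 0 → fderiv ℝ G y v = 0) :
    ∀ᶠ y in 𝓝 z, F y = F z → G y = G z := by
  have hFz : ContDiffAt ℝ ∞ F z := hF.contDiffAt (hO.mem_nhds hz)
  obtain ⟨π, hπ⟩ := (fderiv ℝ F z).ker_closedComplemented_of_finiteDimensional_range
  have hinj : Function.Injective ((fderiv ℝ F z).prod π) := by
    intro x y hxy
    have h0 : (fderiv ℝ F z).prod π (x - y) = 0 := by rw [map_sub, hxy, sub_self]
    have h1 : fderiv ℝ F z (x - y) = 0 := congrArg Prod.fst h0
    have h2 : π (x - y) = 0 := congrArg Prod.snd h0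
    have h3 := hπ ⟨x - y, h1⟩
    have h4 : (x - y : V) = 0 := by
      have := congrArg Subtype.val (h3.symm.trans h2)
      simpa using this
    exact sub_eq_zero.1 h4
  have hsurj : Function.Surjective ((fderiv ℝ F z).prod π) := by
    rintro ⟨a, b⟩
    obtain ⟨x, hx⟩ := hs a
    refine ⟨x + ((b - π x : (fderiv ℝ F z).ker) : V), ?_⟩
    have hb : fderiv ℝ F z ((b - π x : (fderiv ℝ F z).ker) : V) = 0 := (b - π x).2
    have hp : π ((b - π x : (fderiv ℝ F z).ker) : V) = b - π x := hπ _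
    ext1
    · change fderiv ℝ F z (x + ((b - π x : (fderiv ℝ F z).ker) : V)) = a
      rw [map_add, hb, add_zero, hx]
    · change π (x + ((b - π x : (fderiv ℝ F z).ker) : V)) = b
      rw [map_add, hp]
      abel
  let e : V ≃L[ℝ] W × (fderiv ℝ F z).ker :=
    (LinearEquiv.ofBijective ((fderiv ℝ F z).prod π).toLinearMap
      ⟨hinj, hsurj⟩).toContinuousLinearEquiv
  have he : (e : V →L[ℝ] W × (fderiv ℝ F z).ker) = (fderiv ℝ F z).prod π := by
    ext x <;> rfl
  let Φ : V → W × (fderiv ℝ F z).ker := fun y => (F y, π y)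
  have hΦ : ContDiffAt ℝ ∞ Φ z := hFz.prodMk π.contDiff.contDiffAt
  have hFd : ∀ y ∈ O, HasFDerivAt F (fderiv ℝ F y) y := fun y hy =>
    ((hF.contDiffAt (hO.mem_nhds hy)).differentiableAt (by simp)).hasFDerivAt
  have hGd : ∀ y ∈ O, HasFDerivAt G (fderiv ℝ G y) y := fun y hy =>
    ((hG.contDiffAt (hO.mem_nhds hy)).differentiableAt (by simp)).hasFDerivAt
  have hd : HasFDerivAt Φ (e : V →L[ℝ] W × (fderiv ℝ F z).ker) z := by
    rw [he]
    exact (hFd z hz).prodMk π.hasFDerivAt
  let P := hΦ.toOpenPartialHomeomorph Φ hd (by simp)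
  have hzs : z ∈ P.source := hΦ.mem_toOpenPartialHomeomorph_source hd (by simp)
  have hzt : Φ z ∈ P.target := hΦ.image_mem_toOpenPartialHomeomorph_target hd (by simp)
  have hψz : P.symm (Φ z) = z := P.left_inv hzs
  have hψ : ContDiffAt ℝ ∞ P.symm (Φ z) := by
    have := hΦ.to_localInverse hd (by simp)
    exact this
  have e1 : ∀ᶠ w in 𝓝 (Φ z), Φ (P.symm w) = w := by
    filter_upwards [P.open_target.mem_nhds hzt] with w hw
    exact P.right_inv hw
  have e2 : ∀ᶠ w in 𝓝 (Φ z), DifferentiableAt ℝ P.symm w := by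
    have h1 : ContDiffAt ℝ 1 P.symm (Φ z) := hψ.of_le (by simp)
    filter_upwards [h1.eventually (by simp)] with w hw
    exact hw.differentiableAt (by simp)
  have e3 : ∀ᶠ w in 𝓝 (Φ z), P.symm w ∈ O := by
    have : Filter.Tendsto P.symm (𝓝 (Φ z)) (𝓝 (P.symm (Φ z))) := hψ.continuousAt
    rw [hψz] at this
    exact this (hO.mem_nhds hz)
  obtain ⟨ε, hε, hball⟩ := Metric.eventually_nhds_iff_ball.1 (e1.and (e2.and e3))
  -- the derivative of `F ∘ ψ`
  have hfst : ∀ w ∈ Metric.ball (Φ z) ε, ∀ u, fderiv ℝ F (P.symm w) (fderiv ℝ P.symm w u) = u.1 := by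
    intro w hw u
    have h1 : HasFDerivAt (F ∘ P.symm) ((fderiv ℝ F (P.symm w)).comp (fderiv ℝ P.symm w)) w :=
      (hFd _ (hball w hw).2.2).comp w (hball w hw).2.1.hasFDerivAt
    have h2 : HasFDerivAt (F ∘ P.symm) (ContinuousLinearMap.fst ℝ W (fderiv ℝ F z).ker) w := by
      refine hasFDerivAt_fst.congr_of_eventuallyEq ?_
      filter_upwards [Metric.isOpen_ball.mem_nhds hw] with w' hw'
      exact congrArg Prod.fst (hball w' hw').1
    have h3 := h1.unique h2
    have h4 := congrArg (fun A => A u) h3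
    simpa using h4
  have hzero : ∀ w ∈ Metric.ball (Φ z) ε, ∀ v : (fderiv ℝ F z).ker,
      fderiv ℝ G (P.symm w) (fderiv ℝ P.symm w (0, v)) = 0 := by
    intro w hw v
    apply hk _ (hball w hw).2.2
    · intro a
      exact ⟨fderiv ℝ P.symm w (a, 0), hfst w hw (a, 0)⟩
    · exact hfst w hw (0, v)
  have e4 : ∀ᶠ y in 𝓝 z, Φ y ∈ Metric.ball (Φ z) ε := by
    have : Filter.Tendsto Φ (𝓝 z) (𝓝 (Φ z)) := hΦ.continuousAt
    exact this (Metric.ball_mem_nhds _ hε)
  filter_upwards [e4, P.open_source.mem_nhds hzs] with y hy hys hFy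
  have hψy : P.symm (Φ y) = y := P.left_inv hys
  have hmem : ∀ b ∈ Metric.ball (π z) ε, (F z, b) ∈ Metric.ball (Φ z) ε := by
    intro b hb
    have : dist ((F z, b) : W × (fderiv ℝ F z).ker) (Φ z) = dist b (π z) := by
      change max (dist (F z) (F z)) (dist b (π z)) = _
      rw [dist_self]
      exact max_eq_right dist_nonneg
    rw [Metric.mem_ball, this]
    exact hb
  have hby : π y ∈ Metric.ball (π z) ε := by
    rw [Metric.mem_ball] at hy ⊢
    exact lt_of_le_of_lt (le_max_right (dist (F y) (F z)) (dist (π y) (π z))) hy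
  have hbz : π z ∈ Metric.ball (π z) ε := Metric.mem_ball_self hε
  have hder : ∀ b ∈ Metric.ball (π z) ε, HasFDerivAt (fun b => G (P.symm (F z, b)))
      (0 : (fderiv ℝ F z).ker →L[ℝ] ℝ) b := by
    intro b hb
    have hw := hmem b hb
    have h1 : HasFDerivAt (fun b : (fderiv ℝ F z).ker => ((F z, b) : W × (fderiv ℝ F z).ker))
        (ContinuousLinearMap.inr ℝ W (fderiv ℝ F z).ker) b := hasFDerivAt_prodMk_right (F z) b
    have h2 : HasFDerivAt (fun b => P.symm (F z, b))
        ((fderiv ℝ P.symm (F z, b)).comp (ContinuousLinearMap.inr ℝ W (fderiv ℝ F z).ker)) b :=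
      HasFDerivAt.comp b (hball _ hw).2.1.hasFDerivAt h1
    have h3 := HasFDerivAt.comp b (hGd _ (hball _ hw).2.2) h2
    refine h3.congr_fderiv ?_
    ext v
    exact hzero _ hw v
  have hconst := Metric.isOpen_ball.is_const_of_fderiv_eq_zero
    (𝕜 := ℝ) (convex_ball (π z) ε).isPreconnected
    (fun b hb => (hder b hb).differentiableAt.differentiableWithinAt)
    (fun b hb => (hder b hb).fderiv) hby hbz
  have hy1 : G (P.symm (F z, π y)) = G y := by
    rw [← hFy]
    exact congrArg G hψy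
  have hz1 : G (P.symm (F z, π z)) = G z := congrArg G hψz
  rw [← hy1, ← hz1]
  exact hconst

end Pool.Agent.NDC
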