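import Pool.Agent.NDC.Glo
import Pool.Agent.NDC.Krl
import Pool.Agent.NDC.Slc

/-!
NDC module Lcr (size 3): functions whose derivative vanishes on the common kernel of the real forms `du_j` are locally constant
on the common level sets of the `u_j`.
PROOF. As module Lca (and ref/CIS_Lcn.lean.txt), with `F : E n → (Fin N → ℝ)`, `F y j = vt A (u j) i y`, smooth on `Ou A Y i` (open),
`fderiv ℝ F y v j = fderiv ℝ (vt A (u j) i) y v` (`fderiv_pi`). `slice` (module Slc, proved) with `O = Ou A Y i`,
`G = vt A G i`, `z = A.c i x`: surjectivity of `fderiv ℝ F y` is linear independence of the forms (module Krl).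
`comp_const`: a function that is locally constant on `L` near every point of `connectedComponentIn L x` is constant on it:
`lev_const` in ref/CIS_Lev.lean.txt.
-/

open scoped ContDiff ComplexConjugate Topology ComplexOrder
open Complex MeasureTheory Matrix

namespace Pool.Agent.NDC

open Pool.Agent.CYF

variable {n : ℕ} {X : Type*} [TopologicalSpace X] {ι : Type*} {A : Mfd n X ι}
  {Y : Set X} {N : ℕ}

theorem comp_const {L : Set X} {x : X} (hxL : x ∈ L) {G : X → ℝ}
    (h : ∀ y ∈ connectedComponentIn L x, ∀ᶠ y' in 𝓝 y, y' ∈ L → G y' = G y) :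
    ∀ y ∈ connectedComponentIn L x, G y = G x := by
  intro y hy
  have : PreconnectedSpace (connectedComponentIn L x) :=
    Subtype.preconnectedSpace isPreconnected_connectedComponentIn
  have h1 : IsLocallyConstant (fun y : connectedComponentIn L x => G y) := by
    rw [IsLocallyConstant.iff_eventually_eq]
    intro z
    have h2 := continuous_subtype_val.continuousAt.eventually (h z z.2)
    filter_upwards [h2] with z' hz'
    exact hz' (connectedComponentIn_subset _ _ z'.2)
  exact h1.apply_eq_of_preconnectedSpace ⟨y, hy⟩ ⟨x, mem_connectedComponentIn hxL⟩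

theorem loc_const_real (hY : IsOpen Y) {u : Fin N → X → ℝ} (hu : ∀ j, SmOn A Y (u j))
    {G : X → ℝ} (hG : SmOn A Y G) {i : ι} {x : X} (hx : x ∈ Y) (hi : x ∈ (A.c i).source)
    (hd : ∀ y ∈ Ou A Y i, LinearIndependent ℝ (fun j => fderiv ℝ (vt A (u j) i) y) →
      ∀ v : E n, (∀ j, fderiv ℝ (vt A (u j) i) y v = 0) → fderiv ℝ (vt A G i) y v = 0)
    (hind : LinearIndependent ℝ (fun j => fderiv ℝ (vt A (u j) i) (A.c i x))) :
    ∀ᶠ y in 𝓝 x, (∀ j, u j y = u j x) → G y = G x := by
  have hO : IsOpen (Ou A Y i) := isOpen_Ou A hY i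
  have hz : A.c i x ∈ Ou A Y i := mem_Ou hi hx
  let F : E n → (Fin N → ℝ) := fun y j => vt A (u j) i y
  have hF : ContDiffOn ℝ ∞ F (Ou A Y i) := contDiffOn_pi.2 fun j => hu j i
  have key : ∀ y ∈ Ou A Y i, ∀ (v : E n) (j : Fin N),
      fderiv ℝ F y v j = fderiv ℝ (vt A (u j) i) y v := by
    intro y hy v j
    have hdj : ∀ j, DifferentiableAt ℝ (fun y => vt A (u j) i y) y :=
      fun j => ((hu j i).contDiffAt (hO.mem_nhds hy)).differentiableAt (by simp)
    have h0 : fderiv ℝ F y = ContinuousLinearMap.pi fun j => fderiv ℝ (fun y => vt A (u j) i y) y :=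
      fderiv_pi hdj
    rw [h0]
    rfl
  have hsur : Function.Surjective (fderiv ℝ F (A.c i x)) := by
    intro b
    obtain ⟨v, hv⟩ := real_surj hind b
    refine ⟨v, ?_⟩
    funext j
    rw [key _ hz]
    exact hv j
  have hk : ∀ y ∈ Ou A Y i, Function.Surjective (fderiv ℝ F y) →
      ∀ v, fderiv ℝ F y v = 0 → fderiv ℝ (vt A G i) y v = 0 := by
    intro y hy hsu v hv
    have hli : LinearIndependent ℝ (fun j => fderiv ℝ (vt A (u j) i) y) := by
      refine real_indep fun b => ?_
      obtain ⟨w, hw⟩ := hsu b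
      refine ⟨w, fun j => ?_⟩
      rw [← key y hy w j, hw]
    refine hd y hy hli v fun j => ?_
    rw [← key y hy v j, hv]
    rfl
  have hsl := slice hO hF (G := vt A G i) (hG i) hz hsur hk
  have h1 := ((A.c i).continuousAt hi).eventually hsl
  filter_upwards [h1, (A.c i).open_source.mem_nhds hi] with y hy hyi hj
  have h4 : F (A.c i y) = F (A.c i x) := by
    funext j
    show vt A (u j) i (A.c i y) = vt A (u j) i (A.c i x)
    rw [vt_chart hyi, vt_chart hi]
    exact hj j
  have h5 := hy h4
  rw [vt_chart hyi, vt_chart hi] at h5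
  exact h5

end Pool.Agent.NDC
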