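import Pool.Agent.NDC.Gdf

/-!
NDC: basic facts about charts (proved).
-/

open scoped ContDiff ComplexConjugate Topology ComplexOrder
open Complex MeasureTheory Matrix

namespace Pool.Agent.NDC

open Pool.Agent.CYF

variable {n : ℕ} {X : Type*} [TopologicalSpace X] {ι : Type*}

theorem mem_ix (A : Mfd n X ι) (x : X) : x ∈ (A.c (ix A x)).source := (A.cover x).choose_spec

theorem isOpen_Uo (A : Mfd n X ι) (i j : ι) : IsOpen (Uo A i j) :=
  (A.c i).symm.isOpen_inter_preimage (A.c j).open_source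

theorem isOpen_Ou (A : Mfd n X ι) {Y : Set X} (hY : IsOpen Y) (i : ι) : IsOpen (Ou A Y i) :=
  (A.c i).symm.isOpen_inter_preimage hY

theorem Ou_subset {A : Mfd n X ι} {Y : Set X} (i : ι) : Ou A Y i ⊆ (A.c i).target := fun _ h => h.1

theorem Uo_subset {A : Mfd n X ι} (i j : ι) : Uo A i j ⊆ (A.c i).target := fun _ h => h.1

theorem mem_Ou {A : Mfd n X ι} {Y : Set X} {i : ι} {x : X} (hi : x ∈ (A.c i).source)
    (hx : x ∈ Y) : A.c i x ∈ Ou A Y i := by
  refine ⟨(A.c i).map_source hi, ?_⟩
  rw [(A.c i).left_inv hi]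
  exact hx

theorem ph_mem {A : Mfd n X ι} {i j : ι} {z : E n} (hz : z ∈ Uo A i j) :
    ph A i j z ∈ (A.c j).target := (A.c j).map_source hz.2

theorem symm_ph {A : Mfd n X ι} {i j : ι} {z : E n} (hz : z ∈ Uo A i j) :
    (A.c j).symm (ph A i j z) = (A.c i).symm z := (A.c j).left_inv hz.2

theorem ph_mem_Uo {A : Mfd n X ι} {i j : ι} {z : E n} (hz : z ∈ Uo A i j) :
    ph A i j z ∈ Uo A j i := by
  refine ⟨ph_mem hz, ?_⟩
  rw [symm_ph hz]
  exact (A.c i).map_target hz.1

theorem ph_ph {A : Mfd n X ι} {i j : ι} {z : E n} (hz : z ∈ Uo A i j) :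
    ph A j i (ph A i j z) = z := by
  unfold ph
  simp only [Function.comp]
  have h := symm_ph hz
  unfold ph at h
  simp only [Function.comp] at h
  rw [h, (A.c i).right_inv hz.1]

theorem ph_mem_Ou {A : Mfd n X ι} {Y : Set X} {i j : ι} {z : E n} (hz : z ∈ Uo A i j)
    (hY : z ∈ Ou A Y i) : ph A i j z ∈ Ou A Y j := by
  refine ⟨ph_mem hz, ?_⟩
  rw [symm_ph hz]
  exact hY.2

theorem ph_chart {A : Mfd n X ι} {i j : ι} {x : X} (hi : x ∈ (A.c i).source) :
    ph A i j (A.c i x) = A.c j x := by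
  unfold ph
  simp [(A.c i).left_inv hi]

theorem mem_Uo {A : Mfd n X ι} {i j : ι} {x : X} (hi : x ∈ (A.c i).source)
    (hj : x ∈ (A.c j).source) : A.c i x ∈ Uo A i j := by
  refine ⟨(A.c i).map_source hi, ?_⟩
  rw [(A.c i).left_inv hi]
  exact hj

theorem contDiffOn_ph (A : Mfd n X ι) (i j : ι) : ContDiffOn ℂ ∞ (ph A i j) (Uo A i j) :=
  A.hol i j

theorem vt_ph {A : Mfd n X ι} {i j : ι} {z : E n} (hz : z ∈ Uo A i j) (v : X → ℝ) :
    vt A v j (ph A i j z) = vt A v i z := by
  unfold vt
  rw [symm_ph hz]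

theorem vt_chart {A : Mfd n X ι} {i : ι} {x : X} (hi : x ∈ (A.c i).source) (v : X → ℝ) :
    vt A v i (A.c i x) = v x := by
  unfold vt
  rw [(A.c i).left_inv hi]

theorem contDiffOn_LM {w : E n → ℝ} {U : Set (E n)} (hU : IsOpen U) (hw : ContDiffOn ℝ ∞ w U)
    (k l : Fin n) : ContDiffOn ℝ ∞ (fun z => LM w z k l) U :=
  contDiffOn_pk hU (contDiffOn_pb hU (contDiffOn_cx hw) l) k

theorem lm_apply (w : E n → ℝ) (z : E n) (k l : Fin n) : lm w z k l = LM w z k l := rfl

theorem continuous_of_charts (A : Mfd n X ι) {h : X → ℝ}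
    (H : ∀ i, ContinuousOn (vt A h i) (A.c i).target) : Continuous h := by
  rw [continuous_iff_continuousAt]
  intro x
  have hs := mem_ix A x
  have h1 : h =ᶠ[𝓝 x] fun y => vt A h (ix A x) (A.c (ix A x) y) := by
    filter_upwards [(A.c (ix A x)).open_source.mem_nhds hs] with y hy
    exact (vt_chart hy h).symm
  have h2 : ContinuousAt (fun y => vt A h (ix A x) (A.c (ix A x) y)) x := by
    have h3 : ContinuousAt (vt A h (ix A x)) (A.c (ix A x) x) :=
      (H (ix A x)).continuousAt
        ((A.c (ix A x)).open_target.mem_nhds ((A.c (ix A x)).map_source hs))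
    exact ContinuousAt.comp (f := A.c (ix A x)) h3 ((A.c (ix A x)).continuousAt hs)
  exact h2.congr h1.symm

variable {A : Mfd n X ι}

theorem Sm.continuous {v : X → ℝ} (hv : Sm A v) : Continuous v :=
  continuous_of_charts A fun i => (hv i).continuousOn

theorem Sm.add {v v' : X → ℝ} (hv : Sm A v) (hv' : Sm A v') : Sm A (fun x => v x + v' x) :=
  fun i => (hv i).add (hv' i)

theorem Sm.mul {v v' : X → ℝ} (hv : Sm A v) (hv' : Sm A v') : Sm A (fun x => v x * v' x) :=
  fun i => (hv i).mul (hv' i)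

theorem Sm.smOn {v : X → ℝ} (hv : Sm A v) (Y : Set X) : SmOn A Y v :=
  fun i => (hv i).mono (Ou_subset i)

/-- the form `r η + t i∂∂̄ b + om` -/
noncomputable def Form.comb (η om : Form A) {b : X → ℝ} (hb : Sm A b) (r t : ℝ) : Form A where
  w i z := r * η.w i z + t * vt A b i z + om.w i z
  smooth i := ((contDiffOn_const.mul (η.smooth i)).add (contDiffOn_const.mul (hb i))).add
    (om.smooth i)
  compat := by
    intro i j z hz hz' a a'
    have hU : z ∈ Uo A i j := ⟨hz, hz'⟩
    have hphz : ph A i j z ∈ (A.c j).target := ph_mem hU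
    -- the Levi form is additive
    have key : ∀ (k : ι) (y : E n), y ∈ (A.c k).target → ∀ p q : E n,
        levi (fun z => r * η.w k z + t * vt A b k z + om.w k z) y p q
          = r * levi (η.w k) y p q + t * levi (vt A b k) y p q + levi (om.w k) y p q := by
      intro k y hy p q
      have hO := (A.c k).open_target
      have h1 : ContDiffOn ℝ ∞ (fun z => r * η.w k z) (A.c k).target :=
        contDiffOn_const.mul (η.smooth k)
      have h2 : ContDiffOn ℝ ∞ (fun z => t * vt A b k z) (A.c k).target :=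
        contDiffOn_const.mul (hb k)
      have h12 : ContDiffOn ℝ ∞ (fun z => r * η.w k z + t * vt A b k z) (A.c k).target := h1.add h2
      have h3 := om.smooth k
      rw [levi_eq_sum ((h12.add h3).contDiffAt (hO.mem_nhds hy)),
        levi_eq_sum ((η.smooth k).contDiffAt (hO.mem_nhds hy)),
        levi_eq_sum ((hb k).contDiffAt (hO.mem_nhds hy)),
        levi_eq_sum (h3.contDiffAt (hO.mem_nhds hy))]
      simp only [Finset.mul_sum, ← Finset.sum_add_distrib]
      refine Finset.sum_congr rfl fun u _ => Finset.sum_congr rfl fun v _ => ?_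
      rw [LM_add hO h12 h3 hy, LM_add hO h1 h2 hy, LM_const_mul hO (η.smooth k) hy,
        LM_const_mul hO (hb k) hy]
      ring
    have hbc : levi (vt A b j) (ph A i j z) (fderiv ℂ (ph A i j) z a) (fderiv ℂ (ph A i j) z a')
        = levi (vt A b i) z a a' := by
      have h1 : vt A b i =ᶠ[𝓝 z] fun y => vt A b j (ph A i j y) := by
        filter_upwards [(isOpen_Uo A i j).mem_nhds hU] with y hy
        exact (vt_ph hy b).symm
      rw [levi_eq_sum ((hb j).contDiffAt ((A.c j).open_target.mem_nhds hphz)),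
        levi_eq_sum ((hb i).contDiffAt ((A.c i).open_target.mem_nhds hz))]
      have h2 : ∀ k l, LM (vt A b i) z k l = ∑ p, ∑ q, TT (ph A i j) z p k
          * conj (TT (ph A i j) z q l) * LM (vt A b j) (ph A i j z) p q := by
        intro k l
        rw [LM_congr h1]
        exact chg (isOpen_Uo A i j) (contDiffOn_ph A i j) (A.c j).open_target (hb j) hU
          hphz k l
      simp only [h2, TT_apply, Finset.sum_mul, Finset.mul_sum, map_sum, map_mul]
      have h3 : ∀ F : Fin n → Fin n → Fin n → Fin n → ℂ,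
          ∑ p, ∑ q, ∑ l, ∑ k, F p q k l = ∑ k, ∑ l, ∑ p, ∑ q, F p q k l := by
        intro F
        calc ∑ p, ∑ q, ∑ l, ∑ k, F p q k l = ∑ p, ∑ l, ∑ q, ∑ k, F p q k l :=
              Finset.sum_congr rfl fun p _ => Finset.sum_comm
          _ = ∑ p, ∑ l, ∑ k, ∑ q, F p q k l :=
              Finset.sum_congr rfl fun p _ => Finset.sum_congr rfl fun l _ => Finset.sum_comm
          _ = ∑ l, ∑ p, ∑ k, ∑ q, F p q k l := Finset.sum_comm
          _ = ∑ l, ∑ k, ∑ p, ∑ q, F p q k l :=
              Finset.sum_congr rfl fun l _ => Finset.sum_comm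
          _ = ∑ k, ∑ l, ∑ p, ∑ q, F p q k l := Finset.sum_comm
      have h4 := h3 fun p q k l => TT (ph A i j) z p k * a k
        * (conj (TT (ph A i j) z q l) * conj (a' l)) * LM (vt A b j) (ph A i j z) p q
      refine Eq.trans ?_ (h4.trans ?_)
      · refine Finset.sum_congr rfl fun p _ => Finset.sum_congr rfl fun q _ => ?_
        refine Finset.sum_congr rfl fun l _ => Finset.sum_congr rfl fun k _ => ?_
        ring
      · refine Finset.sum_congr rfl fun k _ => Finset.sum_congr rfl fun l _ => ?_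
        refine Finset.sum_congr rfl fun p _ => Finset.sum_congr rfl fun q _ => ?_
        ring
    have h1 := key j (ph A i j z) hphz (fderiv ℂ (ph A i j) z a) (fderiv ℂ (ph A i j) z a')
    have h2 := key i z hz a a'
    have h3 : levi (η.w j) (ph A i j z) (fderiv ℂ (ph A i j) z a) (fderiv ℂ (ph A i j) z a')
        = levi (η.w i) z a a' := η.compat i j z hz hz' a a'
    have h4 : levi (om.w j) (ph A i j z) (fderiv ℂ (ph A i j) z a) (fderiv ℂ (ph A i j) z a')
        = levi (om.w i) z a a' := om.compat i j z hz hz' a a'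
    rw [h3, h4, hbc, ← h2] at h1
    exact h1

end Pool.Agent.NDC
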