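import Pool.Agent.NDC.Gdf

/-!
NDC module Itp (size 2): interpolation. A linear functional on polynomials of degree `≤ d` is a
combination of the values at `d + 1` distinct points.
PROOF. `itp`: Lagrange interpolation. For `p` of degree `≤ d < d + 1`,
`p = Lagrange.interpolate Finset.univ t (fun a => p.eval (t a))` (`Lagrange.eq_interpolate`, with
`Set.injOn_of_injective ht`, `degree p < (Finset.univ : Finset (Fin (d+1))).card`), which is
`∑ a, C (p.eval (t a)) * Lagrange.basis Finset.univ t a` (`Lagrange.interpolate_apply`); apply the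
linear map `L` (`Polynomial.C_mul'`, `map_smul`): `c a = L (Lagrange.basis Finset.univ t a)`.
`quad`: apply `itp` to the points `t a = a` and the linear functional
`L q = ∑ j ∈ range (d + 1), q.coeff j / (j + 1)` (write it as a `LinearMap`, for instance
`∑ j ∈ range (d + 1), ((j : ℂ) + 1)⁻¹ • Polynomial.lcoeff ℂ j`) and `q = p.derivative` (degree `≤ d`:
`Polynomial.natDegree_derivative_le`): `q.coeff j = p.coeff (j + 1) * (j + 1)`
(`Polynomial.coeff_derivative`), so `L q = ∑ j ∈ range (d + 1), p.coeff (j + 1)`, and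
`p.eval 1 = ∑ i ∈ range (d + 2), p.coeff i` (`Polynomial.eval_eq_sum_range'`), `p.eval 0 = p.coeff 0`;
`Finset.sum_range_succ'`.
-/

open scoped ContDiff ComplexConjugate Topology ComplexOrder
open Complex MeasureTheory Matrix

namespace Pool.Agent.NDC

open Pool.Agent.CYF

theorem itp {d : ℕ} {t : Fin (d + 1) → ℂ} (ht : Function.Injective t)
    (L : Polynomial ℂ →ₗ[ℂ] ℂ) : ∃ c : Fin (d + 1) → ℂ, ∀ p : Polynomial ℂ, p.natDegree ≤ d →
      L p = ∑ a, c a * p.eval (t a) := by
  refine ⟨fun a => L (Lagrange.basis Finset.univ t a), fun p hp => ?_⟩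
  have hdeg : p.degree < (Finset.univ : Finset (Fin (d + 1))).card := by
    rw [Finset.card_univ, Fintype.card_fin]
    refine lt_of_le_of_lt (Polynomial.degree_le_of_natDegree_le hp) ?_
    exact_mod_cast Nat.lt_succ_self d
  have h := Lagrange.eq_interpolate (s := Finset.univ) (v := t) (f := p)
    (Set.injOn_of_injective ht) hdeg
  conv_lhs => rw [h]
  rw [Lagrange.interpolate_apply, map_sum]
  refine Finset.sum_congr rfl fun a _ => ?_
  rw [← Polynomial.smul_eq_C_mul, map_smul, smul_eq_mul, mul_comm]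

theorem quad (d : ℕ) : ∃ c : Fin (d + 1) → ℂ, ∀ p : Polynomial ℂ, p.natDegree ≤ d + 1 →
    p.eval 1 - p.eval 0 = ∑ a : Fin (d + 1), c a * p.derivative.eval ((a : ℕ) : ℂ) := by
  have ht : Function.Injective (fun a : Fin (d + 1) => ((a : ℕ) : ℂ)) := by
    intro a b hab
    have h2 : ((a : ℕ) : ℂ) = ((b : ℕ) : ℂ) := hab
    exact Fin.ext (Nat.cast_injective h2)
  obtain ⟨c, hc⟩ := itp ht (∑ j ∈ Finset.range (d + 1), ((j : ℂ) + 1)⁻¹ • Polynomial.lcoeff ℂ j)
  refine ⟨c, fun p hp => ?_⟩
  have hd : p.derivative.natDegree ≤ d := by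
    refine le_trans (Polynomial.natDegree_derivative_le p) ?_
    omega
  rw [← hc p.derivative hd]
  have h1 : p.eval 1 = ∑ i ∈ Finset.range (d + 2), p.coeff i := by
    rw [Polynomial.eval_eq_sum_range' (Nat.lt_succ_of_le hp)]
    refine Finset.sum_congr rfl fun i _ => ?_
    simp
  have h0 : p.eval 0 = p.coeff 0 := by rw [Polynomial.coeff_zero_eq_eval_zero]
  rw [h1, h0, Finset.sum_range_succ', add_sub_cancel_right, LinearMap.sum_apply]
  refine Finset.sum_congr rfl fun j _ => ?_
  have hj : ((j : ℂ) + 1) ≠ 0 := Nat.cast_add_one_ne_zero j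
  rw [LinearMap.smul_apply, Polynomial.lcoeff_apply, Polynomial.coeff_derivative, smul_eq_mul]
  field_simp

end Pool.Agent.NDC
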