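import Pool.Agent.NDC.Itl

/-!
NDC module Ips (size 3): a nonnegative density with integral zero vanishes.
PROOF. The real part of `Itg P f` is `∑ a, ∫ z in (A.c (P.j a)).target, ρ a (..) * (f (P.j a) z).re`
(`Complex.reCLM.integral_comp_comm` / `integral_re`, with `Itg_term`; `Complex.re_ofReal_mul`); all terms are `≥ 0`, so all
vanish (`Finset.sum_eq_zero_iff_of_nonneg`). For every `a` the function
`g z = ρ a (..) * (f (P.j a) z).re` is continuous and nonnegative on the open set `(A.c (P.j a)).target` and integrable with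
integral zero there, so it vanishes there (`setIntegral_eq_zero_iff_of_nonneg_ae`, then
`MeasureTheory.Measure.eqOn_open_of_ae_eq` or `Measure.eqOn_of_ae_eq` for continuous functions on an open set, see Mathlib
`MeasureTheory.Measure.OpenPos`). Given `z` in the target of `i`, `x = (A.c i).symm z`, some `ρ a x > 0` (`P.one`,
`P.nonneg`), `x ∈ (A.c (P.j a)).source` (`P.off`), so `z ∈ Uo A i (P.j a)` and `(f (P.j a) (ph z)).re = 0` (with
`symm_ph`), and `hf.trans` gives `(f i z).re = 0`.
-/

open scoped ContDiff ComplexConjugate Topology ComplexOrder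
open Complex MeasureTheory Matrix

namespace Pool.Agent.NDC

open Pool.Agent.CYF

variable {n : ℕ} {X : Type*} [TopologicalSpace X] {ι : Type*} {A : Mfd n X ι}

theorem Itg_pos (P : Pou A) {f : ι → E n → ℂ} (hf : IsDens A f)
    (h0 : ∀ i, ∀ z ∈ (A.c i).target, 0 ≤ (f i z).re) (h : Itg P f = 0) :
    ∀ i, ∀ z ∈ (A.c i).target, (f i z).re = 0 := by
  have hre : ∀ a : Fin P.N, ∫ z in (A.c (P.j a)).target,
      P.ρ a ((A.c (P.j a)).symm z) * (f (P.j a) z).re =
      (∫ z in (A.c (P.j a)).target,
        ((P.ρ a ((A.c (P.j a)).symm z) : ℝ) : ℂ) * f (P.j a) z).re := by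
    intro a
    have h1 := reCLM.integral_comp_comm (Itg_term P hf a)
    simp only [reCLM_apply, re_ofReal_mul] at h1
    exact h1
  have hint : ∀ a : Fin P.N, IntegrableOn (fun z =>
      P.ρ a ((A.c (P.j a)).symm z) * (f (P.j a) z).re) (A.c (P.j a)).target := by
    intro a
    have h1 := (Itg_term P hf a).re
    refine h1.congr ?_
    refine Filter.Eventually.of_forall fun z => ?_
    exact re_ofReal_mul _ _
  have hnn : ∀ a : Fin P.N, ∀ z ∈ (A.c (P.j a)).target,
      0 ≤ P.ρ a ((A.c (P.j a)).symm z) * (f (P.j a) z).re :=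
    fun a z hz => mul_nonneg (P.nonneg a _) (h0 _ z hz)
  have hnn' : ∀ a : Fin P.N, 0 ≤ ∫ z in (A.c (P.j a)).target,
      P.ρ a ((A.c (P.j a)).symm z) * (f (P.j a) z).re :=
    fun a => setIntegral_nonneg (A.c (P.j a)).open_target.measurableSet (hnn a)
  have hsum : ∑ a : Fin P.N, ∫ z in (A.c (P.j a)).target,
      P.ρ a ((A.c (P.j a)).symm z) * (f (P.j a) z).re = 0 := by
    have h1 := congrArg Complex.re h
    unfold Itg at h1
    rw [Complex.re_sum, Complex.zero_re] at h1
    rw [← h1]
    exact Finset.sum_congr rfl fun a _ => hre a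
  have hz : ∀ a : Fin P.N, ∫ z in (A.c (P.j a)).target,
      P.ρ a ((A.c (P.j a)).symm z) * (f (P.j a) z).re = 0 :=
    fun a => (Finset.sum_eq_zero_iff_of_nonneg (fun a _ => hnn' a)).mp hsum a (Finset.mem_univ a)
  have heq : ∀ a : Fin P.N, ∀ z ∈ (A.c (P.j a)).target,
      P.ρ a ((A.c (P.j a)).symm z) * (f (P.j a) z).re = 0 := by
    intro a
    have h1 := (setIntegral_eq_zero_iff_of_nonneg_ae
      ((ae_restrict_iff' (A.c (P.j a)).open_target.measurableSet).mpr
        (Filter.Eventually.of_forall (hnn a))) (hint a)).mp (hz a)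
    have h2 : ContinuousOn (fun z => P.ρ a ((A.c (P.j a)).symm z) * (f (P.j a) z).re)
        (A.c (P.j a)).target :=
      ContinuousOn.mul (P.sm a (P.j a)).continuousOn
        (Complex.continuous_re.comp_continuousOn (hf.cont (P.j a)))
    have h3 := Measure.eqOn_open_of_ae_eq h1 (A.c (P.j a)).open_target h2 continuousOn_const
    intro z hz
    exact h3 hz
  intro i z hz
  obtain ⟨a, ha⟩ : ∃ a : Fin P.N, P.ρ a ((A.c i).symm z) ≠ 0 := by
    by_contra hne
    have h1 : ∀ a, P.ρ a ((A.c i).symm z) = 0 := fun a => by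
      by_contra h2
      exact hne ⟨a, h2⟩
    have h2 := P.one ((A.c i).symm z)
    rw [Finset.sum_eq_zero fun a _ => h1 a] at h2
    exact zero_ne_one h2
  have hU : z ∈ Uo A i (P.j a) := ⟨hz, (P.off a _ ha).1⟩
  have h1 := heq a (ph A i (P.j a) z) (ph_mem hU)
  rw [symm_ph hU] at h1
  have h2 := (mul_eq_zero.mp h1).resolve_left ha
  rw [hf.trans i (P.j a) z hU, re_ofReal_mul, h2, mul_zero]

end Pool.Agent.NDC
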