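import Pool.Agent.NDC.Dns

/-!
NDC module Itl (size 3): the integral of densities is linear.
PROOF. `integrableOn_of_compact`: `ContinuousOn.integrableOn_compact` on `K`, and `g = 0` on `U \ K`
(`IntegrableOn.of_forall_diff_eq_zero`, `U` open so measurable). `Itg_term`: apply it to `K = P.K a`
(`P.off`: if `z` is in the target and not in `P.K a` then `ρ a ((A.c i).symm z) = 0`, because otherwise
`A.c i ((A.c i).symm z) = z ∈ P.K a`; `OpenPartialHomeomorph.right_inv`); continuity of
`z ↦ P.ρ a ((A.c i).symm z) = vt A (P.ρ a) i z` on the target: `(P.sm a _).continuousOn`. `Itg_add`, `Itg_sum`: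
`integral_add`, `integral_finset_sum` with `Itg_term`; `Itg_smul`: `integral_const_mul`; `Itg_congr`:
`setIntegral_congr_fun`.
-/

open scoped ContDiff ComplexConjugate Topology ComplexOrder
open Complex MeasureTheory Matrix

namespace Pool.Agent.NDC

open Pool.Agent.CYF

variable {n : ℕ} {X : Type*} [TopologicalSpace X] {ι : Type*} {A : Mfd n X ι}

theorem integrableOn_of_compact {U K : Set (E n)} (hU : IsOpen U) (hK : IsCompact K) (hKU : K ⊆ U)
    {g : E n → ℂ} (hg : ContinuousOn g U) (h0 : ∀ z ∈ U, z ∉ K → g z = 0) :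
    IntegrableOn g U := by
  have h1 : IntegrableOn g K := (hg.mono hKU).integrableOn_compact hK
  exact h1.of_forall_sdiff_eq_zero hU.measurableSet fun z hz => h0 z hz.1 hz.2

theorem Itg_term (P : Pou A) {f : ι → E n → ℂ} (hf : IsDens A f) (a : Fin P.N) :
    IntegrableOn (fun z => ((P.ρ a ((A.c (P.j a)).symm z) : ℝ) : ℂ) * f (P.j a) z)
      (A.c (P.j a)).target := by
  refine integrableOn_of_compact (A.c (P.j a)).open_target (P.cpt a) (P.sub a) ?_ ?_
  · refine ContinuousOn.mul ?_ (hf.cont (P.j a))
    have h1 : ContinuousOn (vt A (P.ρ a) (P.j a)) (A.c (P.j a)).target :=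
      (P.sm a (P.j a)).continuousOn
    exact Complex.continuous_ofReal.comp_continuousOn h1
  · intro z hz hK
    have h1 : P.ρ a ((A.c (P.j a)).symm z) = 0 := by
      by_contra hne
      have h2 := (P.off a _ hne).2
      rw [(A.c (P.j a)).right_inv hz] at h2
      exact hK h2
    rw [h1]
    simp

theorem Itg_add (P : Pou A) {f g : ι → E n → ℂ} (hf : IsDens A f) (hg : IsDens A g) :
    Itg P (fun i z => f i z + g i z) = Itg P f + Itg P g := by
  unfold Itg
  rw [← Finset.sum_add_distrib]
  refine Finset.sum_congr rfl fun a _ => ?_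
  rw [← integral_add (Itg_term P hf a) (Itg_term P hg a)]
  refine integral_congr_ae (Filter.Eventually.of_forall fun z => ?_)
  simp only
  ring

theorem Itg_smul (P : Pou A) (f : ι → E n → ℂ) (c : ℂ) :
    Itg P (fun i z => c * f i z) = c * Itg P f := by
  unfold Itg
  rw [Finset.mul_sum]
  refine Finset.sum_congr rfl fun a _ => ?_
  rw [← integral_const_mul]
  refine integral_congr_ae (Filter.Eventually.of_forall fun z => ?_)
  simp only
  ring

theorem Itg_sum (P : Pou A) {κ : Type*} (s : Finset κ) (F : κ → ι → E n → ℂ)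
    (h : ∀ a ∈ s, IsDens A (F a)) :
    Itg P (fun i z => ∑ a ∈ s, F a i z) = ∑ a ∈ s, Itg P (F a) := by
  classical
  induction s using Finset.induction_on with
  | empty => simp [Itg]
  | insert b s hb ih =>
    have h1 : IsDens A (F b) := h b (Finset.mem_insert_self b s)
    have h2 : ∀ a ∈ s, IsDens A (F a) := fun a ha => h a (Finset.mem_insert_of_mem ha)
    simp only [Finset.sum_insert hb]
    rw [Itg_add P h1 (IsDens.sum s F h2), ih h2]

theorem Itg_congr (P : Pou A) {f g : ι → E n → ℂ}
    (h : ∀ i, ∀ z ∈ (A.c i).target, f i z = g i z) : Itg P f = Itg P g := by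
  unfold Itg
  refine Finset.sum_congr rfl fun a _ => ?_
  refine setIntegral_congr_fun (A.c (P.j a)).open_target.measurableSet fun z hz => ?_
  show _ = _
  rw [h _ z hz]

end Pool.Agent.NDC
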