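import Pool.Agent.NDC.Gdf

/-!
NDC module Trf (size 2): determinant and trace of the adjugate under `M ↦ Tᵀ M T̄`.
PROOF. `(T.map conj).det = conj T.det` (`RingHom.map_det` for `starRingEnd ℂ`), `Matrix.det_mul`,
`Matrix.det_transpose`, `Complex.mul_conj`, `Complex.normSq_eq_norm_sq`. Trace:
`(Tᵀ M S).adjugate = S.adjugate * M.adjugate * Tᵀ.adjugate` (`Matrix.adjugate_mul_distrib`), then
`Tᵀ.adjugate * Tᵀ = det T • 1` (`Matrix.adjugate_mul`), cyclicity (`Matrix.trace_mul_comm`) and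
`S * S.adjugate = det S • 1` (`Matrix.mul_adjugate`).
-/

open scoped ContDiff ComplexConjugate Topology ComplexOrder
open Complex MeasureTheory Matrix

namespace Pool.Agent.NDC

open Pool.Agent.CYF

variable {n : ℕ}

private theorem trf_conj_det (T : Matrix (Fin n) (Fin n) ℂ) :
    (T.map conj).det = conj T.det := by
  have h := RingHom.map_det (starRingEnd ℂ) T
  rw [h]
  rfl

private theorem trf_norm (T : Matrix (Fin n) (Fin n) ℂ) :
    T.det * (T.map conj).det = ((‖T.det‖ ^ 2 : ℝ) : ℂ) := by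
  rw [trf_conj_det, Complex.mul_conj, Complex.normSq_eq_norm_sq]

theorem trf_det (T M : Matrix (Fin n) (Fin n) ℂ) :
    (Tᵀ * M * T.map conj).det = ((‖T.det‖ ^ 2 : ℝ) : ℂ) * M.det := by
  rw [Matrix.det_mul, Matrix.det_mul, Matrix.det_transpose, ← trf_norm]
  ring

theorem trf_trace (T M K : Matrix (Fin n) (Fin n) ℂ) :
    ((Tᵀ * M * T.map conj).adjugate * (Tᵀ * K * T.map conj)).trace
      = ((‖T.det‖ ^ 2 : ℝ) : ℂ) * (M.adjugate * K).trace := by
  generalize hS : T.map conj = S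
  have hn : T.det * S.det = ((‖T.det‖ ^ 2 : ℝ) : ℂ) := by rw [← hS]; exact trf_norm T
  rw [Matrix.adjugate_mul_distrib, Matrix.adjugate_mul_distrib]
  have h1 : S.adjugate * (M.adjugate * (Tᵀ).adjugate) * (Tᵀ * K * S)
      = S.adjugate * (M.adjugate * ((Tᵀ).adjugate * Tᵀ) * K * S) := by
    simp only [Matrix.mul_assoc]
  rw [h1, Matrix.adjugate_mul, Matrix.trace_mul_comm, Matrix.det_transpose]
  have h2 : M.adjugate * (T.det • (1 : Matrix (Fin n) (Fin n) ℂ)) * K * S * S.adjugate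
      = M.adjugate * (T.det • (1 : Matrix (Fin n) (Fin n) ℂ)) * K * (S * S.adjugate) := by
    simp only [Matrix.mul_assoc]
  rw [h2, Matrix.mul_adjugate, ← hn]
  simp only [Matrix.mul_smul, Matrix.smul_mul, Matrix.mul_one, Matrix.trace_smul, smul_eq_mul]
  ring

end Pool.Agent.NDC
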