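import Pool.Agent.NDC.Tlm
import Pool.Agent.NDC.Trf
import Pool.Agent.NDC.Adj

/-!
NDC module Dns (size 2): densities.
PROOF. `dens_det`, `dens_tr`: transformation: `lm_w_chg`, `lm_vt_chg` (module Tlm), `trf_det`, `trf_trace`
(module Trf). Continuity: `contDiffOn_det`, `contDiffOn_trace` (module Adj) with the smooth entries
`contDiffOn_LM (A.c i).open_target (θ.smooth i)`, `(hb i)`. The rest is immediate (`vt_ph` for `mul_fun`).
-/

open scoped ContDiff ComplexConjugate Topology ComplexOrder
open Complex MeasureTheory Matrix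

namespace Pool.Agent.NDC

open Pool.Agent.CYF

variable {n : ℕ} {X : Type*} [TopologicalSpace X] {ι : Type*} {A : Mfd n X ι}

theorem dens_det (θ : Form A) : IsDens A (fun i z => (lm (θ.w i) z).det) := by
  refine ⟨fun i => ?_, fun i j z hz => ?_⟩
  · exact (contDiffOn_det (G := fun z => lm (θ.w i) z) fun k l =>
      contDiffOn_LM (A.c i).open_target (θ.smooth i) k l).continuousOn
  · show (lm (θ.w i) z).det = _
    rw [lm_w_chg θ hz, trf_det]

theorem dens_tr (θ : Form A) {b : X → ℝ} (hb : Sm A b) :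
    IsDens A (fun i z => ((lm (θ.w i) z).adjugate * lm (vt A b i) z).trace) := by
  refine ⟨fun i => ?_, fun i j z hz => ?_⟩
  · exact (contDiffOn_trace (G := fun z => lm (θ.w i) z) (H := fun z => lm (vt A b i) z)
      (fun k l => contDiffOn_LM (A.c i).open_target (θ.smooth i) k l)
      (fun k l => contDiffOn_LM (A.c i).open_target (hb i) k l)).continuousOn
  · show ((lm (θ.w i) z).adjugate * lm (vt A b i) z).trace = _
    rw [lm_w_chg θ hz, lm_vt_chg hb hz, trf_trace]

theorem IsDens.smul {f : ι → E n → ℂ} (hf : IsDens A f) (c : ℂ) :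
    IsDens A (fun i z => c * f i z) := by
  refine ⟨fun i => continuousOn_const.mul (hf.cont i), fun i j z hz => ?_⟩
  show c * f i z = _
  rw [hf.trans i j z hz]
  ring

theorem IsDens.add {f g : ι → E n → ℂ} (hf : IsDens A f) (hg : IsDens A g) :
    IsDens A (fun i z => f i z + g i z) := by
  refine ⟨fun i => (hf.cont i).add (hg.cont i), fun i j z hz => ?_⟩
  show f i z + g i z = _
  rw [hf.trans i j z hz, hg.trans i j z hz]
  ring

theorem IsDens.sum {κ : Type*} (s : Finset κ) (F : κ → ι → E n → ℂ)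
    (h : ∀ a ∈ s, IsDens A (F a)) : IsDens A (fun i z => ∑ a ∈ s, F a i z) := by
  refine ⟨fun i => continuousOn_finsetSum s fun a ha => (h a ha).cont i,
    fun i j z hz => ?_⟩
  show ∑ a ∈ s, F a i z = _
  rw [Finset.mul_sum]
  exact Finset.sum_congr rfl fun a ha => (h a ha).trans i j z hz

theorem IsDens.mul_fun {f : ι → E n → ℂ} (hf : IsDens A f) {g : X → ℝ} (hg : Sm A g) :
    IsDens A (fun i z => ((vt A g i z : ℝ) : ℂ) * f i z) := by
  refine ⟨fun i => (Complex.continuous_ofReal.comp_continuousOn (hg i).continuousOn).mul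
    (hf.cont i), fun i j z hz => ?_⟩
  show ((vt A g i z : ℝ) : ℂ) * f i z = _
  rw [vt_ph hz, hf.trans i j z hz]
  ring

end Pool.Agent.NDC
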