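import Pool.Agent.NDC.Dns

/-!
NDC module Cov (size 3): change of variables for densities.
-/

open scoped ContDiff ComplexConjugate Topology ComplexOrder
open Complex MeasureTheory Matrix

namespace Pool.Agent.NDC

open Pool.Agent.CYF

variable {n : ℕ} {X : Type*} [TopologicalSpace X] {ι : Type*} {A : Mfd n X ι}

private theorem Cov_det (L : E n →L[ℂ] E n) :
    |(L.restrictScalars ℝ).det| = ‖L.det‖ ^ 2 := by
  have h5 : (L.restrictScalars ℝ).det = Algebra.norm ℝ (((L : E n →ₗ[ℂ] E n)).det) :=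
    LinearMap.det_restrictScalars
  rw [h5, Algebra.norm_complex_apply, abs_of_nonneg (Complex.normSq_nonneg _),
    Complex.normSq_eq_norm_sq]

private theorem Cov_restrict {f : ι → E n → ℂ} (i j : ι)
    (hi : ∀ z ∈ (A.c i).target, f i z ≠ 0 → (A.c i).symm z ∈ (A.c j).source) :
    ∫ z in (A.c i).target, f i z = ∫ z in Uo A i j, f i z := by
  refine (setIntegral_eq_of_subset_of_forall_sdiff_eq_zero
    (A.c i).open_target.measurableSet (Uo_subset i j) fun z hz => ?_)
  by_contra h
  exact hz.2 ⟨hz.1, hi z hz.1 h⟩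

theorem cov {f : ι → E n → ℂ} (hf : IsDens A f) (i j : ι)
    (hi : ∀ z ∈ (A.c i).target, f i z ≠ 0 → (A.c i).symm z ∈ (A.c j).source)
    (hj : ∀ z ∈ (A.c j).target, f j z ≠ 0 → (A.c j).symm z ∈ (A.c i).source) :
    ∫ z in (A.c i).target, f i z = ∫ z in (A.c j).target, f j z := by
  rw [Cov_restrict i j hi, Cov_restrict j i hj]
  have himg : ph A i j '' Uo A i j = Uo A j i := by
    ext y
    constructor
    · rintro ⟨z, hz, rfl⟩
      exact ph_mem_Uo hz
    · intro hy
      exact ⟨ph A j i y, ph_mem_Uo hy, ph_ph hy⟩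
  have hinj : Set.InjOn (ph A i j) (Uo A i j) := by
    intro z hz z' hz' h
    rw [← ph_ph hz, ← ph_ph hz', h]
  have hd : ∀ z ∈ Uo A i j, HasFDerivWithinAt (ph A i j)
      ((fderiv ℂ (ph A i j) z).restrictScalars ℝ) (Uo A i j) z := by
    intro z hz
    have h1 : DifferentiableAt ℂ (ph A i j) z :=
      ((contDiffOn_ph A i j).contDiffAt ((isOpen_Uo A i j).mem_nhds hz)).differentiableAt
        (by simp)
    exact (h1.hasFDerivAt.restrictScalars ℝ).hasFDerivWithinAt
  rw [← himg, integral_image_eq_integral_abs_det_fderiv_smul volume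
    (isOpen_Uo A i j).measurableSet hd hinj]
  refine setIntegral_congr_fun (isOpen_Uo A i j).measurableSet fun z hz => ?_
  rw [hf.trans i j z hz]
  beta_reduce
  rw [Cov_det, Tm_det, Complex.real_smul]

end Pool.Agent.NDC
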