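import Pool.Agent.NDC.Stk
import Pool.Agent.NDC.Cov
import Pool.Agent.NDC.Itl
import Pool.Agent.NDC.Psd

/-!
NDC module Sgl (size 4): Stokes' theorem on `X`.
PROOF. For `c : Fin P.N` let `b_c x = P.ρ c x * b x` (`Sm.mul`) and
`F c i z = ((lm (θ.w i) z).adjugate * lm (vt A b_c i) z).trace`, a density (`dens_tr`). Since
`b = ∑ c, b_c` (`P.one`), `lm (vt A b i) z = ∑ c, lm (vt A b_c i) z` on the target (induction on finsets with
`lm_add_vt`, module Psd, or directly with `LM_congr` and a sum version), so the density is `∑ c, F c`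
(`Matrix.mul_sum`, `Matrix.trace_sum`), and by `Itg_congr`, `Itg_sum` it is enough that `Itg P (F c) = 0`.
(1) `stokes_supp`: if `z` is in the target of `i` and `F c i z ≠ 0` then `(A.c i).symm z ∈ (A.c (P.j c)).source`: the set
`(A.c (P.j c)).symm '' P.K c` is compact, so closed; if `(A.c i).symm z` is not in it then `ρ c = 0` near this point
(`P.off`: `ρ c y ≠ 0` gives `y = symm (A.c y)` in the set), so `vt A b_c i = 0` near `z` (continuity of
`(A.c i).symm` at `z`), `lm (vt A b_c i) z = 0` (see `P_zero_off` in DTW/Glo.lean).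
(2) `stokes_local`: `∫ z in (A.c (P.j c)).target, F c (P.j c) z = 0`: let `v' = (A.c (P.j c)).target.indicator (vt A b_c (P.j c))`;
it is zero off `P.K c` (`P.off`), smooth on the target; `stokes` (module Stk) with `K = P.K c`; the integrand
vanishes off the target (`lm_zero_off`), so the integral over `E n` is the integral over the target
(`setIntegral_eq_integral_of_forall_compl_eq_zero`), where `lm v' = lm (vt A b_c ..)` (`LM_congr`), see `int_P_local` in
DTW/Int.lean.
(3) `Itg P (F c) = ∑ a, ∫ z in (A.c (P.j a)).target, ρ a · F c (P.j a) z`; for every `a` the density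
`fun i z => (vt A (P.ρ a) i z : ℂ) * F c i z` (`IsDens.mul_fun`) satisfies the hypotheses of `cov` (module Cov) for the
charts `P.j a`, `P.j c` (`P.off`, (1)), so the term is `∫ z in (A.c (P.j c)).target, (vt A (P.ρ a) (P.j c) z : ℂ) * F c (P.j c) z`.
Sum over `a` (`integral_finset_sum`, integrability by `integrableOn_of_compact` with `K = P.K c`, module Itl):
`∑ a, ρ a = 1` gives `∫ z in (A.c (P.j c)).target, F c (P.j c) z = 0` by (2).
-/

open scoped ContDiff ComplexConjugate Topology ComplexOrder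
open Complex MeasureTheory Matrix

namespace Pool.Agent.NDC

open Pool.Agent.CYF

variable {n : ℕ} {X : Type*} [TopologicalSpace X] {ι : Type*} {A : Mfd n X ι}

private theorem Sgl_lm_zero {v : E n → ℝ} {z : E n} (h : v =ᶠ[𝓝 z] fun _ => 0) : lm v z = 0 := by
  ext k l
  rw [lm_apply, LM_congr h, LM_eq]
  have h3 : pb l (cx (fun _ : E n => (0 : ℝ))) = fun _ => 0 := by
    funext y
    have h4 : cx (fun _ : E n => (0 : ℝ)) = fun _ => (0 : ℂ) := by
      funext y; simp [cx]
    rw [h4]
    exact d01_const 0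
  rw [h3]
  exact d10_const 0

theorem stokes_supp [T2Space X] (P : Pou A) (θ : Form A) {b : X → ℝ} (hb : Sm A b)
    (c : Fin P.N) {i : ι} {z : E n} (hz : z ∈ (A.c i).target)
    (h : ((lm (θ.w i) z).adjugate * lm (vt A (fun x => P.ρ c x * b x) i) z).trace ≠ 0) :
    (A.c i).symm z ∈ (A.c (P.j c)).source ∧ A.c (P.j c) ((A.c i).symm z) ∈ P.K c := by
  have hK : IsCompact ((A.c (P.j c)).symm '' P.K c) :=
    (P.cpt c).image_of_continuousOn ((A.c (P.j c)).continuousOn_symm.mono (P.sub c))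
  by_cases hm : (A.c i).symm z ∈ (A.c (P.j c)).symm '' P.K c
  · obtain ⟨u, hu, hue⟩ := hm
    rw [← hue]
    refine ⟨(A.c (P.j c)).map_target (P.sub c hu), ?_⟩
    rw [(A.c (P.j c)).right_inv (P.sub c hu)]
    exact hu
  · exfalso
    apply h
    have h1 : vt A (fun x => P.ρ c x * b x) i =ᶠ[𝓝 z] fun _ => 0 := by
      have h2 : ContinuousAt (A.c i).symm z := (A.c i).continuousAt_symm hz
      filter_upwards [h2 (hK.isClosed.isOpen_compl.mem_nhds hm)] with y hy
      show P.ρ c ((A.c i).symm y) * b ((A.c i).symm y) = 0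
      have h3 : P.ρ c ((A.c i).symm y) = 0 := by
        by_contra h4
        obtain ⟨h5, h6⟩ := P.off c _ h4
        exact hy ⟨_, h6, (A.c (P.j c)).left_inv h5⟩
      rw [h3, zero_mul]
    rw [Sgl_lm_zero h1, mul_zero, trace_zero]

theorem stokes_local (P : Pou A) (θ : Form A) {b : X → ℝ} (hb : Sm A b) (c : Fin P.N) :
    ∫ z in (A.c (P.j c)).target,
      ((lm (θ.w (P.j c)) z).adjugate * lm (vt A (fun x => P.ρ c x * b x) (P.j c)) z).trace = 0 := by
  classical
  obtain ⟨j, hj⟩ : ∃ j, j = P.j c := ⟨_, rfl⟩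
  obtain ⟨v, hv⟩ : ∃ v : E n → ℝ, v = vt A (fun x => P.ρ c x * b x) (P.j c) := ⟨_, rfl⟩
  obtain ⟨v', hv'⟩ : ∃ v' : E n → ℝ, v' = (A.c (P.j c)).target.indicator v := ⟨_, rfl⟩
  have h0 : ∀ z ∉ P.K c, v' z = 0 := by
    intro z hz
    rw [hv', Set.indicator]
    split_ifs with h
    · rw [hv]
      show P.ρ c ((A.c (P.j c)).symm z) * b ((A.c (P.j c)).symm z) = 0
      have h3 : P.ρ c ((A.c (P.j c)).symm z) = 0 := by
        by_contra h4
        obtain ⟨h5, h6⟩ := P.off c _ h4
        rw [(A.c (P.j c)).right_inv h] at h6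
        exact hz h6
      rw [h3, zero_mul]
    · rfl
  have hsm : ContDiffOn ℝ ∞ v' (A.c (P.j c)).target := by
    have h1 : Sm A (fun x => P.ρ c x * b x) := (P.sm c).mul hb
    refine (h1 (P.j c)).congr fun z hz => ?_
    rw [hv', Set.indicator_of_mem hz, hv]
  have hst := stokes (A.c (P.j c)).open_target (P.cpt c) (P.sub c) (θ.smooth (P.j c)) hsm h0
  have hz0 : ∀ z ∉ (A.c (P.j c)).target,
      ((lm (θ.w (P.j c)) z).adjugate * lm v' z).trace = 0 := by
    intro z hz
    rw [lm_zero_off (P.cpt c) h0 (fun h => hz (P.sub c h)), mul_zero, trace_zero]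
  rw [← setIntegral_eq_integral_of_forall_compl_eq_zero hz0] at hst
  rw [← hst]
  refine setIntegral_congr_fun (A.c (P.j c)).open_target.measurableSet fun z hz => ?_
  have h1 : lm (vt A (fun x => P.ρ c x * b x) (P.j c)) z = lm v' z := by
    ext k l
    rw [lm_apply, lm_apply]
    refine LM_congr ?_ k l
    filter_upwards [(A.c (P.j c)).open_target.mem_nhds hz] with y hy
    rw [hv', Set.indicator_of_mem hy, hv]
  show ((lm (θ.w (P.j c)) z).adjugate * lm (vt A (fun x => P.ρ c x * b x) (P.j c)) z).trace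
    = ((lm (θ.w (P.j c)) z).adjugate * lm v' z).trace
  rw [h1]

private theorem Sgl_sum {κ : Type*} (t : Finset κ) {g : κ → X → ℝ} (hg : ∀ c, Sm A (g c)) :
    Sm A (fun x => ∑ c ∈ t, g c x) ∧ ∀ i, ∀ z ∈ (A.c i).target,
      lm (vt A (fun x => ∑ c ∈ t, g c x) i) z = ∑ c ∈ t, lm (vt A (g c) i) z := by
  classical
  induction t using Finset.induction_on with
  | empty =>
    refine ⟨fun i => ?_, fun i z hz => ?_⟩
    · simp only [Finset.sum_empty]
      exact contDiffOn_const
    · simp only [Finset.sum_empty]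
      exact Sgl_lm_zero (Filter.Eventually.of_forall fun _ => rfl)
  | insert a t ha ih =>
    have h1 : (fun x => ∑ c ∈ insert a t, g c x) = fun x => g a x + ∑ c ∈ t, g c x := by
      funext x
      rw [Finset.sum_insert ha]
    rw [h1]
    refine ⟨(hg a).add ih.1, fun i z hz => ?_⟩
    rw [lm_add_vt (hg a) ih.1 hz, ih.2 i z hz, Finset.sum_insert ha]

theorem Itg_stokes [T2Space X] (P : Pou A) (θ : Form A) {b : X → ℝ} (hb : Sm A b) :
    Itg P (fun i z => ((lm (θ.w i) z).adjugate * lm (vt A b i) z).trace) = 0 := by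
  classical
  have hbc : ∀ c : Fin P.N, Sm A (fun x => P.ρ c x * b x) := fun c => (P.sm c).mul hb
  obtain ⟨F, hF⟩ : ∃ F : Fin P.N → ι → E n → ℂ, F = fun c i z =>
    ((lm (θ.w i) z).adjugate * lm (vt A (fun x => P.ρ c x * b x) i) z).trace := ⟨_, rfl⟩
  have hFd : ∀ c, IsDens A (F c) := by
    intro c
    rw [hF]
    exact dens_tr θ (hbc c)
  have hsum : ∀ i, ∀ z ∈ (A.c i).target,
      ((lm (θ.w i) z).adjugate * lm (vt A b i) z).trace = ∑ c ∈ Finset.univ, F c i z := by
    intro i z hz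
    have h1 : b = fun x => ∑ c ∈ Finset.univ, P.ρ c x * b x := by
      funext x
      rw [← Finset.sum_mul, P.one, one_mul]
    have h2 := (Sgl_sum (A := A) Finset.univ (g := fun c x => P.ρ c x * b x) hbc).2 i z hz
    have h3 : lm (vt A b i) z = ∑ c ∈ Finset.univ, lm (vt A (fun x => P.ρ c x * b x) i) z := by
      rw [← h2, ← h1]
    rw [h3, Matrix.mul_sum, Matrix.trace_sum, hF]
  rw [Itg_congr P hsum, Itg_sum P Finset.univ F (fun c _ => hFd c)]
  refine Finset.sum_eq_zero fun c _ => ?_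
  obtain ⟨G, hG⟩ : ∃ G : Fin P.N → ι → E n → ℂ, G = fun a i z =>
    ((vt A (P.ρ a) i z : ℝ) : ℂ) * F c i z := ⟨_, rfl⟩
  have hGd : ∀ a, IsDens A (G a) := by
    intro a
    rw [hG]
    exact (hFd c).mul_fun (P.sm a)
  have hterm : ∀ a, ∫ z in (A.c (P.j a)).target, G a (P.j a) z
      = ∫ z in (A.c (P.j c)).target, G a (P.j c) z := by
    intro a
    refine cov (hGd a) (P.j a) (P.j c) ?_ ?_
    · intro z hz h
      have h1 : F c (P.j a) z ≠ 0 := by
        rw [hG] at h
        exact right_ne_zero_of_mul h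
      rw [hF] at h1
      exact (stokes_supp P θ hb c hz h1).1
    · intro z hz h
      have h1 : ((vt A (P.ρ a) (P.j c) z : ℝ) : ℂ) ≠ 0 := by
        rw [hG] at h
        exact left_ne_zero_of_mul h
      have h2 : P.ρ a ((A.c (P.j c)).symm z) ≠ 0 := by
        intro h3
        apply h1
        show ((P.ρ a ((A.c (P.j c)).symm z) : ℝ) : ℂ) = 0
        rw [h3, Complex.ofReal_zero]
      exact (P.off a _ h2).1
  have hI : Itg P (F c) = ∑ a, ∫ z in (A.c (P.j a)).target, G a (P.j a) z := by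
    rw [hG]
    rfl
  rw [hI, Finset.sum_congr rfl fun a _ => hterm a]
  have hint : ∀ a ∈ (Finset.univ : Finset (Fin P.N)),
      IntegrableOn (fun z => G a (P.j c) z) (A.c (P.j c)).target := by
    intro a _
    refine integrableOn_of_compact (A.c (P.j c)).open_target (P.cpt c) (P.sub c)
      ((hGd a).cont (P.j c)) ?_
    intro z hz hzK
    by_contra h
    have h1 : F c (P.j c) z ≠ 0 := by
      rw [hG] at h
      exact right_ne_zero_of_mul h
    rw [hF] at h1
    have h2 := (stokes_supp P θ hb c hz h1).2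
    rw [(A.c (P.j c)).right_inv hz] at h2
    exact hzK h2
  rw [← integral_finsetSum _ hint]
  have hl := stokes_local P θ hb c
  rw [← hl]
  refine setIntegral_congr_fun (A.c (P.j c)).open_target.measurableSet fun z hz => ?_
  show ∑ a, G a (P.j c) z = ((lm (θ.w (P.j c)) z).adjugate *
    lm (vt A (fun x => P.ρ c x * b x) (P.j c)) z).trace
  have h1 : ∑ a, ((vt A (P.ρ a) (P.j c) z : ℝ) : ℂ) = 1 := by
    have h2 : ∑ a, vt A (P.ρ a) (P.j c) z = 1 := P.one _
    exact_mod_cast congrArg (fun x : ℝ => (x : ℂ)) h2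
  rw [hG]
  show ∑ a, ((vt A (P.ρ a) (P.j c) z : ℝ) : ℂ) * F c (P.j c) z = _
  rw [← Finset.sum_mul, h1, one_mul, hF]

end Pool.Agent.NDC
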