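import Pool.Agent.NDC.Glo

/-!
NDC module Bmp (size 3): existence of a smooth partition of unity.
PROOF. Copy `smooth_off_compact` and `exists_bump` from Pool/Agent/DTW/Int.lean (`Atlas` → `Mfd`): for every
`x` a smooth `φ ≥ 0` on `X`, positive near `x`, zero off `K = (A.c i).symm '' K'` with `K' ⊆ (A.c i).target`
compact, `i = ix A x`. By compactness finitely many sets `{φ x > 0}` cover `X`
(`CompactSpace.elim_nhds_subcover`, finset `t`); enumerate `t` by `Fin t.card` (`t.equivFin.symm`, as in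
`exists_volume` in Pool/Agent/DTW/Vol.lean); `Φ = ∑ φ > 0` is smooth, `ρ a = φ a * Φ⁻¹` (see the proof
of `int_P` in DTW/Int.lean). `off`: `ρ a x ≠ 0` gives `x ∈ K`, `x = (A.c i).symm u` with `u ∈ K'`, so `x ∈ source` and
`A.c i x = u ∈ K'`.
-/

open scoped ContDiff ComplexConjugate Topology ComplexOrder
open Complex MeasureTheory Matrix

namespace Pool.Agent.NDC

open Pool.Agent.CYF

variable {n : ℕ} {X : Type*} [TopologicalSpace X] {ι : Type*} {A : Mfd n X ι}

private theorem Bmp_smooth_off [T2Space X] (A : Mfd n X ι) {v : X → ℝ} {K : Set X}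
    (hK : IsCompact K)
    (h0 : ∀ x ∉ K, v x = 0) (i : ι) (hKi : K ⊆ (A.c i).source)
    (hv : ContDiffOn ℝ ∞ (vt A v i) (A.c i).target) : Sm A v := by
  intro j z hz
  apply ContDiffAt.contDiffWithinAt
  by_cases hs : (A.c j).symm z ∈ (A.c i).source
  · have hzU : z ∈ Uo A j i := ⟨hz, hs⟩
    have h1 : vt A v j =ᶠ[𝓝 z] fun y => vt A v i (ph A j i y) := by
      filter_upwards [(isOpen_Uo A j i).mem_nhds hzU] with y hy
      unfold vt
      rw [symm_ph hy]
    refine ContDiffAt.congr_of_eventuallyEq ?_ h1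
    have h2 : ContDiffAt ℝ ∞ (vt A v i) (ph A j i z) :=
      hv.contDiffAt ((A.c i).open_target.mem_nhds (ph_mem hzU))
    exact h2.comp z (((contDiffOn_ph A j i).restrict_scalars ℝ).contDiffAt
      ((isOpen_Uo A j i).mem_nhds hzU))
  · have h1 : vt A v j =ᶠ[𝓝 z] fun _ => 0 := by
      have h2 : ContinuousAt (A.c j).symm z := (A.c j).continuousAt_symm hz
      have h3 : (A.c j).symm z ∈ Kᶜ := fun h => hs (hKi h)
      filter_upwards [h2 (hK.isClosed.isOpen_compl.mem_nhds h3)] with y hy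
      exact h0 _ hy
    exact contDiffAt_const.congr_of_eventuallyEq h1

private theorem Bmp_exists_bump [T2Space X] (A : Mfd n X ι) (x : X) :
    ∃ (φ : X → ℝ) (K' : Set (E n)), Sm A φ ∧ (∀ y, 0 ≤ φ y) ∧
    (∀ᶠ y in 𝓝 x, 0 < φ y) ∧ K' ⊆ (A.c (ix A x)).target ∧ IsCompact K' ∧
    (∀ y, φ y ≠ 0 → y ∈ (A.c (ix A x)).source ∧ A.c (ix A x) y ∈ K') := by
  have hs := mem_ix A x
  set i := ix A x with hi
  set z := A.c i x with hz
  have hzt : z ∈ (A.c i).target := (A.c i).map_source hs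
  obtain ⟨r, hr, hball⟩ := Metric.nhds_basis_closedBall.mem_iff.1
    ((A.c i).open_target.mem_nhds hzt)
  let f : ContDiffBump z := ⟨r / 2, r, by positivity, by linarith⟩
  classical
  set φ : X → ℝ := fun y => if y ∈ (A.c i).source then f (A.c i y) else 0 with hφ
  set K' : Set (E n) := Metric.closedBall z r with hK'
  set K : Set X := (A.c i).symm '' K' with hK
  have hKc : IsCompact K :=
    (isCompact_closedBall z r).image_of_continuousOn ((A.c i).continuousOn_symm.mono hball)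
  have hKs : K ⊆ (A.c i).source := by
    rintro y ⟨u, hu, rfl⟩
    exact (A.c i).map_target (hball hu)
  have hoff : ∀ y, φ y ≠ 0 → y ∈ (A.c i).source ∧ A.c i y ∈ K' := by
    intro y hy
    simp only [hφ] at hy
    split_ifs at hy with h
    · refine ⟨h, ?_⟩
      by_contra hlt
      apply hy
      apply f.zero_of_le_dist
      rw [hK', Metric.mem_closedBall] at hlt
      exact le_of_lt (not_le.1 hlt)
    · exact absurd rfl hy
  have h0 : ∀ y ∉ K, φ y = 0 := by
    intro y hy
    by_contra hne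
    obtain ⟨h1, h2⟩ := hoff y hne
    exact hy ⟨A.c i y, h2, (A.c i).left_inv h1⟩
  have hsm : ContDiffOn ℝ ∞ (vt A φ i) (A.c i).target := by
    refine (f.contDiff (n := ⊤)).contDiffOn.congr fun u hu => ?_
    unfold vt
    simp only [hφ]
    rw [if_pos ((A.c i).map_target hu), (A.c i).right_inv hu]
  have hnear : ∀ᶠ y in 𝓝 x, y ∈ (A.c i).source ∧ A.c i y ∈ Metric.ball z r := by
    filter_upwards [(A.c i).open_source.mem_nhds hs,
      ((A.c i).continuousAt hs) (Metric.ball_mem_nhds z hr)] with y h1 h2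
    exact ⟨h1, h2⟩
  refine ⟨φ, K', Bmp_smooth_off A hKc h0 i hKs hsm, ?_, ?_, hball, isCompact_closedBall z r,
    hoff⟩
  · intro y
    simp only [hφ]
    split_ifs
    · exact f.nonneg
    · exact le_rfl
  · filter_upwards [hnear] with y hy
    simp only [hφ]
    rw [if_pos hy.1]
    exact f.pos_of_mem_ball hy.2

theorem exists_pou [T2Space X] [CompactSpace X] (A : Mfd n X ι) : Nonempty (Pou A) := by
  classical
  choose φ K' h1 h2 h3 h4 h5 h6 using Bmp_exists_bump A
  obtain ⟨t, ht⟩ := CompactSpace.elim_nhds_subcover (fun x => {y | 0 < φ x y}) (fun x => h3 x)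
  obtain ⟨N, ⟨en⟩⟩ : ∃ N, Nonempty (Fin N ≃ t) := ⟨t.card, ⟨t.equivFin.symm⟩⟩
  set Φ : X → ℝ := fun x => ∑ a, φ (en a : X) x with hΦ
  have hpos : ∀ x, 0 < Φ x := by
    intro x
    have h7 : x ∈ ⋃ y ∈ t, {z | 0 < φ y z} := by rw [ht]; trivial
    simp only [Set.mem_iUnion, Set.mem_ofPred_eq] at h7
    obtain ⟨y, hy, hx⟩ := h7
    refine Finset.sum_pos' (fun a _ => h2 _ x) ⟨en.symm ⟨y, hy⟩, Finset.mem_univ _, ?_⟩
    simpa using hx
  have hsum : ∀ i, vt A Φ i = fun z => ∑ a, vt A (φ (en a : X)) i z := by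
    intro i
    rfl
  have hΦs : Sm A Φ := by
    intro i
    rw [hsum i]
    exact ContDiffOn.sum fun a _ => h1 _ i
  refine ⟨⟨N, fun a => ix A (en a : X), fun a x => φ (en a : X) x * (Φ x)⁻¹,
    fun a => K' (en a : X), ?_, ?_, ?_, fun a => h5 _, fun a => h4 _, ?_⟩⟩
  · intro a i
    have h8 : ContDiffOn ℝ ∞ (fun z => (vt A Φ i z)⁻¹) (A.c i).target :=
      (hΦs i).inv fun z _ => (hpos _).ne'
    exact (h1 _ i).mul h8
  · intro a x
    exact mul_nonneg (h2 _ x) (inv_nonneg.2 (hpos x).le)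
  · intro x
    rw [← Finset.sum_mul]
    exact mul_inv_cancel₀ (hpos x).ne'
  · intro a x hx
    exact h6 _ x (left_ne_zero_of_mul hx)

end Pool.Agent.NDC
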