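import Pool.Agent.NDC.Glo

/-!
NDC module Cmp: derivatives of `Φ(l)` for a function `Φ` of one real variable.
-/

open scoped ContDiff ComplexConjugate Topology ComplexOrder
open Complex MeasureTheory Matrix

namespace Pool.Agent.NDC

open Pool.Agent.CYF

variable {n : ℕ} {U : Set (E n)} {l : E n → ℝ} {Φ : ℝ → ℝ} {z : E n}

/-- real derivative of the composition -/
private theorem Cmp_fderiv (hU : IsOpen U) (hl : ContDiffOn ℝ ∞ l U) (hΦ : ContDiff ℝ ∞ Φ)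
    (hz : z ∈ U) (v : E n) :
    fderiv ℝ (cx (fun y => Φ (l y))) z v
      = ((deriv Φ (l z) : ℝ) : ℂ) * fderiv ℝ (cx l) z v := by
  have hl1 : DifferentiableAt ℝ l z := (hl.contDiffAt (hU.mem_nhds hz)).differentiableAt (by simp)
  have hΦ1 : DifferentiableAt ℝ Φ (l z) := hΦ.contDiffAt.differentiableAt (by simp)
  have h1 : HasFDerivAt (fun y => Φ (l y)) (deriv Φ (l z) • fderiv ℝ l z) z :=
    hΦ1.hasDerivAt.comp_hasFDerivAt z hl1.hasFDerivAt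
  have h2 : HasFDerivAt (cx (fun y => Φ (l y)))
      (Complex.ofRealCLM.comp (deriv Φ (l z) • fderiv ℝ l z)) z :=
    (Complex.ofRealCLM.hasFDerivAt).comp z h1
  have h3 : HasFDerivAt (cx l) (Complex.ofRealCLM.comp (fderiv ℝ l z)) z :=
    (Complex.ofRealCLM.hasFDerivAt).comp z hl1.hasFDerivAt
  rw [h2.fderiv, h3.fderiv]
  simp

theorem pk_comp (hU : IsOpen U) (hl : ContDiffOn ℝ ∞ l U) (hΦ : ContDiff ℝ ∞ Φ) (hz : z ∈ U)
    (k : Fin n) :
    pk k (cx (fun y => Φ (l y))) z = ((deriv Φ (l z) : ℝ) : ℂ) * pk k (cx l) z := by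
  unfold pk d10
  rw [Cmp_fderiv hU hl hΦ hz, Cmp_fderiv hU hl hΦ hz]
  ring

private theorem Cmp_pb (hU : IsOpen U) (hl : ContDiffOn ℝ ∞ l U) (hΦ : ContDiff ℝ ∞ Φ)
    (hz : z ∈ U) (k : Fin n) :
    pb k (cx (fun y => Φ (l y))) z = ((deriv Φ (l z) : ℝ) : ℂ) * pb k (cx l) z := by
  unfold pb d01
  rw [Cmp_fderiv hU hl hΦ hz, Cmp_fderiv hU hl hΦ hz]
  ring

theorem LM_comp (hU : IsOpen U) (hl : ContDiffOn ℝ ∞ l U) (hΦ : ContDiff ℝ ∞ Φ) (hz : z ∈ U)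
    (k j : Fin n) :
    LM (fun y => Φ (l y)) z k j
      = ((deriv (deriv Φ) (l z) : ℝ) : ℂ) * (pk k (cx l) z * conj (pk j (cx l) z))
        + ((deriv Φ (l z) : ℝ) : ℂ) * LM l z k j := by
  have hΦ' : ContDiff ℝ ∞ (deriv Φ) := by
    have h0 : ContDiffOn ℝ ∞ (deriv Φ) Set.univ :=
      hΦ.contDiffOn.deriv_of_isOpen isOpen_univ (by simp)
    exact contDiffOn_univ.1 h0
  have h1 : pb j (cx (fun y => Φ (l y))) =ᶠ[𝓝 z]
      fun y => cx (fun x => deriv Φ (l x)) y * pb j (cx l) y := by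
    filter_upwards [hU.mem_nhds hz] with y hy
    exact Cmp_pb hU hl hΦ hy j
  have hc : ContDiffOn ℝ ∞ (cx (fun x => deriv Φ (l x))) U :=
    contDiffOn_cx (hΦ'.comp_contDiffOn hl)
  have hcl := contDiffOn_cx hl
  have d1 := diffAt_of hU hc hz
  have d2 := diffAt_of hU (contDiffOn_pb hU hcl j) hz
  have h2 : pb j (cx l) z = conj (pk j (cx l) z) := by
    rw [pk_cx (diffAt_of hU hcl hz), Complex.conj_conj]
  have h4 : pk k (fun y => cx (fun x => deriv Φ (l x)) y * pb j (cx l) y) z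
      = pk k (cx (fun x => deriv Φ (l x))) z * pb j (cx l) z
        + cx (fun x => deriv Φ (l x)) z * pk k (pb j (cx l)) z := d10_mul d1 d2
  rw [LM_eq, pk_congr h1, h4, pk_comp hU hl hΦ' hz, LM_eq, h2]
  have h3 : cx (fun x => deriv Φ (l x)) z = ((deriv Φ (l z) : ℝ) : ℂ) := rfl
  rw [h3]
  ring

theorem d10_comp_real (hU : IsOpen U) (hl : ContDiffOn ℝ ∞ l U) (hΦ : ContDiff ℝ ∞ Φ)
    (hz : z ∈ U) (a : E n) :
    d10 (cx (fun y => Φ (l y))) z a = ((deriv Φ (l z) : ℝ) : ℂ) * d10 (cx l) z a := by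
  unfold d10
  rw [Cmp_fderiv hU hl hΦ hz, Cmp_fderiv hU hl hΦ hz]
  ring

theorem levi_comp (hU : IsOpen U) (hl : ContDiffOn ℝ ∞ l U) (hΦ : ContDiff ℝ ∞ Φ) (hz : z ∈ U)
    (a b : E n) :
    levi (fun y => Φ (l y)) z a b
      = ((deriv (deriv Φ) (l z) : ℝ) : ℂ) * (d10 (cx l) z a * conj (d10 (cx l) z b))
        + ((deriv Φ (l z) : ℝ) : ℂ) * levi l z a b := by
  have hlz : ContDiffAt ℝ ∞ l z := hl.contDiffAt (hU.mem_nhds hz)
  have hc : ContDiffAt ℝ ∞ (fun y => Φ (l y)) z := hΦ.contDiffAt.comp z hlz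
  rw [levi_eq_sum hc, levi_eq_sum hlz, d10_eq_sum, d10_eq_sum, map_sum, Finset.sum_mul_sum,
    Finset.mul_sum, Finset.mul_sum, ← Finset.sum_add_distrib]
  refine Finset.sum_congr rfl fun k _ => ?_
  rw [Finset.mul_sum, Finset.mul_sum, ← Finset.sum_add_distrib]
  refine Finset.sum_congr rfl fun j _ => ?_
  rw [LM_comp hU hl hΦ hz, map_mul]
  ring

end Pool.Agent.NDC
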