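import Pool.Agent.NDC.Gdf

/-!
NDC module Dpl (size 3): the polynomial `dp B M = det (X M + B)`.
PROOF. `dp_natDegree`: `Polynomial.natDegree_det_X_add_C_le` (`Fintype.card_fin`). `dp_eval`:
`Polynomial.coe_evalRingHom`, `RingHom.map_det`, entries. `dp_coeff_zero`:
`Polynomial.coeff_det_X_add_C_zero`. `dp_deriv` (Jacobi's formula): as in Pool/Agent/CYF/Jcb.lean
(`Dd_det`), with `Polynomial.derivative` in the place of `Dd u`: `Matrix.det_apply'`,
`Polynomial.derivative_prod` (or induction), then
`∑_i ∑_σ sign σ (G_{σ i,i})' ∏_{k≠i} G_{σ k,k} = ∑_i det (updateCol i (G_i)')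
 = tr (adj G · G')`; here `G = X M + B`, `G' = M.map C`; evaluate at `s` (`RingHom.map_adjugate`).
Other proof: `dp B M` composed with `X + C s` is `dp (B + s M) M`, so it is enough to see that the
coefficient of `X` in `det (X M + B)` is `tr (adj B · M)`; see `Matrix.det_one_add_smul`,
`Matrix.derivative_det_one_add_X_smul` in Mathlib for `B = 1`.
-/

open scoped ContDiff ComplexConjugate Topology ComplexOrder
open Complex MeasureTheory Matrix

namespace Pool.Agent.NDC

open Pool.Agent.CYF

variable {n : ℕ}

theorem dp_natDegree (B M : Matrix (Fin n) (Fin n) ℂ) : (dp B M).natDegree ≤ n := by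
  have h := Polynomial.natDegree_det_X_add_C_le M B
  rw [Fintype.card_fin] at h
  exact h

theorem dp_eval (B M : Matrix (Fin n) (Fin n) ℂ) (s : ℂ) :
    (dp B M).eval s = (s • M + B).det := by
  unfold dp
  rw [← Polynomial.coe_evalRingHom, RingHom.map_det]
  congr 1
  ext i j
  simp [Matrix.add_apply, Matrix.smul_apply, Matrix.map_apply, mul_comm s]

theorem dp_deriv (B M : Matrix (Fin n) (Fin n) ℂ) (s : ℂ) :
    (dp B M).derivative.eval s = ((s • M + B).adjugate * M).trace := by
  have hdet : (dp B M).derivative = ∑ σ : Equiv.Perm (Fin n), ∑ i : Fin n,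
      (((Equiv.Perm.sign σ : ℤ)) : Polynomial ℂ) * ((∏ j ∈ Finset.univ.erase i,
        ((Polynomial.X : Polynomial ℂ) • M.map Polynomial.C + B.map Polynomial.C) (σ j) j)
          * Polynomial.C (M (σ i) i)) := by
    unfold dp
    rw [Matrix.det_apply', Polynomial.derivative_sum]
    refine Finset.sum_congr rfl fun σ _ => ?_
    rw [Polynomial.derivative_intCast_mul, Polynomial.derivative_prod_finset, Finset.mul_sum]
    refine Finset.sum_congr rfl fun i _ => ?_
    congr 2
    simp [Matrix.add_apply, Matrix.smul_apply, Matrix.map_apply, mul_comm s]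
  have hent : ∀ a b : Fin n, Polynomial.eval s
      (((Polynomial.X : Polynomial ℂ) • M.map Polynomial.C + B.map Polynomial.C) a b)
      = (s • M + B) a b := fun a b => by
    simp [Matrix.add_apply, Matrix.smul_apply, Matrix.map_apply, mul_comm s]
  have hL : (dp B M).derivative.eval s = ∑ σ : Equiv.Perm (Fin n), ∑ i : Fin n,
      (((Equiv.Perm.sign σ : ℤ)) : ℂ) * (M (σ i) i * ∏ j ∈ Finset.univ.erase i,
        (s • M + B) (σ j) j) := by
    rw [hdet, Polynomial.eval_finsetSum]
    refine Finset.sum_congr rfl fun σ _ => ?_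
    rw [Polynomial.eval_finsetSum]
    refine Finset.sum_congr rfl fun i _ => ?_
    rw [Polynomial.eval_mul, Polynomial.eval_mul, Polynomial.eval_C, Polynomial.eval_prod,
      Polynomial.eval_intCast, mul_comm (∏ j ∈ Finset.univ.erase i, _) (M (σ i) i)]
    congr 2
    exact Finset.prod_congr rfl fun j _ => hent _ _
  have hR : ∀ i, ((s • M + B).adjugate * M) i i
      = ∑ σ : Equiv.Perm (Fin n), (((Equiv.Perm.sign σ : ℤ)) : ℂ)
          * (M (σ i) i * ∏ j ∈ Finset.univ.erase i, (s • M + B) (σ j) j) := by
    intro i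
    have h1 : ((s • M + B).adjugate * M) i i
        = ((s • M + B).adjugate *ᵥ fun k => M k i) i := by
      rw [Matrix.mul_apply]
      rfl
    rw [h1, ← Matrix.cramer_eq_adjugate_mulVec, Matrix.cramer_apply, Matrix.det_apply']
    refine Finset.sum_congr rfl fun σ _ => ?_
    congr 1
    rw [← Finset.mul_prod_erase Finset.univ _ (Finset.mem_univ i), Matrix.updateCol_self]
    congr 1
    refine Finset.prod_congr rfl fun j hj => ?_
    rw [Matrix.updateCol_ne (Finset.ne_of_mem_erase hj)]
  rw [hL, Finset.sum_comm, Matrix.trace]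
  refine Finset.sum_congr rfl fun i _ => ?_
  rw [Matrix.diag_apply, hR i]

end Pool.Agent.NDC
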