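import Pool.Agent.NDC.Itp

/-!
NDC module Apl (size 2): the adjugate of `A` is a combination of the adjugates of `A + t a • 1`.
PROOF. Fix `l k`. The polynomial `p = ((X • (1 : Matrix _ _ ℂ).map C + A.map C).adjugate) l k` has
value `(A + s • 1).adjugate l k` at `s` (`RingHom.map_adjugate` for `Polynomial.evalRingHom s`) and
degree `≤ n`: `Matrix.adjugate_apply`: it is the determinant of the matrix with the row `k` replaced by
`Pi.single l 1`, which is `X • (updateRow 1 k 0).map C + (updateRow A k (Pi.single l 1)).map C`;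
`Polynomial.natDegree_det_X_add_C_le`. Apply `itp` (module Itp) to `L = Polynomial.lcoeff ℂ 0` (the
coefficients `c` do not depend on `A`, `l`, `k`): `p.coeff 0 = p.eval 0` (`Polynomial.coeff_zero_eq_eval_zero`).
-/

open scoped ContDiff ComplexConjugate Topology ComplexOrder
open Complex MeasureTheory Matrix

namespace Pool.Agent.NDC

open Pool.Agent.CYF

private theorem Apl_eval {n : ℕ} (A : Matrix (Fin n) (Fin n) ℂ) (l k : Fin n) (s : ℂ) :
    ((Polynomial.X : Polynomial ℂ) • (((1 : Matrix (Fin n) (Fin n) ℂ).updateRow k 0).map Polynomial.C) +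
      (A.updateRow k (Pi.single l 1)).map Polynomial.C).det.eval s =
      (A + s • (1 : Matrix (Fin n) (Fin n) ℂ)).adjugate l k := by
  rw [Matrix.adjugate_apply, ← Polynomial.coe_evalRingHom, RingHom.map_det]
  congr 1
  ext i j
  by_cases hi : i = k
  · subst hi
    simp [Matrix.updateRow_self]
  · simp only [RingHom.mapMatrix_apply, Matrix.map_apply, Matrix.add_apply, Matrix.smul_apply, Matrix.updateRow_ne hi, Polynomial.coe_evalRingHom, smul_eq_mul, Polynomial.eval_add, Polynomial.eval_mul, Polynomial.eval_X, Polynomial.eval_C]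
    ring

theorem adj_itp {n : ℕ} {t : Fin (n + 1) → ℂ} (ht : Function.Injective t) :
    ∃ c : Fin (n + 1) → ℂ, ∀ (A : Matrix (Fin n) (Fin n) ℂ) (l k : Fin n),
      A.adjugate l k = ∑ a, c a * (A + t a • (1 : Matrix (Fin n) (Fin n) ℂ)).adjugate l k := by
  obtain ⟨c, hc⟩ := itp ht (Polynomial.lcoeff ℂ 0)
  refine ⟨c, fun A l k => ?_⟩
  have hdeg := Polynomial.natDegree_det_X_add_C_le ((1 : Matrix (Fin n) (Fin n) ℂ).updateRow k 0)
    (A.updateRow k (Pi.single l 1))
  rw [Fintype.card_fin] at hdeg
  have h := hc _ hdeg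
  rw [Polynomial.lcoeff_apply, Polynomial.coeff_zero_eq_eval_zero, Apl_eval A l k 0, zero_smul,
    add_zero] at h
  rw [h]
  exact Finset.sum_congr rfl fun a _ => by rw [Apl_eval A l k (t a)]

end Pool.Agent.NDC
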