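import Pool.Agent.NDC.Gdf

/-!
NDC module Avd (size 1): `det (A + t • 1) ≠ 0` for `n + 1` distinct real numbers `t`.
PROOF. The set of `t : ℝ` with `det (A + (t : ℂ) • 1) = 0` is finite: `-t` is a root of the
characteristic polynomial `A.charpoly ≠ 0` (`Matrix.charpoly_monic`, `Matrix.eval_charpoly` or
`Matrix.eval_det`: `A.charpoly.eval μ = (scalar μ - A).det`), finitely many roots
(`Polynomial.rootSet_finite` or `Polynomial.finite_setOfPred_isRoot`), preimage under an injective map. The complement in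
`ℝ` is infinite (`Set.Finite.infinite_compl`), it contains the range of an injective
`ℕ → ℝ` (`Set.Infinite.natEmbedding`), restrict to `Fin (n + 1)`.
-/

open scoped ContDiff ComplexConjugate Topology ComplexOrder
open Complex MeasureTheory Matrix

namespace Pool.Agent.NDC

open Pool.Agent.CYF

theorem avoid {n : ℕ} (A : Matrix (Fin n) (Fin n) ℂ) :
    ∃ t : Fin (n + 1) → ℝ, Function.Injective (fun a => ((t a : ℝ) : ℂ)) ∧
      ∀ a, (A + ((t a : ℝ) : ℂ) • (1 : Matrix (Fin n) (Fin n) ℂ)).det ≠ 0 := by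
  have hne : A.charpoly ≠ 0 := (Matrix.charpoly_monic A).ne_zero
  have hfin : Set.Finite {z : ℂ | A.charpoly.IsRoot z} := Polynomial.finite_setOfPred_isRoot hne
  have hinj : Function.Injective (fun t : ℝ => -((t : ℝ) : ℂ)) := by
    intro a b h
    have h1 : ((a : ℝ) : ℂ) = ((b : ℝ) : ℂ) := neg_injective h
    exact_mod_cast h1
  have hfin2 : Set.Finite {t : ℝ | (A + ((t : ℝ) : ℂ) • (1 : Matrix (Fin n) (Fin n) ℂ)).det = 0} := by
    refine (hfin.preimage (f := fun t : ℝ => -((t : ℝ) : ℂ)) hinj.injOn).subset ?_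
    intro t ht
    have ht' : (A + ((t : ℝ) : ℂ) • (1 : Matrix (Fin n) (Fin n) ℂ)).det = 0 := ht
    show A.charpoly.IsRoot (-((t : ℝ) : ℂ))
    rw [Polynomial.IsRoot.def, Matrix.eval_charpoly]
    have h1 : Matrix.scalar (Fin n) (-((t : ℝ) : ℂ)) - A =
        -(A + ((t : ℝ) : ℂ) • (1 : Matrix (Fin n) (Fin n) ℂ)) := by
      ext i j
      simp only [Matrix.scalar_apply, Matrix.sub_apply, Matrix.neg_apply, Matrix.add_apply,
        Matrix.smul_apply, Matrix.diagonal_apply, Matrix.one_apply, smul_eq_mul]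
      split_ifs <;> ring
    rw [h1, Matrix.det_neg, ht', mul_zero]
  have hinf : Set.Infinite {t : ℝ | (A + ((t : ℝ) : ℂ) • (1 : Matrix (Fin n) (Fin n) ℂ)).det = 0}ᶜ :=
    hfin2.infinite_compl
  refine ⟨fun a => (hinf.natEmbedding _ (a : ℕ)).1, ?_, fun a => (hinf.natEmbedding _ (a : ℕ)).2⟩
  intro a b h
  have h1 : (hinf.natEmbedding _ (a : ℕ)).1 = (hinf.natEmbedding _ (b : ℕ)).1 :=
    Complex.ofReal_injective h
  exact Fin.ext ((hinf.natEmbedding _).injective (Subtype.ext h1))

end Pool.Agent.NDC
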