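import Pool.Agent.NDC.Blm

/-!
NDC module Bfm (size 3): the form `η + i∂∂̄ b` where `b` is not zero.
PROOF. Let `v = ub Y ψ u c`, `t = vt A (tb ψ v c ε) i`. Since `0 < t z` and `|ε v| ≤ 1/2`,
`ψ ((A.c i).symm z) > c - 1/2`, so by continuity `ψ ((A.c i).symm y) > c - 1` for `y` near `z`
(`vt A ψ i` is continuous on the open set `Ou A Y i`) and there `v = u` (`cot_one`, `if_pos`):
`vt A v i =ᶠ[𝓝 z] vt A u i`, so `LM (vt A v i) z = LM (vt A u i) z` (`LM_congr`) and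
`pk k (cx t) z = pk k (cx (vt A ψ i)) z + ε * pk k (cx (vt A u i)) z` (`pk_congr`, `d10_add`, `d10_const_mul`,
`d10_const`). Insert in `lm_bb` (module Blm): `α = 1 - m * (δ * deriv cut (t z))`, `β = δ * deriv cut (t z) * ε`,
`γ = δ * deriv (deriv cut) (t z)`; `α > 0` since `δ * |m| ≤ 1/2` and `0 ≤ deriv cut ≤ 1` (module Ctf).
-/

open scoped ContDiff ComplexConjugate Topology ComplexOrder
open Complex MeasureTheory Matrix

namespace Pool.Agent.NDC

open Pool.Agent.CYF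

variable {n : ℕ} {X : Type*} [TopologicalSpace X] {ι : Type*} {A : Mfd n X ι}
  {η : Form A} {m : ℝ} {Y : Set X} {ψ u : X → ℝ} {c ε δ : ℝ}

private theorem Bfm_ub {hY : IsOpen Y} (hs : SmOn A Y ψ) {i : ι} {z : E n} (hz : z ∈ Ou A Y i)
    (h : c - 1 < ψ ((A.c i).symm z)) :
    vt A (ub Y ψ u c) i =ᶠ[𝓝 z] vt A u i := by
  have hO := isOpen_Ou A hY i
  have hc : ContinuousAt (vt A ψ i) z := ((hs i).continuousOn).continuousAt (hO.mem_nhds hz)
  have h1 : ∀ᶠ y in 𝓝 z, c - 1 < vt A ψ i y := hc.eventually (lt_mem_nhds h)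
  filter_upwards [h1, hO.mem_nhds hz] with y hy hyO
  have h2 : (A.c i).symm y ∈ Y := hyO.2
  have h3 : c - 1 ≤ ψ ((A.c i).symm y) := le_of_lt hy
  unfold vt ub ez
  rw [if_pos h2]
  show cot c (ψ ((A.c i).symm y)) * u ((A.c i).symm y) = u ((A.c i).symm y)
  rw [cot_one h3, one_mul]

theorem bb_form (hE : Exh η m Y ψ) (hu : SmOn A Y u) (hε : 0 < ε)
    (hv : ∀ x, |ε * ub Y ψ u c x| ≤ 1 / 2) (hδ : 0 < δ) (hδm : δ * |m| ≤ 1 / 2) {i : ι} {z : E n}
    (hz : z ∈ Ou A Y i) (ht : 0 < vt A (tb ψ (ub Y ψ u c) c ε) i z) :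
    ∃ α β γ : ℝ, 0 < α ∧ 0 < β ∧ 0 < γ ∧ ∀ k l,
      (lm (η.w i) z + lm (vt A (bb Y ψ (ub Y ψ u c) c ε δ) i) z) k l
        = (α : ℂ) * LM (η.w i) z k l + (β : ℂ) * LM (vt A u i) z k l
          + (γ : ℂ) * ((pk k (cx (vt A ψ i)) z + (ε : ℂ) * pk k (cx (vt A u i)) z)
            * conj (pk l (cx (vt A ψ i)) z + (ε : ℂ) * pk l (cx (vt A u i)) z)) := by
  have hY := hE.isOpen
  have hO := isOpen_Ou A hY i
  have hv2 := hv ((A.c i).symm z)
  have ht2 : 0 < ψ ((A.c i).symm z) + ε * ub Y ψ u c ((A.c i).symm z) - c := ht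
  have hψ : c - 1 < ψ ((A.c i).symm z) := by
    have h1 := (abs_le.1 hv2).2
    linarith
  have hev : vt A (ub Y ψ u c) i =ᶠ[𝓝 z] vt A u i := Bfm_ub (hY := hY) hE.smooth hz hψ
  have hdψ : DifferentiableAt ℝ (cx (vt A ψ i)) z :=
    ((contDiffOn_cx (hE.smooth i)).contDiffAt (hO.mem_nhds hz)).differentiableAt (by simp)
  have hdu : DifferentiableAt ℝ (cx (vt A u i)) z :=
    ((contDiffOn_cx (hu i)).contDiffAt (hO.mem_nhds hz)).differentiableAt (by simp)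
  have hpk : ∀ k, pk k (cx (vt A (tb ψ (ub Y ψ u c) c ε) i)) z
      = pk k (cx (vt A ψ i)) z + (ε : ℂ) * pk k (cx (vt A u i)) z := by
    intro k
    have h1 : cx (vt A (tb ψ (ub Y ψ u c) c ε) i) =ᶠ[𝓝 z]
        fun y => cx (vt A ψ i) y + ((ε : ℂ) * cx (vt A u i) y + ((-c : ℝ) : ℂ)) := by
      filter_upwards [hev] with y hy
      have h2 : ub Y ψ u c ((A.c i).symm y) = u ((A.c i).symm y) := hy
      show ((ψ ((A.c i).symm y) + ε * ub Y ψ u c ((A.c i).symm y) - c : ℝ) : ℂ) =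
        ((ψ ((A.c i).symm y) : ℝ) : ℂ) + ((ε : ℂ) * ((u ((A.c i).symm y) : ℝ) : ℂ) + ((-c : ℝ) : ℂ))
      rw [h2]
      push_cast
      ring
    rw [pk_congr h1]
    unfold pk
    have hg : DifferentiableAt ℝ (fun y => (ε : ℂ) * cx (vt A u i) y) z :=
      (differentiableAt_const _).mul hdu
    rw [d10_add (g := fun y => (ε : ℂ) * cx (vt A u i) y + ((-c : ℝ) : ℂ)) hdψ
      (hg.add (differentiableAt_const _)),
      d10_add (f := fun y => (ε : ℂ) * cx (vt A u i) y) (g := fun _ => ((-c : ℝ) : ℂ)) hg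
      (differentiableAt_const _), d10_const, d10_const_mul hdu, add_zero]
  refine ⟨1 - m * (δ * deriv cut (vt A (tb ψ (ub Y ψ u c) c ε) i z)),
    δ * deriv cut (vt A (tb ψ (ub Y ψ u c) c ε) i z) * ε,
    δ * deriv (deriv cut) (vt A (tb ψ (ub Y ψ u c) c ε) i z), ?_, ?_, ?_, ?_⟩
  · have h1 := deriv_cut_pos ht
    have h2 := deriv_cut_le (vt A (tb ψ (ub Y ψ u c) c ε) i z)
    have h3 : m * (δ * deriv cut (vt A (tb ψ (ub Y ψ u c) c ε) i z)) ≤ 1 / 2 := by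
      have h4 : m * (δ * deriv cut (vt A (tb ψ (ub Y ψ u c) c ε) i z))
          = (δ * m) * deriv cut (vt A (tb ψ (ub Y ψ u c) c ε) i z) := by ring
      rw [h4]
      have h5 : δ * m ≤ 1 / 2 := le_trans (mul_le_mul_of_nonneg_left (le_abs_self m) hδ.le) hδm
      have h6 : (δ * m) * deriv cut (vt A (tb ψ (ub Y ψ u c) c ε) i z)
          ≤ (1 / 2) * deriv cut (vt A (tb ψ (ub Y ψ u c) c ε) i z) :=
        mul_le_mul_of_nonneg_right h5 h1.le
      linarith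
    linarith
  · exact mul_pos (mul_pos hδ (deriv_cut_pos ht)) hε
  · exact mul_pos hδ (deriv2_cut_pos ht)
  · intro k l
    rw [Matrix.add_apply]
    have h1 := lm_bb (δ := δ) hE (Sm_ub hE hu c) hz k l (ε := ε) (c := c)
    rw [h1, hpk, hpk, LM_congr hev, lm_apply]
    push_cast
    ring

end Pool.Agent.NDC
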