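import Pool.Agent.NDC.Gdf

/-!
NDC module Ctf (size 3): the cut-off functions `cut x = x * expNegInvGlue x` and
`cot c x = Real.smoothTransition (x - c + 2)`.
PROOF. See Pool/Agent/NDC/ref/CIS_Cut.lean (`cut c x` there is `cut (x - c)` here). For `x > 0`:
`cut` coincides near `x` with `x * exp (-x⁻¹)`, `deriv cut x = exp (-x⁻¹) * (1 + x⁻¹)`, which is positive
and `≤ 1` (`1 + y ≤ exp y`: `Real.add_one_le_exp`), `deriv (deriv cut) x = exp (-x⁻¹) * (x⁻¹)^3 > 0`. For
`x < 0`, `cut` vanishes near `x`, so both derivatives are `0`; at `0` both are `0` too, by continuity of the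
derivatives (`contDiff_infty_iff_deriv`) and `Set.Iio 0` accumulates at `0` (`ge_of_tendsto`, `le_of_tendsto` or
`tendsto_nhds_unique`).
-/

open scoped ContDiff ComplexConjugate Topology ComplexOrder
open Complex MeasureTheory Matrix

namespace Pool.Agent.NDC

open Pool.Agent.CYF

private theorem Ctf_hda {y : ℝ} (h : 0 < y) :
    HasDerivAt cut (Real.exp (-y⁻¹) * (1 + y⁻¹)) y := by
  have hy : y ≠ 0 := h.ne'
  have h2 : HasDerivAt (fun t : ℝ => t⁻¹) (-1 / y ^ 2) y := (hasDerivAt_id y).inv hy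
  have h3 : HasDerivAt (fun t : ℝ => Real.exp (-t⁻¹)) (Real.exp (-y⁻¹) * -(-1 / y ^ 2)) y :=
    h2.neg.exp
  have h5 : HasDerivAt (fun t : ℝ => t * Real.exp (-t⁻¹)) (Real.exp (-y⁻¹) * (1 + y⁻¹)) y := by
    refine ((hasDerivAt_id y).mul h3).congr_deriv ?_
    simp only [id]
    field_simp
  refine h5.congr_of_eventuallyEq ?_
  filter_upwards [lt_mem_nhds h] with t ht
  unfold cut expNegInvGlue
  rw [if_neg (not_le.2 ht)]

theorem contDiff_cut : ContDiff ℝ ∞ cut := by
  have h : ContDiff ℝ ∞ fun x : ℝ => x * expNegInvGlue x :=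
    contDiff_id.mul (expNegInvGlue.contDiff (n := ⊤))
  exact h

theorem cut_zero {x : ℝ} (h : x ≤ 0) : cut x = 0 := by
  unfold cut
  rw [expNegInvGlue.zero_of_nonpos h, mul_zero]

private theorem Ctf_zero {f : ℝ → ℝ} (hf : Continuous (deriv f)) (h0 : ∀ x < 0, f x = 0) {x : ℝ}
    (h : x ≤ 0) : deriv f x = 0 := by
  have hlt : ∀ y : ℝ, y < 0 → deriv f y = 0 := by
    intro y hy
    have h2 : f =ᶠ[𝓝 y] fun _ => (0 : ℝ) := by
      filter_upwards [gt_mem_nhds hy] with r hr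
      exact h0 r hr
    rw [h2.deriv_eq, deriv_const]
  rcases h.lt_or_eq with h | h
  · exact hlt x h
  · subst h
    refine tendsto_nhds_unique (hf.continuousAt.tendsto.mono_left
      (nhdsWithin_le_nhds (s := Set.Iio (0 : ℝ)))) ?_
    refine tendsto_const_nhds.congr' ?_
    filter_upwards [self_mem_nhdsWithin] with t ht
    exact (hlt t ht).symm

theorem deriv_cut_zero {x : ℝ} (h : x ≤ 0) : deriv cut x = 0 :=
  Ctf_zero (contDiff_infty_iff_deriv.1 contDiff_cut).2.continuous (fun _ hy => cut_zero hy.le) h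

theorem deriv2_cut_zero {x : ℝ} (h : x ≤ 0) : deriv (deriv cut) x = 0 :=
  Ctf_zero (contDiff_infty_iff_deriv.1 (contDiff_infty_iff_deriv.1 contDiff_cut).2).2.continuous
    (fun _ hy => deriv_cut_zero hy.le) h

theorem deriv_cut_pos {x : ℝ} (h : 0 < x) : 0 < deriv cut x := by
  rw [(Ctf_hda h).deriv]
  positivity

theorem deriv2_cut_pos {x : ℝ} (h : 0 < x) : 0 < deriv (deriv cut) x := by
  have hy : x ≠ 0 := h.ne'
  have h0 : deriv cut =ᶠ[𝓝 x] fun t => Real.exp (-t⁻¹) * (1 + t⁻¹) := by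
    filter_upwards [lt_mem_nhds h] with t ht
    exact (Ctf_hda ht).deriv
  have h2 : HasDerivAt (fun t : ℝ => t⁻¹) (-1 / x ^ 2) x := (hasDerivAt_id x).inv hy
  have h3 : HasDerivAt (fun t : ℝ => Real.exp (-t⁻¹)) (Real.exp (-x⁻¹) * -(-1 / x ^ 2)) x :=
    h2.neg.exp
  have h4 : HasDerivAt (fun t : ℝ => Real.exp (-t⁻¹) * (1 + t⁻¹))
      (Real.exp (-x⁻¹) * (x⁻¹) ^ 3) x := by
    refine (h3.mul (h2.const_add 1)).congr_deriv ?_
    field_simp
    ring
  rw [h0.deriv_eq, h4.deriv]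
  positivity

theorem deriv_cut_le (x : ℝ) : deriv cut x ≤ 1 := by
  rcases le_or_gt x 0 with h | h
  · rw [deriv_cut_zero h]
    exact zero_le_one
  · rw [(Ctf_hda h).deriv]
    have h1 : 1 + x⁻¹ ≤ Real.exp x⁻¹ := by
      have h2 := Real.add_one_le_exp x⁻¹
      linarith
    calc Real.exp (-x⁻¹) * (1 + x⁻¹) ≤ Real.exp (-x⁻¹) * Real.exp x⁻¹ :=
          mul_le_mul_of_nonneg_left h1 (Real.exp_pos _).le
      _ = 1 := by rw [← Real.exp_add, neg_add_cancel, Real.exp_zero]

theorem contDiff_cot (c : ℝ) : ContDiff ℝ ∞ (cot c) := by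
  have h : ContDiff ℝ ∞ fun x : ℝ => Real.smoothTransition (x - c + 2) :=
    (Real.smoothTransition.contDiff (n := ⊤)).comp
      ((contDiff_id.sub contDiff_const).add contDiff_const)
  exact h

theorem cot_zero {c x : ℝ} (h : x ≤ c - 2) : cot c x = 0 := by
  unfold cot
  exact Real.smoothTransition.zero_of_nonpos (by linarith)

theorem cot_one {c x : ℝ} (h : c - 1 ≤ x) : cot c x = 1 := by
  unfold cot
  exact Real.smoothTransition.one_of_one_le (by linarith)

end Pool.Agent.NDC
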