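import Pool.Agent.NDC.Ext
import Pool.Agent.NDC.Ctf
import Pool.Agent.NDC.Cmp

/-!
NDC module Blm (size 4): the function `bb` is smooth; its Levi matrix.
PROOF. `Sm_ub`: `Sm_ez` with the constant `c - 2`: `cot c (ψ x) = 0` if `ψ x < c - 2` (`cot_zero`); smooth on `Y`:
`(contDiff_cot c).comp_contDiffOn (hE.smooth i)` times `hu i`. `Sm_bb`: `Sm_ez` with the constant `c - 1`: if
`ψ x < c - 1` then `tb ψ v c ε x = ψ x + ε * v x - c < 0` (`hv`), `cut_zero`; smooth on `Y`: `contDiff_cut` composed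
with `vt A (tb ..) i = vt A ψ i + ε * vt A v i - c` (rfl) on `Ou A Y i`. `lm_bb`: by `ez_chart` and `LM_congr`
the function can be replaced by `fun y => δ * cut (t y)`, `t = vt A (tb ψ v c ε) i`, on the open set `Ou A Y i`;
`LM_const_mul`, `LM_comp` (module Cmp) for `Φ = cut`; `LM t = LM (vt A ψ i) + ε LM (vt A v i)`: `LM_add`,
`LM_const_mul` (for `- c`: the Levi matrix of a constant is zero, `LM_const` as in CYF/Cut.lean, or
`t y = (vt A ψ i y + ε * vt A v i y) + (-c)`), `hE.levi_eq`.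
`bb_off`: if `(A.c i).symm z ∉ Y`, or `ψ < c - 1` there: `ez_near` with the constant `c - 1` and `LM_congr`, the Levi matrix
of `0` is zero. If `z ∈ Ou A Y i` and `t z ≤ 0`: `lm_bb` and `deriv_cut_zero`, `deriv2_cut_zero` (module Ctf).
-/

open scoped ContDiff ComplexConjugate Topology ComplexOrder
open Complex MeasureTheory Matrix

namespace Pool.Agent.NDC

open Pool.Agent.CYF

variable {n : ℕ} {X : Type*} [TopologicalSpace X] {ι : Type*} {A : Mfd n X ι}
  {η : Form A} {m : ℝ} {Y : Set X} {ψ u v : X → ℝ} {c ε δ : ℝ}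

private theorem Blm_lm_const (r : ℝ) (z : E n) (k l : Fin n) : LM (fun _ => r) z k l = 0 := by
  rw [LM_eq]
  have h3 : pb l (cx (fun _ : E n => r)) = fun _ => 0 := by
    funext y
    exact d01_const (r : ℂ)
  rw [h3]
  exact d10_const 0

private theorem Blm_tb_smooth (hE : Exh η m Y ψ) (hv : Sm A v) (i : ι) :
    ContDiffOn ℝ ∞ (vt A (tb ψ v c ε) i) (Ou A Y i) := by
  have h1 : ContDiffOn ℝ ∞ (fun z => vt A ψ i z + ε * vt A v i z - c) (Ou A Y i) :=
    ((hE.smooth i).add (contDiffOn_const.mul ((hv i).mono (Ou_subset i)))).sub contDiffOn_const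
  exact h1

private theorem Blm_low (hv' : ∀ x, |ε * v x| ≤ 1 / 2) (x : X) (h : ψ x < c - 1) :
    δ * cut (tb ψ v c ε x) = 0 := by
  have h1 : tb ψ v c ε x ≤ 0 := by
    have h2 := (abs_le.1 (hv' x)).2
    unfold tb
    linarith
  rw [cut_zero h1, mul_zero]

theorem Sm_ub (hE : Exh η m Y ψ) (hu : SmOn A Y u) (c : ℝ) : Sm A (ub Y ψ u c) := by
  refine Sm_ez hE (h := fun x => cot c (ψ x) * u x) (c := c - 2) ?_ ?_
  · intro i
    exact ((contDiff_cot c).comp_contDiffOn (hE.smooth i)).mul (hu i)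
  · intro x _ hx
    show cot c (ψ x) * u x = 0
    rw [cot_zero hx.le, zero_mul]

theorem Sm_bb (hE : Exh η m Y ψ) (hv : Sm A v) (hv' : ∀ x, |ε * v x| ≤ 1 / 2) :
    Sm A (bb Y ψ v c ε δ) := by
  refine Sm_ez hE (h := fun x => δ * cut (tb ψ v c ε x)) (c := c - 1) ?_ ?_
  · intro i
    exact contDiffOn_const.mul (contDiff_cut.comp_contDiffOn (Blm_tb_smooth hE hv i))
  · intro x _ hx
    exact Blm_low hv' x hx

theorem lm_bb (hE : Exh η m Y ψ) (hv : Sm A v) {i : ι} {z : E n} (hz : z ∈ Ou A Y i)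
    (k l : Fin n) :
    lm (vt A (bb Y ψ v c ε δ) i) z k l
      = ((δ * deriv (deriv cut) (vt A (tb ψ v c ε) i z) : ℝ) : ℂ)
          * (pk k (cx (vt A (tb ψ v c ε) i)) z * conj (pk l (cx (vt A (tb ψ v c ε) i)) z))
        + ((δ * deriv cut (vt A (tb ψ v c ε) i z) : ℝ) : ℂ)
          * (((-m : ℝ) : ℂ) * LM (η.w i) z k l + (ε : ℂ) * LM (vt A v i) z k l) := by
  have hO : IsOpen (Ou A Y i) := isOpen_Ou A hE.isOpen i
  have ht : ContDiffOn ℝ ∞ (vt A (tb ψ v c ε) i) (Ou A Y i) := Blm_tb_smooth hE hv i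
  have hvO : ContDiffOn ℝ ∞ (vt A v i) (Ou A Y i) := (hv i).mono (Ou_subset i)
  have h1 : LM (vt A (bb Y ψ v c ε δ) i) z k l
      = LM (fun y => δ * cut (vt A (tb ψ v c ε) i y)) z k l :=
    LM_congr (ez_chart hE.isOpen (fun x => δ * cut (tb ψ v c ε x)) hz) k l
  have hcut : ContDiffOn ℝ ∞ (fun y => cut (vt A (tb ψ v c ε) i y)) (Ou A Y i) :=
    contDiff_cut.comp_contDiffOn ht
  have h2 : LM (vt A (tb ψ v c ε) i) z k l
      = ((-m : ℝ) : ℂ) * LM (η.w i) z k l + (ε : ℂ) * LM (vt A v i) z k l := by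
    have h3 : vt A (tb ψ v c ε) i = fun y => (vt A ψ i y + ε * vt A v i y) + (-c) := by
      funext y
      show ψ ((A.c i).symm y) + ε * v ((A.c i).symm y) - c
        = (ψ ((A.c i).symm y) + ε * v ((A.c i).symm y)) + (-c)
      ring
    rw [h3, LM_add hO ((hE.smooth i).add (contDiffOn_const.mul hvO)) contDiffOn_const hz,
      LM_add hO (hE.smooth i) (contDiffOn_const.mul hvO) hz, LM_const_mul hO hvO hz,
      Blm_lm_const, hE.levi_eq i z hz, add_zero]
  rw [lm_apply, h1, LM_const_mul hO hcut hz, LM_comp hO ht contDiff_cut hz, h2]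
  push_cast
  ring

theorem bb_off (hE : Exh η m Y ψ) (hv : Sm A v) (hv' : ∀ x, |ε * v x| ≤ 1 / 2) {i : ι} {z : E n}
    (hz : z ∈ (A.c i).target)
    (h : ¬ (z ∈ Ou A Y i ∧ 0 < vt A (tb ψ v c ε) i z)) :
    lm (vt A (bb Y ψ v c ε δ) i) z = 0 := by
  by_cases hY : z ∈ Ou A Y i
  · have ht : vt A (tb ψ v c ε) i z ≤ 0 := by
      by_contra h1
      exact h ⟨hY, not_le.1 h1⟩
    ext k l
    rw [lm_bb hE hv hY, deriv_cut_zero ht, deriv2_cut_zero ht]
    simp
  · have hn : ¬ ((A.c i).symm z ∈ Y ∧ c - 1 ≤ ψ ((A.c i).symm z)) := fun h1 => hY ⟨hz, h1.1⟩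
    have h1 : vt A (bb Y ψ v c ε δ) i =ᶠ[𝓝 z] fun _ => 0 :=
      ez_near hE (h := fun x => δ * cut (tb ψ v c ε x)) (c := c - 1)
        (fun x _ hx => Blm_low hv' x hx) hz hn
    ext k l
    rw [lm_apply, LM_congr h1, Blm_lm_const]
    rfl

end Pool.Agent.NDC
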