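import Pool.Agent.NDC.Bfm
import Pool.Agent.NDC.Psd
import Pool.Agent.NDC.Krk

/-!
NDC module Bps (size 3): `η + i∂∂̄ b` is semipositive, and its kernel where `b` is not zero.
PROOF. `bb_psd`: if `¬ (z ∈ Ou A Y i ∧ 0 < t z)`: `bb_off` (module Blm; `Sm_ub`), `lm_psd` (module Psd) for `η`. Otherwise
`bb_form` (module Bfm): the matrix is `α • lm (η.w i) z + β • lm (vt A u i) z + γ • vecMulVec q (star q)` with
`q k = pk k (cx (vt A ψ i)) z + ε * pk k (cx (vt A u i)) z`; all three are positive semidefinite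
(`lm_psd` on `(A.c i).target` and on `Ou A Y i`, `Matrix.posSemidef_vecMulVec_self_star`, `PosSemidef.add`,
`PosSemidef.smul`).
`bb_ker`: multiply `ha l` by `conj (a l)` and sum over `l`: with `bb_form` and `levi_eq_sum`,
`α * levi (η.w i) z a a + β * levi (vt A u i) z a a + γ * ‖∑ k, a k * q k‖ ^ 2 = 0`; the real parts are `≥ 0`, so all
vanish. `∑ k, a k * q k = d10 (cx (vt A ψ i)) z a + ε * d10 (cx (vt A u i)) z a` (`d10_eq_sum`). By `psd_ker` (module
Krk, `lm_psd`), `∑ k, a k * LM .. k l = 0` for all `l`, so `levi .. z a b = 0` for all `b` (`levi_eq_sum`).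
`levi_ker`: `psd_ker`, `levi_eq_sum`.
-/

open scoped ContDiff ComplexConjugate Topology ComplexOrder
open Complex MeasureTheory Matrix

namespace Pool.Agent.NDC

open Pool.Agent.CYF

variable {n : ℕ} {X : Type*} [TopologicalSpace X] {ι : Type*} {A : Mfd n X ι}
  {η : Form A} {m : ℝ} {Y : Set X} {ψ u : X → ℝ} {c ε δ : ℝ}

private theorem Bps_sum {w : E n → ℝ} {z : E n} (hc : ContDiffAt ℝ ∞ w z) {a : E n}
    (h : ∀ l, ∑ k, a k * lm w z k l = 0) (b : E n) : levi w z a b = 0 := by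
  rw [levi_eq_sum hc, Finset.sum_comm]
  refine Finset.sum_eq_zero fun l _ => ?_
  calc ∑ k, a k * conj (b l) * LM w z k l = conj (b l) * ∑ k, a k * lm w z k l := by
        rw [Finset.mul_sum]
        refine Finset.sum_congr rfl fun k _ => ?_
        rw [lm_apply]
        ring
    _ = 0 := by rw [h l, mul_zero]

theorem levi_ker {w : E n → ℝ} {U : Set (E n)} (hU : IsOpen U) (hw : ContDiffOn ℝ ∞ w U)
    {z : E n} (hz : z ∈ U) (h : ∀ a : E n, 0 ≤ (levi w z a a).re) {a : E n}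
    (h0 : (levi w z a a).re = 0) (b : E n) : levi w z a b = 0 := by
  have hc := hw.contDiffAt (hU.mem_nhds hz)
  have h1 := lm_psd hU hw hz h
  refine Bps_sum hc ?_ b
  rw [← psd_ker h1 a]
  rw [levi_eq_sum hc] at h0
  exact h0

theorem bb_psd (hη : η.Semipositive) (hE : Exh η m Y ψ) (hu : PshOn A Y u) (hε : 0 < ε)
    (hv : ∀ x, |ε * ub Y ψ u c x| ≤ 1 / 2) (hδ : 0 < δ) (hδm : δ * |m| ≤ 1 / 2) (i : ι) (z : E n)
    (hz : z ∈ (A.c i).target) :
    (lm (η.w i) z + lm (vt A (bb Y ψ (ub Y ψ u c) c ε δ) i) z).PosSemidef := by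
  have hη' : (lm (η.w i) z).PosSemidef :=
    lm_psd (A.c i).open_target (η.smooth i) hz (hη i z hz)
  by_cases hcase : z ∈ Ou A Y i ∧ 0 < vt A (tb ψ (ub Y ψ u c) c ε) i z
  · obtain ⟨hzY, ht⟩ := hcase
    obtain ⟨α, β, γ, hα, hβ, hγ, hform⟩ := bb_form hE hu.1 hε hv hδ hδm hzY ht
    have hu' : (lm (vt A u i) z).PosSemidef :=
      lm_psd (isOpen_Ou A hE.isOpen i) (hu.1 i) hzY (hu.2 i z hzY)
    have hq := Matrix.posSemidef_vecMulVec_self_star
      (fun k => pk k (cx (vt A ψ i)) z + (ε : ℂ) * pk k (cx (vt A u i)) z)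
    have hsum : lm (η.w i) z + lm (vt A (bb Y ψ (ub Y ψ u c) c ε δ) i) z
        = α • lm (η.w i) z + β • lm (vt A u i) z
          + γ • Matrix.vecMulVec
            (fun k => pk k (cx (vt A ψ i)) z + (ε : ℂ) * pk k (cx (vt A u i)) z)
            (star fun k => pk k (cx (vt A ψ i)) z + (ε : ℂ) * pk k (cx (vt A u i)) z) := by
      ext k l
      rw [hform k l]
      simp only [Matrix.add_apply, Matrix.smul_apply, Matrix.vecMulVec_apply, Pi.star_apply,
        Complex.star_def, Complex.real_smul, lm_apply]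
    rw [hsum]
    exact ((hη'.smul hα.le).add (hu'.smul hβ.le)).add (hq.smul hγ.le)
  · rw [bb_off hE (Sm_ub hE hu.1 c) hv hz hcase, add_zero]
    exact hη'

theorem bb_ker (hη : η.Semipositive) (hE : Exh η m Y ψ) (hu : PshOn A Y u) (hε : 0 < ε)
    (hv : ∀ x, |ε * ub Y ψ u c x| ≤ 1 / 2) (hδ : 0 < δ) (hδm : δ * |m| ≤ 1 / 2) {i : ι} {z : E n}
    (hz : z ∈ Ou A Y i) (ht : 0 < vt A (tb ψ (ub Y ψ u c) c ε) i z) {a : E n}
    (ha : ∀ l, ∑ k, a k * (lm (η.w i) z + lm (vt A (bb Y ψ (ub Y ψ u c) c ε δ) i) z) k l = 0) :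
    (∀ b, levi (η.w i) z a b = 0) ∧ (∀ b, levi (vt A u i) z a b = 0) ∧
      d10 (cx (vt A ψ i)) z a + (ε : ℂ) * d10 (cx (vt A u i)) z a = 0 := by
  obtain ⟨α, β, γ, hα, hβ, hγ, hform⟩ := bb_form hE hu.1 hε hv hδ hδm hz ht
  have hzt : z ∈ (A.c i).target := hz.1
  have hcη : ContDiffAt ℝ ∞ (η.w i) z :=
    (η.smooth i).contDiffAt ((A.c i).open_target.mem_nhds hzt)
  have hOu := isOpen_Ou A hE.isOpen i
  have hcu : ContDiffAt ℝ ∞ (vt A u i) z := (hu.1 i).contDiffAt (hOu.mem_nhds hz)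
  set q : Fin n → ℂ := fun k => pk k (cx (vt A ψ i)) z + (ε : ℂ) * pk k (cx (vt A u i)) z with hq
  have hdq : d10 (cx (vt A ψ i)) z a + (ε : ℂ) * d10 (cx (vt A u i)) z a = ∑ k, a k * q k := by
    rw [d10_eq_sum, d10_eq_sum, Finset.mul_sum, ← Finset.sum_add_distrib]
    refine Finset.sum_congr rfl fun k _ => ?_
    rw [hq]
    ring
  have hkey : (α : ℂ) * levi (η.w i) z a a + (β : ℂ) * levi (vt A u i) z a a
      + (γ : ℂ) * ((∑ k, a k * q k) * conj (∑ k, a k * q k)) = 0 := by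
    have h1 : ∑ l, conj (a l)
        * ∑ k, a k * (lm (η.w i) z + lm (vt A (bb Y ψ (ub Y ψ u c) c ε δ) i) z) k l = 0 :=
      Finset.sum_eq_zero fun l _ => by rw [ha l, mul_zero]
    rw [← h1, levi_eq_sum hcη, levi_eq_sum hcu, map_sum, Finset.sum_mul_sum, Finset.mul_sum,
      Finset.mul_sum, Finset.mul_sum]
    simp only [Finset.mul_sum]
    rw [← Finset.sum_add_distrib, ← Finset.sum_add_distrib, Finset.sum_comm]
    refine Finset.sum_congr rfl fun k _ => ?_
    rw [← Finset.sum_add_distrib, ← Finset.sum_add_distrib]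
    refine Finset.sum_congr rfl fun l _ => ?_
    rw [hform k l, map_mul]
    ring
  have h0 := congrArg Complex.re hkey
  rw [Complex.add_re, Complex.add_re, Complex.re_ofReal_mul, Complex.re_ofReal_mul,
    Complex.re_ofReal_mul, Complex.mul_conj, Complex.ofReal_re, Complex.normSq_eq_norm_sq,
    Complex.zero_re] at h0
  have h1 := hη i z hzt a
  have h2 := hu.2 i z hz a
  have h3 : 0 ≤ α * (levi (η.w i) z a a).re := mul_nonneg hα.le h1
  have h4 : 0 ≤ β * (levi (vt A u i) z a a).re := mul_nonneg hβ.le h2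
  have h5 : 0 ≤ γ * ‖∑ k, a k * q k‖ ^ 2 := mul_nonneg hγ.le (sq_nonneg _)
  have h6 : α * (levi (η.w i) z a a).re = 0 := by linarith
  have h7 : β * (levi (vt A u i) z a a).re = 0 := by linarith
  have h8 : γ * ‖∑ k, a k * q k‖ ^ 2 = 0 := by linarith
  have h6' : (levi (η.w i) z a a).re = 0 := (mul_eq_zero.1 h6).resolve_left hα.ne'
  have h7' : (levi (vt A u i) z a a).re = 0 := (mul_eq_zero.1 h7).resolve_left hβ.ne'
  have h8' : ∑ k, a k * q k = 0 :=
    norm_eq_zero.1 ((pow_eq_zero_iff two_ne_zero).1 ((mul_eq_zero.1 h8).resolve_left hγ.ne'))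
  refine ⟨fun b => levi_ker (A.c i).open_target (η.smooth i) hzt (hη i z hzt) h6' b,
    fun b => levi_ker hOu (hu.1 i) hz (hu.2 i z hz) h7' b, ?_⟩
  rw [hdq, h8']

end Pool.Agent.NDC
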