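import Pool.Agent.CYF.Jcb

/-!
NDC: numerical dimension and holomorphic functions on the complement of a divisor. Definitions:
complex manifolds given by charts, smooth closed real (1,1)-forms given by local potentials,
sections of (twisted) powers of the hermitian line bundle, smooth plurisubharmonic and holomorphic
functions on open subsets.
-/

open scoped ContDiff
open Complex

namespace Pool.Agent.NDC

open Pool.Agent.CYF

/-- A complex manifold of dimension `n` with underlying space `X`, given by charts `c i` with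
holomorphic changes of charts. -/
structure Mfd (n : ℕ) (X : Type*) [TopologicalSpace X] (ι : Type*) where
  /-- the charts -/
  c : ι → OpenPartialHomeomorph X (E n)
  cover : ∀ x : X, ∃ i, x ∈ (c i).source
  hol : ∀ i j, ContDiffOn ℂ ∞ (c j ∘ (c i).symm)
    {z | z ∈ (c i).target ∧ (c i).symm z ∈ (c j).source}

variable {n : ℕ} {X : Type*} [TopologicalSpace X] {ι : Type*}

/-- A smooth closed real (1,1)-form on `A`, given in the charts by smooth local potentials `w i`
(the form is `i ∂∂̄ (w i)` in the chart `i`). -/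
structure Form (A : Mfd n X ι) where
  /-- the local potentials -/
  w : ι → E n → ℝ
  smooth : ∀ i, ContDiffOn ℝ ∞ (w i) (A.c i).target
  compat : ∀ i j z, z ∈ (A.c i).target → (A.c i).symm z ∈ (A.c j).source → ∀ a b : E n,
    levi (w j) ((A.c j ∘ (A.c i).symm) z) (fderiv ℂ (A.c j ∘ (A.c i).symm) z a)
      (fderiv ℂ (A.c j ∘ (A.c i).symm) z b) = levi (w i) z a b

variable {A : Mfd n X ι}

/-- The form is semipositive. -/
def Form.Semipositive (η : Form A) : Prop :=
  ∀ i, ∀ z ∈ (A.c i).target, ∀ a : E n, 0 ≤ (levi (η.w i) z a a).re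

/-- The form is positive: a Kähler form. -/
def Form.Positive (η : Form A) : Prop :=
  ∀ i, ∀ z ∈ (A.c i).target, ∀ a : E n, a ≠ 0 → 0 < (levi (η.w i) z a a).re

/-- The rank of the form is at most `ν` at every point: `η^(ν+1) = 0`. -/
def Form.RankLE (η : Form A) (ν : ℕ) : Prop :=
  ∀ i, ∀ z ∈ (A.c i).target, (lm (η.w i) z).rank ≤ ν

/-- `s` is a holomorphic section of the `m`-th power of the hermitian line bundle with the local
weights `w i` (and curvature `η`), twisted by a unitary flat line bundle: `s i` is holomorphic and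
`|s i|² exp (-m w i)` is the same in all charts. -/
structure Form.IsSection (η : Form A) (m : ℝ) (s : ι → E n → ℂ) : Prop where
  hol : ∀ i, ContDiffOn ℂ ∞ (s i) (A.c i).target
  norm : ∀ i j z, z ∈ (A.c i).target → (A.c i).symm z ∈ (A.c j).source →
    ‖s j ((A.c j ∘ (A.c i).symm) z)‖ ^ 2 * Real.exp (-(m * η.w j ((A.c j ∘ (A.c i).symm) z)))
      = ‖s i z‖ ^ 2 * Real.exp (-(m * η.w i z))

/-- a chart at a point -/
noncomputable def ix (A : Mfd n X ι) (x : X) : ι := (A.cover x).choose

/-- The squared length `|s|²` of the section `s` of the `m`-th power. -/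
noncomputable def len (η : Form A) (m : ℝ) (s : ι → E n → ℂ) (x : X) : ℝ :=
  ‖s (ix A x) (A.c (ix A x) x)‖ ^ 2 * Real.exp (-(m * η.w (ix A x) (A.c (ix A x) x)))

/-- The complement of the zero set of the section `s`. -/
def Off (A : Mfd n X ι) (s : ι → E n → ℂ) : Set X :=
  {x | ∀ i, x ∈ (A.c i).source → s i (A.c i x) ≠ 0}

/-- The coordinates, in the chart `i`, of the points of `Y`. -/
def Ou (A : Mfd n X ι) (Y : Set X) (i : ι) : Set (E n) :=
  {z | z ∈ (A.c i).target ∧ (A.c i).symm z ∈ Y}

/-- The real function `u` in the coordinates of the chart `i`. -/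
noncomputable def vt (A : Mfd n X ι) (u : X → ℝ) (i : ι) (z : E n) : ℝ := u ((A.c i).symm z)

/-- `u` is smooth on the open set `Y`. -/
def SmOn (A : Mfd n X ι) (Y : Set X) (u : X → ℝ) : Prop :=
  ∀ i, ContDiffOn ℝ ∞ (vt A u i) (Ou A Y i)

/-- `u` is a smooth plurisubharmonic function on the open set `Y`. -/
def PshOn (A : Mfd n X ι) (Y : Set X) (u : X → ℝ) : Prop :=
  SmOn A Y u ∧ ∀ i, ∀ z ∈ Ou A Y i, ∀ a : E n, 0 ≤ (levi (vt A u i) z a a).re

/-- `f` is a holomorphic function on the open set `Y`. -/
def HolOn (A : Mfd n X ι) (Y : Set X) (f : X → ℂ) : Prop :=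
  ∀ i, ContDiffOn ℂ ∞ (f ∘ (A.c i).symm) (Ou A Y i)

end Pool.Agent.NDC
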