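import Pool.Agent.NDC.Mnk

/-!
NDC module Dir (size 3): one subspace for all plurisubharmonic functions.
PROOF. The set of numbers `finrank ℂ (KW η ψ u i z)`, `u` with `PshOn A Y u`, is nonempty (`u = 0`: the Levi form of a
constant is `0`); let `u0` attain the minimum (`Nat.find` or `WellFounded.min`, or
`Nat.sInf_mem`), `V = KW η ψ u0 i z`. Given `u` with `PshOn A Y u`, let `w = hat u0 + hat u`
(`psh_hat`, `psh_add`, module Hat). `KW η ψ w i z ≤ KW η ψ u0 i z ⊓ KW η ψ u i z`: `add_ker` and `hat_ker`. By minimality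
`finrank V ≤ finrank (KW η ψ w i z)`, so `KW η ψ w i z = V` (`Submodule.eq_of_le_of_finrank_le`), so `V ≤ KW η ψ u i z`.
`main_kernel` (module Mnk) for `u0`.
-/

open scoped ContDiff ComplexConjugate Topology ComplexOrder
open Complex MeasureTheory Matrix

namespace Pool.Agent.NDC

open Pool.Agent.CYF

variable {n : ℕ} {X : Type*} [TopologicalSpace X] {ι : Type*} {A : Mfd n X ι}
  {η om : Form A} {m : ℝ} {Y : Set X} {ψ : X → ℝ} {ν : ℕ}

private theorem Dir_zero : PshOn A Y (fun _ => (0 : ℝ)) := by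
  refine ⟨fun i => contDiffOn_const, fun i z hz a => ?_⟩
  have h1 : vt A (fun _ => (0 : ℝ)) i = fun _ => (0 : ℝ) := rfl
  have h2 : levi (fun _ : E n => (0 : ℝ)) z a a = 0 := by
    unfold levi
    have h3 : (fun y => d01 (fun _ : E n => ((0 : ℝ) : ℂ)) y a) = fun _ : E n => (0 : ℂ) := by
      funext y
      exact d01_const _
    rw [h3]
    exact d10_const _
  rw [h1, h2, Complex.zero_re]

private theorem Dir_mem {u : X → ℝ} {i : ι} {z a : E n} : a ∈ KW η ψ u i z ↔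
    (∀ b, levi (η.w i) z a b = 0) ∧ d10 (cx (vt A ψ i)) z a = 0 ∧
      (∀ b, levi (vt A u i) z a b = 0) ∧ d10 (cx (vt A u i)) z a = 0 := Iff.rfl

theorem exists_V [T2Space X] [CompactSpace X] (hη : η.Semipositive) (hν : η.RankLE ν)
    (hom : om.Positive) (hE : Exh η m Y ψ) {i : ι} {z : E n} (hz : z ∈ Ou A Y i) :
    ∃ V : Submodule ℂ (E n), n ≤ Module.finrank ℂ V + ν ∧ ∀ a ∈ V,
      (∀ b, levi (η.w i) z a b = 0) ∧ d10 (cx (vt A ψ i)) z a = 0 ∧
        ∀ u : X → ℝ, PshOn A Y u →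
          (∀ b, levi (vt A u i) z a b = 0) ∧ d10 (cx (vt A u i)) z a = 0 := by
  classical
  have hex : ∃ N : ℕ, ∃ u : X → ℝ, PshOn A Y u ∧ Module.finrank ℂ (KW η ψ u i z) = N :=
    ⟨_, fun _ => 0, Dir_zero, rfl⟩
  obtain ⟨u0, hu0, hN⟩ := Nat.find_spec hex
  refine ⟨KW η ψ u0 i z, main_kernel hη hν hom hE hu0 hz, fun a ha => ?_⟩
  have ha' := Dir_mem.1 ha
  refine ⟨ha'.1, ha'.2.1, fun u hu => ?_⟩
  have hw1 := psh_hat hE.isOpen hu0
  have hw2 := psh_hat hE.isOpen hu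
  have hw := psh_add hE.isOpen hw1 hw2
  have hle : KW η ψ (fun x => hat u0 x + hat u x) i z ≤ KW η ψ u0 i z := by
    intro b hb
    have hb' := Dir_mem.1 hb
    have h1 := (add_ker hE.isOpen hw1 hw2 hz hb'.2.2.1).1
    have h2 := hat_ker hE.isOpen hu0 hz h1
    exact Dir_mem.2 ⟨hb'.1, hb'.2.1, h2.1, h2.2.1⟩
  have hmin : Module.finrank ℂ (KW η ψ u0 i z)
      ≤ Module.finrank ℂ (KW η ψ (fun x => hat u0 x + hat u x) i z) := by
    rw [hN]
    exact Nat.find_min' hex ⟨_, hw, rfl⟩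
  have heq := Submodule.eq_of_le_of_finrank_le hle hmin
  rw [← heq] at ha
  have hb' := Dir_mem.1 ha
  have h1 := (add_ker hE.isOpen hw1 hw2 hz hb'.2.2.1).2
  have h2 := hat_ker hE.isOpen hu hz h1
  exact ⟨h2.1, h2.2.1⟩

end Pool.Agent.NDC
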