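import Pool.Agent.NDC.Glo

/-!
NDC module Ext (size 3): extension by zero.
PROOF. `ez_chart`: near `z` all points are in `Ou A Y i` (open), there `vt A (ez Y h) i = vt A h i` (`if_pos`).
`ez_near`: the point `x = (A.c i).symm z` lies in the complement of the closed set
`{x | x ∈ Y ∧ c ≤ ψ x}` (`hE.closed c`); by continuity of `(A.c i).symm` at `z`, `(A.c i).symm y` is in this
open complement for `y` near `z`; there `ez Y h = 0` (`h0` or `if_neg`). `Sm_ez`: at `z ∈ (A.c i).target`, if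
`z ∈ Ou A Y i` use `ez_chart` and `hh i`, otherwise `ez_near` (`ContDiffAt.congr_of_eventuallyEq`,
`ContDiffAt.contDiffWithinAt`).
-/

open scoped ContDiff ComplexConjugate Topology ComplexOrder
open Complex MeasureTheory Matrix

namespace Pool.Agent.NDC

open Pool.Agent.CYF

variable {n : ℕ} {X : Type*} [TopologicalSpace X] {ι : Type*} {A : Mfd n X ι}
  {η : Form A} {m : ℝ} {Y : Set X} {ψ h : X → ℝ} {c : ℝ}

theorem ez_chart (hY : IsOpen Y) (h : X → ℝ) {i : ι} {z : E n} (hz : z ∈ Ou A Y i) :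
    vt A (ez Y h) i =ᶠ[𝓝 z] vt A h i := by
  filter_upwards [(isOpen_Ou A hY i).mem_nhds hz] with y hy
  have h1 : (A.c i).symm y ∈ Y := hy.2
  unfold vt ez
  rw [if_pos h1]

theorem ez_near (hE : Exh η m Y ψ) (h0 : ∀ x ∈ Y, ψ x < c → h x = 0) {i : ι} {z : E n}
    (hz : z ∈ (A.c i).target) (hn : ¬ ((A.c i).symm z ∈ Y ∧ c ≤ ψ ((A.c i).symm z))) :
    vt A (ez Y h) i =ᶠ[𝓝 z] fun _ => 0 := by
  have h1 : IsOpen ({x | x ∈ Y ∧ c ≤ ψ x}ᶜ) := (hE.closed c).isOpen_compl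
  have h2 : ContinuousAt (A.c i).symm z := (A.c i).continuousAt_symm hz
  have h3 : ∀ᶠ y in 𝓝 z, (A.c i).symm y ∈ ({x | x ∈ Y ∧ c ≤ ψ x}ᶜ) :=
    h2.eventually (h1.mem_nhds hn)
  filter_upwards [h3] with y hy
  have h4 : ¬ ((A.c i).symm y ∈ Y ∧ c ≤ ψ ((A.c i).symm y)) := hy
  unfold vt ez
  split_ifs with hY
  · refine h0 _ hY ?_
    by_contra hc
    exact h4 ⟨hY, not_lt.1 hc⟩
  · rfl

theorem Sm_ez (hE : Exh η m Y ψ) (hh : SmOn A Y h) (h0 : ∀ x ∈ Y, ψ x < c → h x = 0) :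
    Sm A (ez Y h) := by
  intro i z hz
  refine ContDiffAt.contDiffWithinAt ?_
  by_cases hY : z ∈ Ou A Y i
  · exact ((hh i).contDiffAt ((isOpen_Ou A hE.isOpen i).mem_nhds hY)).congr_of_eventuallyEq
      (ez_chart hE.isOpen h hY)
  · refine (contDiffAt_const (c := (0 : ℝ))).congr_of_eventuallyEq
      (ez_near hE h0 hz fun hn => hY ⟨hz, hn.1⟩)

end Pool.Agent.NDC
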