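import Pool.Agent.NDC.Glo

/-!
NDC module Hol (size 3): `|f|²` for a holomorphic function `f`; real and complex derivatives.
-/

open scoped ContDiff ComplexConjugate Topology ComplexOrder
open Complex MeasureTheory Matrix

namespace Pool.Agent.NDC

open Pool.Agent.CYF

variable {n : ℕ} {X : Type*} [TopologicalSpace X] {ι : Type*} {A : Mfd n X ι}
  {Y : Set X} {f : X → ℂ}

private theorem Hol_diff (hY : IsOpen Y) (hf : HolOn A Y f) {i : ι} {z : E n}
    (hz : z ∈ Ou A Y i) : DifferentiableAt ℂ (f ∘ (A.c i).symm) z :=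
  ((hf i).contDiffAt ((isOpen_Ou A hY i).mem_nhds hz)).differentiableAt (by simp)

private theorem Hol_cx (i : ι) : cx (vt A (fun x => ‖f x‖ ^ 2) i)
    = fun y => (f ∘ (A.c i).symm) y * conj ((f ∘ (A.c i).symm) y) := by
  funext y
  unfold cx vt
  rw [Complex.mul_conj, Complex.normSq_eq_norm_sq]
  rfl

private theorem Hol_pb (hY : IsOpen Y) (hf : HolOn A Y f) {i : ι} {z : E n}
    (hz : z ∈ Ou A Y i) (l : Fin n) : pb l (cx (vt A (fun x => ‖f x‖ ^ 2) i)) z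
      = (f ∘ (A.c i).symm) z * conj (fderiv ℂ (f ∘ (A.c i).symm) z (e l)) := by
  have hd := Hol_diff hY hf hz
  have hr : DifferentiableAt ℝ (f ∘ (A.c i).symm) z := hd.restrictScalars ℝ
  rw [Hol_cx]
  unfold pb
  rw [d01_mul hr (conjd hr), d01_of_diff hd, d01_conj hr, d10_of_diff hd]
  ring

private theorem Hol_LM (hY : IsOpen Y) (hf : HolOn A Y f) {i : ι} {z : E n}
    (hz : z ∈ Ou A Y i) (k l : Fin n) : LM (vt A (fun x => ‖f x‖ ^ 2) i) z k l
      = fderiv ℂ (f ∘ (A.c i).symm) z (e k) * conj (fderiv ℂ (f ∘ (A.c i).symm) z (e l)) := by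
  have hO := isOpen_Ou A hY i
  have h1 : pb l (cx (vt A (fun x => ‖f x‖ ^ 2) i)) =ᶠ[𝓝 z]
      fun y => (f ∘ (A.c i).symm) y * conj (fderiv ℂ (f ∘ (A.c i).symm) y (e l)) := by
    filter_upwards [hO.mem_nhds hz] with y hy
    exact Hol_pb hY hf hy l
  have hd := Hol_diff hY hf hz
  have hD : DifferentiableAt ℂ (fun y => fderiv ℂ (f ∘ (A.c i).symm) y (e l)) z := by
    have h3 : ContDiffAt ℂ ∞ (fderiv ℂ (f ∘ (A.c i).symm)) z :=
      ((hf i).contDiffAt (hO.mem_nhds hz)).fderiv_right (m := ∞) (by simp)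
    exact (h3.clm_apply contDiffAt_const).differentiableAt (by simp)
  have hr : DifferentiableAt ℝ (f ∘ (A.c i).symm) z := hd.restrictScalars ℝ
  have hDr : DifferentiableAt ℝ (fun y => fderiv ℂ (f ∘ (A.c i).symm) y (e l)) z :=
    hD.restrictScalars ℝ
  rw [LM_eq, pk_congr h1]
  unfold pk
  rw [d10_mul hr (conjd hDr), d10_of_diff hd, d10_conj hDr, d01_of_diff hD, map_zero, mul_zero,
    add_zero]

theorem levi_nq (hY : IsOpen Y) (hf : HolOn A Y f) {i : ι} {z : E n} (hz : z ∈ Ou A Y i)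
    (a b : E n) : levi (vt A (fun x => ‖f x‖ ^ 2) i) z a b
      = fderiv ℂ (f ∘ (A.c i).symm) z a * conj (fderiv ℂ (f ∘ (A.c i).symm) z b) := by
  have hO := isOpen_Ou A hY i
  have hsm : ContDiffOn ℝ ∞ (vt A (fun x => ‖f x‖ ^ 2) i) (Ou A Y i) :=
    ((hf i).restrict_scalars ℝ).norm_sq ℝ
  rw [levi_eq_sum (hsm.contDiffAt (hO.mem_nhds hz))]
  have hL : ∀ c : E n, fderiv ℂ (f ∘ (A.c i).symm) z c
      = ∑ k, c k * fderiv ℂ (f ∘ (A.c i).symm) z (e k) := by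
    intro c
    conv_lhs => rw [vec_eq_sum c, map_sum]
    exact Finset.sum_congr rfl fun k _ => by rw [map_smul, smul_eq_mul]
  rw [hL a, hL b, map_sum, Finset.sum_mul_sum]
  refine Finset.sum_congr rfl fun k _ => Finset.sum_congr rfl fun l _ => ?_
  rw [Hol_LM hY hf hz, map_mul]
  ring

theorem psh_nq (hY : IsOpen Y) (hf : HolOn A Y f) : PshOn A Y (fun x => ‖f x‖ ^ 2) := by
  refine ⟨fun i => ((hf i).restrict_scalars ℝ).norm_sq ℝ, fun i z hz a => ?_⟩
  rw [levi_nq hY hf hz, Complex.mul_conj, Complex.ofReal_re]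
  exact Complex.normSq_nonneg _

theorem nq_ker (hY : IsOpen Y) (hf : HolOn A Y f) {i : ι} {z : E n} (hz : z ∈ Ou A Y i)
    {a : E n} (h : ∀ b, levi (vt A (fun x => ‖f x‖ ^ 2) i) z a b = 0) :
    fderiv ℂ (f ∘ (A.c i).symm) z a = 0 := by
  have h1 := h a
  rw [levi_nq hY hf hz, Complex.mul_conj] at h1
  have h2 : Complex.normSq (fderiv ℂ (f ∘ (A.c i).symm) z a) = 0 := by exact_mod_cast h1
  exact Complex.normSq_eq_zero.1 h2

theorem fderiv_real {w : E n → ℝ} {z : E n} (hw : DifferentiableAt ℝ w z) (a : E n) :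
    fderiv ℝ w z a = 2 * (d10 (cx w) z a).re := by
  have h3 : HasFDerivAt (cx w) (Complex.ofRealCLM.comp (fderiv ℝ w z)) z :=
    (Complex.ofRealCLM.hasFDerivAt).comp z hw.hasFDerivAt
  have h4 : ∀ v, fderiv ℝ (cx w) z v = ((fderiv ℝ w z v : ℝ) : ℂ) := by
    intro v
    rw [h3.fderiv]
    rfl
  unfold d10
  rw [h4, h4]
  have h5 : (((fderiv ℝ w z a : ℝ) : ℂ) - I * ((fderiv ℝ w z (I • a) : ℝ) : ℂ)) / 2
      = ((fderiv ℝ w z a / 2 : ℝ) : ℂ) + ((-(fderiv ℝ w z (I • a)) / 2 : ℝ) : ℂ) * I := by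
    push_cast
    ring
  rw [h5]
  simp
  ring

end Pool.Agent.NDC
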