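import Pool.Agent.NDC.Len

/-!
NDC module Lps (size 3): `log |s|²` has `i∂∂̄ = - m η` and tends to `-∞` at the zeros of `s`.
PROOF. `isOpen`: `isOpen_Off`. On `Ou A (Off A s) i` (open: `isOpen_Ou`) `s i ≠ 0` (definition of `Off` and
`right_inv`), and `vt A ψ i z = 2 * Real.log ‖s i z‖ + (-m) * η.w i z` (`len_chart`, `Real.log_mul`, `Real.log_pow`,
`Real.log_exp`); smooth by `contDiffOn_log` (CYF/Chg.lean) and `η.smooth`. `levi_eq`: `LM_congr` (the formula holds
near `z`), `LM_add`, `LM_log`, `LM_const_mul` (CYF/Chg.lean) on the open set `Ou A (Off A s) i`. `closed`: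
`{x | x ∈ Off A s ∧ c ≤ log (len x)} = {x | exp c ≤ len x}` (`len_pos`, `Real.le_log_iff_exp_le`,
`(Sm_len hs).continuous`).
-/

open scoped ContDiff ComplexConjugate Topology ComplexOrder
open Complex MeasureTheory Matrix

namespace Pool.Agent.NDC

open Pool.Agent.CYF

variable {n : ℕ} {X : Type*} [TopologicalSpace X] {ι : Type*} {A : Mfd n X ι}
  {η : Form A} {m : ℝ} {s : ι → E n → ℂ}

private theorem Lps_ne (hs : η.IsSection m s) {i : ι} {z : E n} (hz : z ∈ Ou A (Off A s) i) :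
    s i z ≠ 0 := by
  have h1 := (mem_Off hs ((A.c i).map_target hz.1)).1 hz.2
  rwa [(A.c i).right_inv hz.1] at h1

private theorem Lps_eq (hs : η.IsSection m s) {i : ι} {z : E n} (hz : z ∈ Ou A (Off A s) i) :
    vt A (fun x => Real.log (len η m s x)) i z = 2 * Real.log ‖s i z‖ + (-m) * η.w i z := by
  have h0 : ‖s i z‖ ≠ 0 := norm_ne_zero_iff.2 (Lps_ne hs hz)
  have h1 : vt A (fun x => Real.log (len η m s x)) i z = Real.log (vt A (len η m s) i z) := rfl
  rw [h1, len_chart hs hz.1, Real.log_mul (pow_ne_zero 2 h0) (Real.exp_ne_zero _), Real.log_pow,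
    Real.log_exp]
  push_cast
  ring

theorem exh_log (hs : η.IsSection m s) :
    Exh η m (Off A s) (fun x => Real.log (len η m s x)) := by
  have hO : ∀ i, IsOpen (Ou A (Off A s) i) := isOpen_Ou A (isOpen_Off hs)
  have hhol : ∀ i, ContDiffOn ℂ ∞ (s i) (Ou A (Off A s) i) := fun i =>
    (hs.hol i).mono (Ou_subset i)
  have hlog : ∀ i, ContDiffOn ℝ ∞ (fun z => 2 * Real.log ‖s i z‖) (Ou A (Off A s) i) := fun i =>
    contDiffOn_log (hhol i) fun z hz => Lps_ne hs hz
  have hw : ∀ i, ContDiffOn ℝ ∞ (η.w i) (Ou A (Off A s) i) := fun i =>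
    (η.smooth i).mono (Ou_subset i)
  have hmw : ∀ i, ContDiffOn ℝ ∞ (fun z => (-m) * η.w i z) (Ou A (Off A s) i) := fun i =>
    contDiffOn_const.mul (hw i)
  refine ⟨isOpen_Off hs, fun i => ?_, fun i z hz k l => ?_, fun c => ?_⟩
  · exact ((hlog i).add (hmw i)).congr fun z hz => Lps_eq hs hz
  · have h1 : vt A (fun x => Real.log (len η m s x)) i =ᶠ[𝓝 z]
        fun z => 2 * Real.log ‖s i z‖ + (-m) * η.w i z := by
      filter_upwards [(hO i).mem_nhds hz] with y hy
      exact Lps_eq hs hy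
    rw [LM_congr h1, LM_add (hO i) (hlog i) (hmw i) hz,
      LM_log (hO i) (hhol i) (fun z hz => Lps_ne hs hz) hz, LM_const_mul (hO i) (hw i) hz, zero_add]
  · have h1 : {x | x ∈ Off A s ∧ c ≤ Real.log (len η m s x)} = {x | Real.exp c ≤ len η m s x} := by
      ext x
      simp only [Set.mem_ofPred_eq]
      constructor
      · rintro ⟨hx, hc⟩
        exact (Real.le_log_iff_exp_le ((len_pos hs).2 hx)).1 hc
      · intro hx
        have h2 : 0 < len η m s x := lt_of_lt_of_le (Real.exp_pos c) hx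
        exact ⟨(len_pos hs).1 h2, (Real.le_log_iff_exp_le h2).2 hx⟩
    rw [h1]
    exact isClosed_le continuous_const (Sm_len hs).continuous

end Pool.Agent.NDC
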