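import Pool.Agent.NDC.Dir
import Pool.Agent.NDC.Hol
import Pool.Agent.NDC.Lps

/-!
NDC module Fst (size 2): part (1) of the theorem.
PROOF. `exists_V` (module Dir) for `hE = exh_log hs` (module Lps), `ψ = fun x => Real.log (len η m s x)`. `fderiv_real` (module
Hol) with `d10 = 0` gives `fderiv ℝ (vt A u i) z v = 0` and `fderiv ℝ (vt A ψ i) z v = 0` (differentiable: smooth on the open
set `Ou A (Off A s) i`); near `z`, `vt A (len η m s) i = exp ∘ vt A ψ i` (`len_pos`, `Real.exp_log`), so its derivative vanishes on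
`v` too (`HasFDerivAt.exp`). For holomorphic `f`: `psh_nq`, `nq_ker` (module Hol).
-/

open scoped ContDiff ComplexConjugate Topology ComplexOrder
open Complex MeasureTheory Matrix

namespace Pool.Agent.NDC

open Pool.Agent.CYF

variable {n : ℕ} {X : Type*} [TopologicalSpace X] {ι : Type*} {A : Mfd n X ι}
  {η om : Form A} {m : ℝ} {s : ι → E n → ℂ} {ν : ℕ}

private theorem Fst_diff {Y : Set X} (hY : IsOpen Y) {u : X → ℝ} (hu : SmOn A Y u) {i : ι}
    {z : E n} (hz : z ∈ Ou A Y i) : DifferentiableAt ℝ (vt A u i) z :=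
  ((hu i).contDiffAt ((isOpen_Ou A hY i).mem_nhds hz)).differentiableAt (by simp)

theorem part_one [T2Space X] [CompactSpace X] (hη : η.Semipositive) (hν : η.RankLE ν)
    (hom : om.Positive) (hs : η.IsSection m s) (i : ι) (z : E n) (hz : z ∈ Ou A (Off A s) i) :
    ∃ V : Submodule ℂ (E n), n ≤ Module.finrank ℂ V + ν ∧ ∀ v ∈ V,
      (∀ b, levi (η.w i) z v b = 0) ∧ fderiv ℝ (vt A (len η m s) i) z v = 0 ∧
      (∀ u : X → ℝ, PshOn A (Off A s) u →
        (∀ b, levi (vt A u i) z v b = 0) ∧ fderiv ℝ (vt A u i) z v = 0) ∧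
      ∀ f : X → ℂ, HolOn A (Off A s) f → fderiv ℂ (f ∘ (A.c i).symm) z v = 0 := by
  have hE := exh_log (A := A) (m := m) hs
  obtain ⟨V, hV, H⟩ := exists_V hη hν hom hE hz
  refine ⟨V, hV, fun v hv => ?_⟩
  obtain ⟨h1, h2, h3⟩ := H v hv
  refine ⟨h1, ?_, ?_, ?_⟩
  · have hd := Fst_diff hE.isOpen hE.smooth hz
    have h4 : fderiv ℝ (vt A (fun x => Real.log (len η m s x)) i) z v = 0 := by
      rw [fderiv_real hd, h2, Complex.zero_re, mul_zero]
    have h5 : vt A (len η m s) i =ᶠ[𝓝 z]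
        fun y => Real.exp (vt A (fun x => Real.log (len η m s x)) i y) := by
      filter_upwards [(isOpen_Ou A hE.isOpen i).mem_nhds hz] with y hy
      unfold vt
      rw [Real.exp_log ((len_pos hs).2 hy.2)]
    rw [h5.fderiv_eq, (hd.hasFDerivAt.exp).fderiv]
    simp [h4]
  · intro u hu
    refine ⟨(h3 u hu).1, ?_⟩
    rw [fderiv_real (Fst_diff hE.isOpen hu.1 hz), (h3 u hu).2, Complex.zero_re, mul_zero]
  · intro f hf
    exact nq_ker hE.isOpen hf hz (h3 _ (psh_nq hE.isOpen hf)).1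

end Pool.Agent.NDC
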