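import Pool.Agent.NDC.Defs

/-!
NDC: further definitions (not used in the final statement).
-/

open scoped ContDiff ComplexConjugate Topology ComplexOrder
open Complex MeasureTheory Matrix

namespace Pool.Agent.NDC

open Pool.Agent.CYF

variable {n : ℕ} {X : Type*} [TopologicalSpace X] {ι : Type*}

/-- smooth functions on `X` -/
def Sm (A : Mfd n X ι) (v : X → ℝ) : Prop := ∀ i, ContDiffOn ℝ ∞ (vt A v i) (A.c i).target

/-- overlap of two charts in the coordinates of the first -/
def Uo (A : Mfd n X ι) (i j : ι) : Set (E n) :=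
  {z | z ∈ (A.c i).target ∧ (A.c i).symm z ∈ (A.c j).source}

/-- change of charts -/
noncomputable def ph (A : Mfd n X ι) (i j : ι) : E n → E n := A.c j ∘ (A.c i).symm

/-- Jacobian matrix of a holomorphic map -/
noncomputable def Tm (φ : E n → E n) (z : E n) : Matrix (Fin n) (Fin n) ℂ := Matrix.of (TT φ z)

/-- `det (B + X M)` -/
noncomputable def dp (B M : Matrix (Fin n) (Fin n) ℂ) : Polynomial ℂ :=
  ((Polynomial.X : Polynomial ℂ) • M.map Polynomial.C + B.map Polynomial.C).det

/-- A density: a function in every chart that transforms with the square of the absolute value of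
the Jacobian determinant of the changes of charts. -/
structure IsDens (A : Mfd n X ι) (f : ι → E n → ℂ) : Prop where
  cont : ∀ i, ContinuousOn (f i) (A.c i).target
  trans : ∀ i j, ∀ z ∈ Uo A i j,
    f i z = ((‖(Tm (ph A i j) z).det‖ ^ 2 : ℝ) : ℂ) * f j (ph A i j z)

/-- A finite partition of unity subordinate to the charts. -/
structure Pou (A : Mfd n X ι) where
  /-- number of functions -/
  N : ℕ
  /-- charts -/
  j : Fin N → ι
  /-- functions -/
  ρ : Fin N → X → ℝ
  /-- supports in the charts -/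
  K : Fin N → Set (E n)
  sm : ∀ a, Sm A (ρ a)
  nonneg : ∀ a x, 0 ≤ ρ a x
  one : ∀ x, ∑ a, ρ a x = 1
  cpt : ∀ a, IsCompact (K a)
  sub : ∀ a, K a ⊆ (A.c (j a)).target
  off : ∀ a x, ρ a x ≠ 0 → x ∈ (A.c (j a)).source ∧ A.c (j a) x ∈ K a

/-- The integral of a density. -/
noncomputable def Itg {A : Mfd n X ι} (P : Pou A) (f : ι → E n → ℂ) : ℂ :=
  ∑ a, ∫ z in (A.c (P.j a)).target, ((P.ρ a ((A.c (P.j a)).symm z) : ℝ) : ℂ) * f (P.j a) z

/-- `ψ` is a smooth function on the open set `Y` with `i ∂∂̄ ψ = - m η` on `Y` that tends to `-∞` at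
the boundary of `Y`. -/
structure Exh {A : Mfd n X ι} (η : Form A) (m : ℝ) (Y : Set X) (ψ : X → ℝ) : Prop where
  isOpen : IsOpen Y
  smooth : SmOn A Y ψ
  levi_eq : ∀ i, ∀ z ∈ Ou A Y i, ∀ k l,
    LM (vt A ψ i) z k l = ((-m : ℝ) : ℂ) * LM (η.w i) z k l
  closed : ∀ c : ℝ, IsClosed {x | x ∈ Y ∧ c ≤ ψ x}

open Classical in
/-- extension by zero -/
noncomputable def ez (Y : Set X) (h : X → ℝ) (x : X) : ℝ := if x ∈ Y then h x else 0

/-- convex cut-off function -/
noncomputable def cut (x : ℝ) : ℝ := x * expNegInvGlue x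

/-- cut-off function -/
noncomputable def cot (c x : ℝ) : ℝ := Real.smoothTransition (x - c + 2)

/-- the function `ψ + ε v - c` -/
noncomputable def tb (ψ v : X → ℝ) (c ε : ℝ) (x : X) : ℝ := ψ x + ε * v x - c

/-- the function `cot c ψ · u`, extended by zero -/
noncomputable def ub (Y : Set X) (ψ u : X → ℝ) (c : ℝ) : X → ℝ := ez Y fun x => cot c (ψ x) * u x

/-- the function `δ cut (ψ + ε v - c)`, extended by zero -/
noncomputable def bb (Y : Set X) (ψ v : X → ℝ) (c ε δ : ℝ) : X → ℝ :=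
  ez Y fun x => δ * cut (tb ψ v c ε x)

/-- `u + exp u` -/
noncomputable def hat (u : X → ℝ) (x : X) : ℝ := u x + Real.exp (u x)

/-- The vectors `a` at the point `z` of the chart `i` with `η(a, ·) = 0`, `∂ψ(a) = 0`,
`∂∂̄u(a, ·) = 0` and `∂u(a) = 0`. -/
noncomputable def KW {A : Mfd n X ι} (η : Form A) (ψ u : X → ℝ) (i : ι) (z : E n) :
    Submodule ℂ (E n) where
  carrier := {a | (∀ b, levi (η.w i) z a b = 0) ∧ d10 (cx (vt A ψ i)) z a = 0 ∧
    (∀ b, levi (vt A u i) z a b = 0) ∧ d10 (cx (vt A u i)) z a = 0}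
  add_mem' {a a'} h h' := by
    refine ⟨fun b => ?_, ?_, fun b => ?_, ?_⟩
    · have h1 := h.1 b
      have h2 := h'.1 b
      unfold levi at h1 h2 ⊢
      rw [d10_add_vec, h1, h2, add_zero]
    · rw [d10_add_vec, h.2.1, h'.2.1, add_zero]
    · have h1 := h.2.2.1 b
      have h2 := h'.2.2.1 b
      unfold levi at h1 h2 ⊢
      rw [d10_add_vec, h1, h2, add_zero]
    · rw [d10_add_vec, h.2.2.2, h'.2.2.2, add_zero]
  zero_mem' := by
    refine ⟨fun b => ?_, ?_, fun b => ?_, ?_⟩ <;> try unfold levi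
    all_goals exact d10_zero_vec _ _
  smul_mem' c a h := by
    refine ⟨fun b => ?_, ?_, fun b => ?_, ?_⟩
    · have h1 := h.1 b
      unfold levi at h1 ⊢
      rw [d10_smul_vec, h1, mul_zero]
    · rw [d10_smul_vec, h.2.1, mul_zero]
    · have h1 := h.2.2.1 b
      unfold levi at h1 ⊢
      rw [d10_smul_vec, h1, mul_zero]
    · rw [d10_smul_vec, h.2.2.2, mul_zero]

end Pool.Agent.NDC
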