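import Pool.Agent.NDC.Cmp
import Pool.Agent.NDC.Psd
import Pool.Agent.NDC.Krk

/-!
NDC module Hat (size 3): the plurisubharmonic functions `u + exp u` and `u + u'`.
PROOF. On the open set `Ou A Y i`, `vt A (hat u) i = fun y => Φ (vt A u i y)` (rfl) with `Φ x = x + exp x`,
`deriv Φ x = 1 + exp x`, `deriv (deriv Φ) x = exp x`; `levi_comp` (module Cmp):
`levi (hat u) z a a = exp(u) * ‖d10 (cx u) z a‖^2 + (1 + exp u) * levi u z a a`, with nonnegative real parts. So
`psh_hat`; and if `levi (hat u) z a a = 0` then both vanish: `d10 (cx u) z a = 0` and `(levi u z a a).re = 0`, so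
`levi u z a b = 0` for all `b` (`psd_ker`, module Krk, `lm_psd`, `levi_eq_sum`); `d10_comp_real` gives the last claim.
`psh_add`, `add_ker`: `levi (u + u') = levi u + levi u'` (`levi_eq_sum`, `LM_add`), nonnegativity, `psd_ker`.
-/

open scoped ContDiff ComplexConjugate Topology ComplexOrder
open Complex MeasureTheory Matrix

namespace Pool.Agent.NDC

open Pool.Agent.CYF

variable {n : ℕ} {X : Type*} [TopologicalSpace X] {ι : Type*} {A : Mfd n X ι}
  {Y : Set X} {u u' : X → ℝ}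

private theorem Hat_levi_ker {w : E n → ℝ} {U : Set (E n)} (hU : IsOpen U)
    (hw : ContDiffOn ℝ ∞ w U) {z : E n} (hz : z ∈ U) (h : ∀ a : E n, 0 ≤ (levi w z a a).re)
    {a : E n} (h0 : (levi w z a a).re = 0) (b : E n) : levi w z a b = 0 := by
  have hc := hw.contDiffAt (hU.mem_nhds hz)
  have h1 := lm_psd hU hw hz h
  have h2 : ∀ l, ∑ k, a k * lm w z k l = 0 := by
    rw [← psd_ker h1 a]
    rw [levi_eq_sum hc] at h0
    exact h0
  rw [levi_eq_sum hc, Finset.sum_comm]
  refine Finset.sum_eq_zero fun l _ => ?_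
  have h3 := h2 l
  calc ∑ k, a k * conj (b l) * LM w z k l = conj (b l) * ∑ k, a k * lm w z k l := by
        rw [Finset.mul_sum]
        refine Finset.sum_congr rfl fun k _ => ?_
        rw [lm_apply]
        ring
    _ = 0 := by rw [h3, mul_zero]

private theorem Hat_cd : ContDiff ℝ ∞ (fun x : ℝ => x + Real.exp x) :=
  contDiff_id.add Real.contDiff_exp

private theorem Hat_d1 : deriv (fun x : ℝ => x + Real.exp x) = fun x => 1 + Real.exp x := by
  funext x
  exact ((hasDerivAt_id x).add (Real.hasDerivAt_exp x)).deriv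

private theorem Hat_d2 (x : ℝ) : deriv (deriv (fun x : ℝ => x + Real.exp x)) x = Real.exp x := by
  rw [Hat_d1]
  have h := ((hasDerivAt_const x (1 : ℝ)).add (Real.hasDerivAt_exp x)).deriv
  rw [zero_add] at h
  exact h

private theorem Hat_levi (hY : IsOpen Y) (hu : SmOn A Y u) {i : ι} {z : E n} (hz : z ∈ Ou A Y i)
    (a b : E n) : levi (vt A (hat u) i) z a b
      = ((Real.exp (vt A u i z) : ℝ) : ℂ)
          * (d10 (cx (vt A u i)) z a * conj (d10 (cx (vt A u i)) z b))
        + ((1 + Real.exp (vt A u i z) : ℝ) : ℂ) * levi (vt A u i) z a b := by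
  have h := levi_comp (isOpen_Ou A hY i) (hu i) Hat_cd hz a b
  rw [Hat_d2, Hat_d1] at h
  exact h

private theorem Hat_re (r : ℝ) (w : ℂ) : ((r : ℂ) * (w * conj w)).re = r * ‖w‖ ^ 2 := by
  rw [Complex.re_ofReal_mul, Complex.mul_conj, Complex.ofReal_re, Complex.normSq_eq_norm_sq]

private theorem Hat_levi_add (hY : IsOpen Y) (hu : SmOn A Y u) (hu' : SmOn A Y u') {i : ι}
    {z : E n} (hz : z ∈ Ou A Y i) (a b : E n) :
    levi (vt A (fun x => u x + u' x) i) z a b
      = levi (vt A u i) z a b + levi (vt A u' i) z a b := by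
  have hO := isOpen_Ou A hY i
  have h1 : ContDiffOn ℝ ∞ (fun y => vt A u i y + vt A u' i y) (Ou A Y i) := (hu i).add (hu' i)
  have h2 : vt A (fun x => u x + u' x) i = fun y => vt A u i y + vt A u' i y := rfl
  rw [h2, levi_eq_sum (h1.contDiffAt (hO.mem_nhds hz)),
    levi_eq_sum ((hu i).contDiffAt (hO.mem_nhds hz)),
    levi_eq_sum ((hu' i).contDiffAt (hO.mem_nhds hz))]
  simp only [← Finset.sum_add_distrib]
  refine Finset.sum_congr rfl fun k _ => Finset.sum_congr rfl fun l _ => ?_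
  rw [LM_add hO (hu i) (hu' i) hz]
  ring

theorem psh_hat (hY : IsOpen Y) (hu : PshOn A Y u) : PshOn A Y (hat u) := by
  refine ⟨fun i => ?_, fun i z hz a => ?_⟩
  · exact Hat_cd.comp_contDiffOn (hu.1 i)
  · rw [Hat_levi hY hu.1 hz, Complex.add_re, Hat_re, Complex.re_ofReal_mul]
    have h1 := hu.2 i z hz a
    have h2 := (Real.exp_pos (vt A u i z)).le
    have h3 : 0 ≤ 1 + Real.exp (vt A u i z) := by linarith
    exact add_nonneg (mul_nonneg h2 (sq_nonneg _)) (mul_nonneg h3 h1)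

theorem hat_ker (hY : IsOpen Y) (hu : PshOn A Y u) {i : ι} {z : E n} (hz : z ∈ Ou A Y i)
    {a : E n} (h : ∀ b, levi (vt A (hat u) i) z a b = 0) :
    (∀ b, levi (vt A u i) z a b = 0) ∧ d10 (cx (vt A u i)) z a = 0 ∧
      d10 (cx (vt A (hat u) i)) z a = 0 := by
  have h0 := congrArg Complex.re (h a)
  rw [Hat_levi hY hu.1 hz, Complex.add_re, Hat_re, Complex.re_ofReal_mul, Complex.zero_re] at h0
  have h1 := hu.2 i z hz a
  have h2 := Real.exp_pos (vt A u i z)
  have h3 : 0 < 1 + Real.exp (vt A u i z) := by linarith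
  have h4 : 0 ≤ Real.exp (vt A u i z) * ‖d10 (cx (vt A u i)) z a‖ ^ 2 :=
    mul_nonneg h2.le (sq_nonneg _)
  have h5 : 0 ≤ (1 + Real.exp (vt A u i z)) * (levi (vt A u i) z a a).re := mul_nonneg h3.le h1
  have h6 : Real.exp (vt A u i z) * ‖d10 (cx (vt A u i)) z a‖ ^ 2 = 0 := by linarith
  have h7 : (1 + Real.exp (vt A u i z)) * (levi (vt A u i) z a a).re = 0 := by linarith
  have h8 : d10 (cx (vt A u i)) z a = 0 := by
    rcases mul_eq_zero.1 h6 with h | h
    · exact absurd h h2.ne'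
    · exact norm_eq_zero.1 (pow_eq_zero_iff (two_ne_zero)|>.1 h)
  have h9 : (levi (vt A u i) z a a).re = 0 := by
    rcases mul_eq_zero.1 h7 with h | h
    · exact absurd h h3.ne'
    · exact h
  refine ⟨fun b => Hat_levi_ker (isOpen_Ou A hY i) (hu.1 i) hz (hu.2 i z hz) h9 b, h8, ?_⟩
  have h10 := d10_comp_real (isOpen_Ou A hY i) (hu.1 i) Hat_cd hz a
  rw [h8, mul_zero] at h10
  exact h10

theorem psh_add (hY : IsOpen Y) (hu : PshOn A Y u) (hu' : PshOn A Y u') :
    PshOn A Y (fun x => u x + u' x) := by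
  refine ⟨fun i => (hu.1 i).add (hu'.1 i), fun i z hz a => ?_⟩
  rw [Hat_levi_add hY hu.1 hu'.1 hz, Complex.add_re]
  exact add_nonneg (hu.2 i z hz a) (hu'.2 i z hz a)

theorem add_ker (hY : IsOpen Y) (hu : PshOn A Y u) (hu' : PshOn A Y u') {i : ι} {z : E n}
    (hz : z ∈ Ou A Y i) {a : E n} (h : ∀ b, levi (vt A (fun x => u x + u' x) i) z a b = 0) :
    (∀ b, levi (vt A u i) z a b = 0) ∧ ∀ b, levi (vt A u' i) z a b = 0 := by
  have h0 := congrArg Complex.re (h a)
  rw [Hat_levi_add hY hu.1 hu'.1 hz, Complex.add_re, Complex.zero_re] at h0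
  have h1 := hu.2 i z hz a
  have h2 := hu'.2 i z hz a
  have h3 : (levi (vt A u i) z a a).re = 0 := by linarith
  have h4 : (levi (vt A u' i) z a a).re = 0 := by linarith
  exact ⟨fun b => Hat_levi_ker (isOpen_Ou A hY i) (hu.1 i) hz (hu.2 i z hz) h3 b,
    fun b => Hat_levi_ker (isOpen_Ou A hY i) (hu'.1 i) hz (hu'.2 i z hz) h4 b⟩

end Pool.Agent.NDC
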