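import Pool.Agent.NDC.Sgl
import Pool.Agent.NDC.Itp
import Pool.Agent.NDC.Dpl

/-!
NDC module Hom (size 3): the integral of `(r (η + i∂∂̄ b) + om)^n` does not depend on `b`.
PROOF. Fix `i`, `z ∈ (A.c i).target`, `M = lm (η.w i) z`, `K = lm (vt A b i) z`, `W = lm (om.w i) z`,
`p = dp (r • M + W) (r • K)`, of degree `≤ n ≤ n + 1` (`dp_natDegree`, module Dpl). `quad n` (module Itp) gives constants
`c` with `p.eval 1 - p.eval 0 = ∑ a, c a * p.derivative.eval a`. By `dp_eval`, `lm_comb` (module Psd):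
`p.eval 1 = det (lm ((η.comb om hb r r).w i) z)`, `p.eval 0 = det (lm ((η.comb om hb r 0).w i) z)`, and by `dp_deriv`
`p.derivative.eval a = r * tr (adj (lm ((η.comb om hb r (a * r)).w i) z) * K)`
(`Matrix.mul_smul`, `Matrix.trace_smul`). So the densities `f = det (lm (comb r r))` and
`g = det (lm (comb r 0)) + ∑ a, (c a * r) * tr (...)` coincide on the targets, and `Itg_congr`, `Itg_add`, `Itg_sum`,
`Itg_smul`, `Itg_stokes` give the claim (`dens_det`, `dens_tr`, `IsDens.smul`, `IsDens.sum`).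
-/

open scoped ContDiff ComplexConjugate Topology ComplexOrder
open Complex MeasureTheory Matrix

namespace Pool.Agent.NDC

open Pool.Agent.CYF

variable {n : ℕ} {X : Type*} [TopologicalSpace X] {ι : Type*} {A : Mfd n X ι}

private theorem Hom_pt (η om : Form A) {b : X → ℝ} (hb : Sm A b) (r : ℝ)
    {c : Fin (n + 1) → ℂ} (hc : ∀ p : Polynomial ℂ, p.natDegree ≤ n + 1 →
      p.eval 1 - p.eval 0 = ∑ a : Fin (n + 1), c a * p.derivative.eval ((a : ℕ) : ℂ))
    {i : ι} {z : E n} (hz : z ∈ (A.c i).target) :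
    (lm ((η.comb om hb r r).w i) z).det
      = (lm ((η.comb om hb r 0).w i) z).det
        + ∑ a : Fin (n + 1), (c a * (r : ℂ)) *
          ((lm ((η.comb om hb r (((a : ℕ) : ℝ) * r)).w i) z).adjugate * lm (vt A b i) z).trace := by
  have h := hc (dp ((r : ℂ) • lm (η.w i) z + lm (om.w i) z) ((r : ℂ) • lm (vt A b i) z))
    ((dp_natDegree _ _).trans (Nat.le_succ n))
  have h1 : (1 : ℂ) • ((r : ℂ) • lm (vt A b i) z) + ((r : ℂ) • lm (η.w i) z + lm (om.w i) z)
      = lm ((η.comb om hb r r).w i) z := by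
    rw [lm_comb η om hb r r hz, one_smul]
    abel
  have h0 : (0 : ℂ) • ((r : ℂ) • lm (vt A b i) z) + ((r : ℂ) • lm (η.w i) z + lm (om.w i) z)
      = lm ((η.comb om hb r 0).w i) z := by
    rw [lm_comb η om hb r 0 hz, zero_smul, Complex.ofReal_zero, zero_smul]
    abel
  have h2 : ∀ a : ℕ, (a : ℂ) • ((r : ℂ) • lm (vt A b i) z)
      + ((r : ℂ) • lm (η.w i) z + lm (om.w i) z)
      = lm ((η.comb om hb r ((a : ℝ) * r)).w i) z := by
    intro a
    rw [lm_comb η om hb r _ hz, smul_smul]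
    push_cast
    abel
  rw [dp_eval, dp_eval, h1, h0, sub_eq_iff_eq_add'] at h
  rw [h]
  congr 1
  refine Finset.sum_congr rfl fun a _ => ?_
  rw [dp_deriv, h2, Matrix.mul_smul, Matrix.trace_smul, smul_eq_mul]
  ring

theorem Itg_det [T2Space X] (P : Pou A) (η om : Form A) {b : X → ℝ} (hb : Sm A b) (r : ℝ) :
    Itg P (fun i z => (lm ((η.comb om hb r r).w i) z).det)
      = Itg P (fun i z => (lm ((η.comb om hb r 0).w i) z).det) := by
  obtain ⟨c, hc⟩ := quad n
  have hd : ∀ a ∈ (Finset.univ : Finset (Fin (n + 1))), IsDens A (fun i z => (c a * (r : ℂ)) *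
      ((lm ((η.comb om hb r (((a : ℕ) : ℝ) * r)).w i) z).adjugate * lm (vt A b i) z).trace) :=
    fun a _ => (dens_tr _ hb).smul _
  rw [Itg_congr P (g := fun i z => (lm ((η.comb om hb r 0).w i) z).det
        + ∑ a ∈ (Finset.univ : Finset (Fin (n + 1))), (c a * (r : ℂ)) *
          ((lm ((η.comb om hb r (((a : ℕ) : ℝ) * r)).w i) z).adjugate * lm (vt A b i) z).trace)
      (fun i z hz => Hom_pt η om hb r hc hz),
    Itg_add P (dens_det _) (IsDens.sum _ (fun a i z => (c a * (r : ℂ)) *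
      ((lm ((η.comb om hb r (((a : ℕ) : ℝ) * r)).w i) z).adjugate * lm (vt A b i) z).trace) hd),
    Itg_sum P _ (fun a i z => (c a * (r : ℂ)) *
      ((lm ((η.comb om hb r (((a : ℕ) : ℝ) * r)).w i) z).adjugate * lm (vt A b i) z).trace) hd]
  rw [Finset.sum_eq_zero, add_zero]
  intro a _
  rw [Itg_smul, Itg_stokes P _ hb, mul_zero]

end Pool.Agent.NDC
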