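import Pool.Agent.NDC.Gdf

/-!
NDC module Kle (size 2): linear algebra of `ν` linear forms.
PROOF. Let `T : E n →ₗ[ℂ] (Fin ν → ℂ)`, `T v j = L j v`. `surj_of_indep`: if the range of `T` is proper, a nonzero linear form `φ` on
`Fin ν → ℂ` vanishes on it (`Submodule.exists_le_ker_of_lt_top`), `φ x = ∑ j, x j * φ (Pi.single j 1)`
(`LinearMap.pi_apply_eq_sum_univ`), so `∑ j, φ (Pi.single j 1) • L j = 0` (`ContinuousLinearMap.ext`), contradiction; see
`dim_surj` in Pool/Agent/CIS/Dim.lean. `indep_of_surj`: `Fintype.linearIndependent_iff`; if `∑ j, c j • L j = 0` choose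
`v` with `L j v = Pi.single k 1 j`. `ker_le`: `finrank (ker T) + ν = n` (`LinearMap.finrank_range_add_finrank_ker`, range `⊤`),
`V ≤ ker T` and `finrank V ≥ n - ν`, so `V = ker T` (`Submodule.eq_of_le_of_finrank_le`).
-/

open scoped ContDiff ComplexConjugate Topology ComplexOrder
open Complex MeasureTheory Matrix

namespace Pool.Agent.NDC

open Pool.Agent.CYF

variable {n ν : ℕ} {L : Fin ν → (E n →L[ℂ] ℂ)}

private noncomputable def Kle_T (L : Fin ν → (E n →L[ℂ] ℂ)) : E n →ₗ[ℂ] (Fin ν → ℂ) :=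
  LinearMap.pi fun j => (L j : E n →ₗ[ℂ] ℂ)

private theorem Kle_T_apply (v : E n) (j : Fin ν) : Kle_T L v j = L j v := rfl

private theorem Kle_range (hL : LinearIndependent ℂ L) : LinearMap.range (Kle_T L) = ⊤ := by
  by_contra hne
  have hlt : LinearMap.range (Kle_T L) < ⊤ := lt_top_iff_ne_top.2 hne
  obtain ⟨φ, hφ, hle⟩ := Submodule.exists_le_ker_of_lt_top _ hlt
  have h1 : ∑ j, φ (Pi.single j 1) • L j = 0 := by
    ext v
    have h2 : φ (Kle_T L v) = 0 := hle ⟨v, rfl⟩
    rw [LinearMap.pi_apply_eq_sum_univ φ] at h2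
    simp only [_root_.sum_apply, _root_.smul_apply,
      _root_.zero_apply, smul_eq_mul]
    rw [← h2]
    refine Finset.sum_congr rfl fun j _ => ?_
    rw [Kle_T_apply, smul_eq_mul, mul_comm]
    congr 2
    ext k
    by_cases h : k = j
    · subst h; simp
    · rw [Pi.single_eq_of_ne h]
      simp [Ne.symm h]
  have h3 := Fintype.linearIndependent_iff.1 hL _ h1
  apply hφ
  refine LinearMap.ext fun x => ?_
  rw [LinearMap.pi_apply_eq_sum_univ φ]
  refine Finset.sum_eq_zero fun j _ => ?_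
  have h4 := h3 j
  have h5 : (fun k => if j = k then (1 : ℂ) else 0) = Pi.single j 1 := by
    ext k
    by_cases h : k = j
    · subst h; simp
    · rw [Pi.single_eq_of_ne h]
      simp [Ne.symm h]
  rw [h5, h4, smul_zero]

theorem surj_of_indep (hL : LinearIndependent ℂ L) (b : Fin ν → ℂ) :
    ∃ v : E n, ∀ j, L j v = b j := by
  have h : b ∈ LinearMap.range (Kle_T L) := by rw [Kle_range hL]; trivial
  obtain ⟨v, hv⟩ := h
  exact ⟨v, fun j => by rw [← Kle_T_apply, hv]⟩

theorem indep_of_surj (h : ∀ b : Fin ν → ℂ, ∃ v : E n, ∀ j, L j v = b j) :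
    LinearIndependent ℂ L := by
  rw [Fintype.linearIndependent_iff]
  intro c hc k
  obtain ⟨v, hv⟩ := h (Pi.single k 1)
  have h1 : (∑ j, c j • L j) v = 0 := by rw [hc]; rfl
  simp only [_root_.sum_apply, _root_.smul_apply, smul_eq_mul,
    hv] at h1
  rw [Finset.sum_eq_single k] at h1
  · simpa using h1
  · intro j _ hj
    rw [Pi.single_eq_of_ne hj, mul_zero]
  · intro hk
    exact absurd (Finset.mem_univ k) hk

theorem ker_le (hL : LinearIndependent ℂ L) {V : Submodule ℂ (E n)}
    (hV : n ≤ Module.finrank ℂ V + ν) (h : ∀ v ∈ V, ∀ j, L j v = 0) {v : E n}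
    (hv : ∀ j, L j v = 0) : v ∈ V := by
  have h1 := LinearMap.finrank_range_add_finrank_ker (Kle_T L)
  rw [Kle_range hL, finrank_top] at h1
  have h2 : Module.finrank ℂ (Fin ν → ℂ) = ν := by simp
  have h3 : Module.finrank ℂ (E n) = n := by simp [E]
  rw [h2, h3] at h1
  have h4 : V ≤ LinearMap.ker (Kle_T L) := by
    intro w hw
    rw [LinearMap.mem_ker]
    ext j
    exact h w hw j
  have h5 : V = LinearMap.ker (Kle_T L) := by
    refine Submodule.eq_of_le_of_finrank_le h4 ?_
    omega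
  rw [h5, LinearMap.mem_ker]
  ext j
  exact hv j

end Pool.Agent.NDC
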