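import Pool.Agent.NDC.Fst
import Pool.Agent.NDC.Lcr

/-!
NDC module Lcd (size 4): the level sets of `2 ν` independent plurisubharmonic functions on the complement of the zero set of a
section.
PROOF. As module Lcb (see ref/CIS_Lev.lean.txt). At a point `y ∈ Ou A (Off A s) i` where the real forms `fderiv ℝ (vt A (u j) i) y` are
linearly independent, every `v` killed by all of them lies in the complex subspace `V` of `part_one` (`real_ker_le`, module Krl), so
`I • v ∈ V` too; this gives the last claim and `fderiv ℝ (vt A G i) y v = 0` for `G = len η m s` (`Sm_len`), for `G`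
plurisubharmonic, and for the real and imaginary part of a holomorphic `g` (chain rule with `Complex.reCLM`, `Complex.imCLM`). By
`loc_const_real` and `comp_const` (module Lcr) all these `G` are constant on `T`. Compactness: `K = {y | len η m s y = len η m s x}` is closed
and contained in `Off A s` (`len_pos`), the `u j` are continuous on `Off A s`, so `{y | y ∈ Off A s ∧ ∀ j, u j y = u j x} ∩ K` is closed; the
closure of `T` is preconnected, contains `x` and is contained in this set, so it is contained in `T`.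
-/

open scoped ContDiff ComplexConjugate Topology ComplexOrder
open Complex MeasureTheory Matrix

namespace Pool.Agent.NDC

open Pool.Agent.CYF

variable {n : ℕ} {X : Type*} [TopologicalSpace X] {ι : Type*} {A : Mfd n X ι}
  {η om : Form A} {m : ℝ} {s : ι → E n → ℂ} {ν : ℕ}

private theorem lcd_inV [T2Space X] [CompactSpace X] (hη : η.Semipositive) (hν : η.RankLE ν)
    (hom : om.Positive) (hs : η.IsSection m s) {u : Fin (2 * ν) → X → ℝ}
    (hu : ∀ j, PshOn A (Off A s) (u j)) {i : ι} {z : E n} (hz : z ∈ Ou A (Off A s) i)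
    (hind : LinearIndependent ℝ (fun j => fderiv ℝ (vt A (u j) i) z)) :
    ∃ V : Submodule ℂ (E n), (∀ v : E n, (∀ j, fderiv ℝ (vt A (u j) i) z v = 0) → v ∈ V) ∧
      ∀ v ∈ V, (∀ b, levi (η.w i) z v b = 0) ∧ fderiv ℝ (vt A (len η m s) i) z v = 0 ∧
      (∀ u : X → ℝ, PshOn A (Off A s) u →
        (∀ b, levi (vt A u i) z v b = 0) ∧ fderiv ℝ (vt A u i) z v = 0) ∧
      ∀ f : X → ℂ, HolOn A (Off A s) f → fderiv ℂ (f ∘ (A.c i).symm) z v = 0 := by
  obtain ⟨V, hV, hv⟩ := part_one hη hν hom hs i z hz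
  refine ⟨V, fun v h => ?_, hv⟩
  exact real_ker_le hind hV (fun v hv' j => ((hv v hv').2.2.1 (u j) (hu j)).2) h

private theorem lcd_cont {Y : Set X} (hY : IsOpen Y) {g : X → ℝ} (hg : SmOn A Y g) :
    ContinuousOn g Y := by
  intro y hy
  refine ContinuousAt.continuousWithinAt ?_
  have hi := mem_ix A y
  have hz : A.c (ix A y) y ∈ Ou A Y (ix A y) := mem_Ou hi hy
  have h1 : ContinuousAt (vt A g (ix A y)) (A.c (ix A y) y) :=
    ((hg (ix A y)).contDiffAt ((isOpen_Ou A hY _).mem_nhds hz)).continuousAt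
  have h2 : ContinuousAt (fun z => (vt A g (ix A y)) (A.c (ix A y) z)) y :=
    ContinuousAt.comp (f := A.c (ix A y)) h1 ((A.c (ix A y)).continuousAt hi)
  refine h2.congr ?_
  filter_upwards [(A.c (ix A y)).open_source.mem_nhds hi] with z hz'
  exact vt_chart hz' g

theorem psh_two [T2Space X] [CompactSpace X] (hη : η.Semipositive) (hν : η.RankLE ν)
    (hom : om.Positive) (hs : η.IsSection m s) {u : Fin (2 * ν) → X → ℝ}
    (hu : ∀ j, PshOn A (Off A s) (u j)) {x : X} (hx : x ∈ Off A s) {T : Set X}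
    (hT : T = connectedComponentIn {y | y ∈ Off A s ∧ ∀ j, u j y = u j x} x)
    (hind : ∀ i, ∀ z ∈ (A.c i).target, (A.c i).symm z ∈ T →
      LinearIndependent ℝ (fun j => fderiv ℝ (vt A (u j) i) z)) :
    IsCompact T ∧ (∀ y ∈ T, len η m s y = len η m s x) ∧
      (∀ w : X → ℝ, PshOn A (Off A s) w → ∀ y ∈ T, w y = w x) ∧
      (∀ g : X → ℂ, HolOn A (Off A s) g → ∀ y ∈ T, g y = g x) ∧
      ∀ i, ∀ z ∈ (A.c i).target, (A.c i).symm z ∈ T → ∀ v : E n,
        (∀ j, fderiv ℝ (vt A (u j) i) z v = 0) →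
          (∀ j, fderiv ℝ (vt A (u j) i) z (I • v) = 0) ∧ ∀ b, levi (η.w i) z v b = 0 := by
  set L : Set X := {y | y ∈ Off A s ∧ ∀ j, u j y = u j x} with hL
  have hO : IsOpen (Off A s) := isOpen_Off hs
  have hxL : x ∈ L := ⟨hx, fun _ => rfl⟩
  have hsub : T ⊆ L := by
    rw [hT]
    exact connectedComponentIn_subset _ _
  have hmem : ∀ i, ∀ z ∈ (A.c i).target, (A.c i).symm z ∈ T → z ∈ Ou A (Off A s) i :=
    fun i z hz hzT => ⟨hz, (hsub hzT).1⟩
  have main : ∀ G : X → ℝ, SmOn A (Off A s) G →
      (∀ i, ∀ y ∈ Ou A (Off A s) i, LinearIndependent ℝ (fun j => fderiv ℝ (vt A (u j) i) y) →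
        ∀ v : E n, (∀ j, fderiv ℝ (vt A (u j) i) y v = 0) → fderiv ℝ (vt A G i) y v = 0) →
      ∀ y ∈ T, G y = G x := by
    intro G hG hd
    rw [hT]
    refine comp_const hxL fun y hy => ?_
    rw [← hT] at hy
    have hyL := hsub hy
    have hi := mem_ix A y
    have hli := hind (ix A y) (A.c (ix A y) y) ((A.c (ix A y)).map_source hi) (by
      rw [(A.c (ix A y)).left_inv hi]
      exact hy)
    have h1 := loc_const_real hO (fun j => (hu j).1) hG hyL.1 hi (hd (ix A y)) hli
    filter_upwards [h1] with y' hy' hyL'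
    exact hy' fun j => by rw [hyL'.2 j, hyL.2 j]
  have hlen : ∀ y ∈ T, len η m s y = len η m s x := by
    refine main _ ((Sm_len hs).smOn _) fun i y hy hli v hv => ?_
    obtain ⟨V, hV, hV2⟩ := lcd_inV hη hν hom hs hu hy hli
    exact (hV2 v (hV v hv)).2.1
  have hpsh : ∀ w : X → ℝ, PshOn A (Off A s) w → ∀ y ∈ T, w y = w x := by
    intro w hw
    refine main _ hw.1 fun i y hy hli v hv => ?_
    obtain ⟨V, hV, hV2⟩ := lcd_inV hη hν hom hs hu hy hli
    exact ((hV2 v (hV v hv)).2.2.1 w hw).2
  have hhol : ∀ g : X → ℂ, HolOn A (Off A s) g → ∀ y ∈ T, g y = g x := by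
    intro g hg y hy
    have hdg : ∀ i, ∀ y ∈ Ou A (Off A s) i, DifferentiableAt ℂ (g ∘ (A.c i).symm) y :=
      fun i y hy =>
        ((hg i).contDiffAt ((isOpen_Ou A hO i).mem_nhds hy)).differentiableAt (by simp)
    have hz : ∀ i, ∀ y ∈ Ou A (Off A s) i,
        LinearIndependent ℝ (fun j => fderiv ℝ (vt A (u j) i) y) → ∀ v : E n,
        (∀ j, fderiv ℝ (vt A (u j) i) y v = 0) → fderiv ℝ (g ∘ (A.c i).symm) y v = 0 := by
      intro i y hy hli v hv
      obtain ⟨V, hV, hV2⟩ := lcd_inV hη hν hom hs hu hy hli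
      rw [(hdg i y hy).fderiv_restrictScalars ℝ]
      exact (hV2 v (hV v hv)).2.2.2 g hg
    refine Complex.ext ?_ ?_
    · refine main (fun y => (g y).re) (fun i => ?_) (fun i y hy hli v hv => ?_) y hy
      · exact Complex.reCLM.contDiff.comp_contDiffOn ((hg i).restrict_scalars ℝ)
      · have h1 : HasFDerivAt (vt A (fun y => (g y).re) i)
            (Complex.reCLM.comp (fderiv ℝ (g ∘ (A.c i).symm) y)) y :=
          Complex.reCLM.hasFDerivAt.comp y ((hdg i y hy).restrictScalars ℝ).hasFDerivAt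
        rw [h1.fderiv, ContinuousLinearMap.comp_apply, hz i y hy hli v hv, map_zero]
    · refine main (fun y => (g y).im) (fun i => ?_) (fun i y hy hli v hv => ?_) y hy
      · exact Complex.imCLM.contDiff.comp_contDiffOn ((hg i).restrict_scalars ℝ)
      · have h1 : HasFDerivAt (vt A (fun y => (g y).im) i)
            (Complex.imCLM.comp (fderiv ℝ (g ∘ (A.c i).symm) y)) y :=
          Complex.imCLM.hasFDerivAt.comp y ((hdg i y hy).restrictScalars ℝ).hasFDerivAt
        rw [h1.fderiv, ContinuousLinearMap.comp_apply, hz i y hy hli v hv, map_zero]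
  refine ⟨?_, hlen, hpsh, hhol, ?_⟩
  · set K : Set X := {y | len η m s y = len η m s x} with hK
    have hKc : IsClosed K := isClosed_eq (Sm_len hs).continuous continuous_const
    have hKO : K ⊆ Off A s := by
      intro y hy
      rw [← len_pos hs]
      have h1 : len η m s y = len η m s x := hy
      rw [h1]
      exact (len_pos hs).2 hx
    have hLK : IsClosed (L ∩ K) := by
      have h1 : L ∩ K = K ∩ (fun y => fun j => u j y) ⁻¹' {fun j => u j x} := by
        ext y
        constructor
        · rintro ⟨h1, h2⟩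
          exact ⟨h2, funext fun j => h1.2 j⟩
        · rintro ⟨h1, h2⟩
          exact ⟨⟨hKO h1, fun j => congrFun h2 j⟩, h1⟩
      rw [h1]
      refine ContinuousOn.preimage_isClosed_of_isClosed ?_ hKc isClosed_singleton
      exact continuousOn_pi.2 fun j => (lcd_cont hO (hu j).1).mono hKO
    have hZ : T ⊆ L ∩ K := fun y hy => ⟨hsub hy, hlen y hy⟩
    have hcl : closure T ⊆ L ∩ K := hLK.closure_subset_iff.2 hZ
    have hcl2 : closure T ⊆ T := by
      have h1 : IsPreconnected (closure T) := by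
        rw [hT]
        exact isPreconnected_connectedComponentIn.closure
      have h2 : x ∈ closure T := by
        refine subset_closure ?_
        rw [hT]
        exact mem_connectedComponentIn hxL
      have h3 := h1.subset_connectedComponentIn h2 fun y hy => (hcl hy).1
      rw [← hT] at h3
      exact h3
    exact (isClosed_of_closure_subset hcl2).isCompact
  · intro i z hz hzT v hv
    obtain ⟨V, hV, hV2⟩ := lcd_inV hη hν hom hs hu (hmem i z hz hzT) (hind i z hz hzT)
    have hvV := hV v hv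
    exact ⟨fun j => ((hV2 _ (V.smul_mem I hvV)).2.2.1 (u j) (hu j)).2, (hV2 v hvV).1⟩

end Pool.Agent.NDC
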