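import Pool.Agent.NDC.Glo

/-!
NDC module Len (size 2): the function `|s|²`.
PROOF. `len_chart`: with `x = (A.c i).symm z` and `j = ix A x`, `x ∈ (A.c j).source` (`mem_ix`), `hs.norm i j z`
gives the equality, since `(A.c j ∘ (A.c i).symm) z = A.c j x`. `Sm_len`: `ContDiffOn.congr` with `len_chart`,
`(hs.hol i).restrict_scalars ℝ`, `ContDiffOn.norm_sq`, `ContDiffOn.exp`. `mem_Off`: if `s i (A.c i x) ≠ 0` for one chart
then for all: both sides of `hs.norm` vanish iff `s = 0` (`Real.exp_pos`). `len_pos`: definition of `len` and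
`mem_Off` for `ix A x`. `isOpen_Off`: `Off A s = {x | 0 < len η m s x}`, `(Sm_len hs).continuous`.
-/

open scoped ContDiff ComplexConjugate Topology ComplexOrder
open Complex MeasureTheory Matrix

namespace Pool.Agent.NDC

open Pool.Agent.CYF

variable {n : ℕ} {X : Type*} [TopologicalSpace X] {ι : Type*} {A : Mfd n X ι}
  {η : Form A} {m : ℝ} {s : ι → E n → ℂ}

theorem len_chart (hs : η.IsSection m s) {i : ι} {z : E n} (hz : z ∈ (A.c i).target) :
    vt A (len η m s) i z = ‖s i z‖ ^ 2 * Real.exp (-(m * η.w i z)) :=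
  hs.norm i (ix A ((A.c i).symm z)) z hz (mem_ix A _)

theorem Sm_len (hs : η.IsSection m s) : Sm A (len η m s) := by
  intro i
  have h1 : ContDiffOn ℝ ∞ (s i) (A.c i).target := (hs.hol i).restrict_scalars ℝ
  have h2 : ContDiffOn ℝ ∞ (fun z => ‖s i z‖ ^ 2) (A.c i).target := h1.norm_sq ℝ
  have h3 : ContDiffOn ℝ ∞ (fun z => Real.exp (-(m * η.w i z))) (A.c i).target :=
    (contDiffOn_const.mul (η.smooth i)).neg.exp
  exact (h2.mul h3).congr fun z hz => len_chart hs hz

private theorem Len_iff (hs : η.IsSection m s) {i j : ι} {x : X} (hi : x ∈ (A.c i).source)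
    (hj : x ∈ (A.c j).source) (h : s i (A.c i x) ≠ 0) : s j (A.c j x) ≠ 0 := by
  intro h0
  have hx : (A.c i).symm (A.c i x) = x := (A.c i).left_inv hi
  have h1 := hs.norm i j (A.c i x) ((A.c i).map_source hi) (by rw [hx]; exact hj)
  simp only [Function.comp, hx, h0, norm_zero] at h1
  have h2 : (0 : ℝ) < ‖s i (A.c i x)‖ ^ 2 * Real.exp (-(m * η.w i (A.c i x))) :=
    mul_pos (pow_pos (norm_pos_iff.2 h) 2) (Real.exp_pos _)
  rw [← h1] at h2
  norm_num at h2

theorem mem_Off (hs : η.IsSection m s) {i : ι} {x : X} (hi : x ∈ (A.c i).source) :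
    x ∈ Off A s ↔ s i (A.c i x) ≠ 0 :=
  ⟨fun h => h i hi, fun h _ hj => Len_iff hs hi hj h⟩

theorem len_pos (hs : η.IsSection m s) {x : X} : 0 < len η m s x ↔ x ∈ Off A s := by
  rw [mem_Off hs (mem_ix A x)]
  unfold len
  constructor
  · intro h h0
    rw [h0, norm_zero] at h
    norm_num at h
  · intro h
    exact mul_pos (pow_pos (norm_pos_iff.2 h) 2) (Real.exp_pos _)

theorem isOpen_Off (hs : η.IsSection m s) : IsOpen (Off A s) := by
  have h : Off A s = {x | 0 < len η m s x} := by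
    ext x
    exact (len_pos hs).symm
  rw [h]
  exact isOpen_lt continuous_const (Sm_len hs).continuous

end Pool.Agent.NDC
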