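import Pool.Agent.NDC.Mkm
import Pool.Agent.NDC.Hol

/-!
NDC module Mdr (size 3): one subspace for all semipositive metrics.
PROOF. The set of numbers `finrank ℂ (KM η b i z)`, `b` with `η.IsPot b`, is nonempty (`b = 0`); let `b0` attain the minimum,
`V = KM η b0 i z` (`metric_kernel`). Given `b` with `η.IsPot b`, let `c = 1/2 sp b0 + 1/2 sp b` (`pot_sp`, `pot_avg`, module Mfi).
`KM η c i z ≤ KM η b0 i z ⊓ KM η b i z`: for `a` in the left side `levi η a a = 0`, `levi c a a = 0`, so by `pot_avg_levi` the sum of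
`levi η a a + levi (sp b0) a a` and `levi η a a + levi (sp b) a a` is `0`; both have nonnegative real part (`pot_sp`), so both real parts
vanish; `pot_sp_ker` for `b0` and for `b`. By minimality `KM η c i z = V` (`Submodule.eq_of_le_of_finrank_le`), so
`V ≤ KM η b i z`. `fderiv ℝ (vt A b i) z a = 2 * (d10 (cx (vt A b i)) z a).re = 0` (`fderiv_real`, module Hol).
-/

open scoped ContDiff ComplexConjugate Topology ComplexOrder
open Complex MeasureTheory Matrix

namespace Pool.Agent.NDC

open Pool.Agent.CYF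

variable {n : ℕ} {X : Type*} [TopologicalSpace X] {ι : Type*} {A : Mfd n X ι}
  {η om : Form A} {ν : ℕ}

private theorem Mdr_zero (hη : η.Semipositive) : η.IsPot (fun _ => (0 : ℝ)) := by
  refine ⟨fun i => contDiffOn_const, fun i z hz a => ?_⟩
  have h : levi (vt A (fun _ => (0 : ℝ)) i) z a a = 0 := by
    have h0 : vt A (fun _ : X => (0 : ℝ)) i = fun _ => 0 := rfl
    rw [h0]
    unfold levi
    simp only [d01_const]
    exact d10_const _
  rw [h, add_zero]
  exact hη i z hz a

theorem metric_V [T2Space X] [CompactSpace X] (hη : η.Semipositive) (hν : η.RankLE ν)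
    (hom : om.Positive) (i : ι) (z : E n) (hz : z ∈ (A.c i).target) :
    ∃ V : Submodule ℂ (E n), n ≤ Module.finrank ℂ V + ν ∧ ∀ a ∈ V,
      (∀ c, levi (η.w i) z a c = 0) ∧ ∀ b : X → ℝ, η.IsPot b →
        (∀ c, levi (vt A b i) z a c = 0) ∧ fderiv ℝ (vt A b i) z a = 0 := by
  classical
  have hP : ∃ d : ℕ, ∃ b : X → ℝ, η.IsPot b ∧ Module.finrank ℂ (KM η b i z) = d :=
    ⟨_, fun _ => 0, Mdr_zero hη, rfl⟩
  obtain ⟨b0, hb0, hd⟩ := Nat.find_spec hP
  refine ⟨KM η b0 i z, metric_kernel hη hν hom hb0 hz, fun a ha => ⟨ha.1, fun b hb => ?_⟩⟩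
  have hc0 := pot_sp hη hb0
  have hc1 := pot_sp hη hb
  have hc := pot_avg hc0 hc1
  have hle : KM η (fun x => 1 / 2 * sp (b0 x) + 1 / 2 * sp (b x)) i z
      ≤ KM η b0 i z ⊓ KM η b i z := by
    intro v hv
    have h1 : levi (η.w i) z v v = 0 := hv.1 v
    have h2 : levi (vt A (fun x => 1 / 2 * sp (b0 x) + 1 / 2 * sp (b x)) i) z v v = 0 := hv.2.1 v
    have h3 := pot_avg_levi hc0 hc1 hz v v
    have n0 := hc0.nonneg i z hz v
    have n1 := hc1.nonneg i z hz v
    rw [h2] at h3
    have h4 : levi (vt A (fun x => sp (b0 x)) i) z v v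
        + levi (vt A (fun x => sp (b x)) i) z v v = 0 := by
      linear_combination (-2 : ℂ) * h3
    have h5 := congrArg Complex.re h4
    rw [Complex.add_re, Complex.zero_re] at h5
    rw [h1, zero_add] at n0 n1
    have e0 : (levi (η.w i) z v v + levi (vt A (fun x => sp (b0 x)) i) z v v).re = 0 := by
      rw [h1, zero_add]
      linarith
    have e1 : (levi (η.w i) z v v + levi (vt A (fun x => sp (b x)) i) z v v).re = 0 := by
      rw [h1, zero_add]
      linarith
    exact ⟨pot_sp_ker hη hb0 hz e0, pot_sp_ker hη hb hz e1⟩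
  have hmin : Module.finrank ℂ (KM η b0 i z)
      ≤ Module.finrank ℂ (KM η (fun x => 1 / 2 * sp (b0 x) + 1 / 2 * sp (b x)) i z) := by
    rw [hd]
    exact Nat.find_min' hP ⟨_, hc, rfl⟩
  have heq := Submodule.eq_of_le_of_finrank_le (hle.trans inf_le_left) hmin
  have hab : a ∈ KM η b i z := by
    have h6 : a ∈ KM η (fun x => 1 / 2 * sp (b0 x) + 1 / 2 * sp (b x)) i z := by
      rw [heq]
      exact ha
    exact (hle h6).2
  refine ⟨hab.2.1, ?_⟩
  have hdf : DifferentiableAt ℝ (vt A b i) z :=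
    ((hb.smooth i).contDiffAt ((A.c i).open_target.mem_nhds hz)).differentiableAt (by simp)
  rw [fderiv_real hdf, hab.2.2, Complex.zero_re, mul_zero]

end Pool.Agent.NDC
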