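import Pool.Agent.NDC.Glo

/-!
NDC: further semipositive metrics (definitions).
-/

open scoped ContDiff ComplexConjugate Topology ComplexOrder
open Complex MeasureTheory Matrix

namespace Pool.Agent.NDC

open Pool.Agent.CYF

variable {n : ℕ} {X : Type*} [TopologicalSpace X] {ι : Type*} {A : Mfd n X ι}

/-- `b` is a smooth function on `X` such that `η + i ∂∂̄ b` is semipositive. If `η` is the curvature
of a metric `h` of a line bundle, the metric `h exp (-b)` has the semipositive curvature `η + i ∂∂̄ b`. -/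
structure Form.IsPot (η : Form A) (b : X → ℝ) : Prop where
  smooth : ∀ i, ContDiffOn ℝ ∞ (vt A b i) (A.c i).target
  nonneg : ∀ i, ∀ z ∈ (A.c i).target, ∀ a : E n,
    0 ≤ (levi (η.w i) z a a + levi (vt A b i) z a a).re

/-- the function `log (1 + exp t)` -/
noncomputable def sp (t : ℝ) : ℝ := Real.log (1 + Real.exp t)

/-- The vectors `a` at the point `z` of the chart `i` with `η(a, ·) = 0`, `∂∂̄b(a, ·) = 0` and
`∂b(a) = 0`. -/
noncomputable def KM {A : Mfd n X ι} (η : Form A) (b : X → ℝ) (i : ι) (z : E n) :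
    Submodule ℂ (E n) where
  carrier := {a | (∀ c, levi (η.w i) z a c = 0) ∧ (∀ c, levi (vt A b i) z a c = 0) ∧
    d10 (cx (vt A b i)) z a = 0}
  add_mem' {a a'} h h' := by
    refine ⟨fun c => ?_, fun c => ?_, ?_⟩
    · have h1 := h.1 c
      have h2 := h'.1 c
      unfold levi at h1 h2 ⊢
      rw [d10_add_vec, h1, h2, add_zero]
    · have h1 := h.2.1 c
      have h2 := h'.2.1 c
      unfold levi at h1 h2 ⊢
      rw [d10_add_vec, h1, h2, add_zero]
    · rw [d10_add_vec, h.2.2, h'.2.2, add_zero]
  zero_mem' := by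
    refine ⟨fun c => ?_, fun c => ?_, ?_⟩ <;> try unfold levi
    all_goals exact d10_zero_vec _ _
  smul_mem' c a h := by
    refine ⟨fun b => ?_, fun b => ?_, ?_⟩
    · have h1 := h.1 b
      unfold levi at h1 ⊢
      rw [d10_smul_vec, h1, mul_zero]
    · have h1 := h.2.1 b
      unfold levi at h1 ⊢
      rw [d10_smul_vec, h1, mul_zero]
    · rw [d10_smul_vec, h.2.2, mul_zero]

end Pool.Agent.NDC
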