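import Pool.Agent.NDC.Phi
import Pool.Agent.NDC.Cmp
import Pool.Agent.NDC.Psd
import Pool.Agent.NDC.Krk

/-!
NDC module Mfi (size 3): the potential `sp ∘ b`.
PROOF. On the open set `(A.c i).target`, `vt A (fun x => sp (b x)) i = fun y => sp (vt A b i y)` (rfl), so by `levi_comp` (module
Cmp), with `p = deriv sp (vt A b i z) ∈ (0, 1)`, `q = deriv (deriv sp) (..) > 0` (module Phi),
`levi η a a + levi (sp b) a a = (1 - p) * levi η a a + p * (levi η a a + levi b a a) + q * ‖d10 (cx b) z a‖^2`: three terms with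
nonnegative real part: `pot_sp`. If the real part of the sum is `0`, all three vanish: `d10 (cx b) z a = 0`,
`(levi η a a).re = 0`, `(levi η a a + levi b a a).re = 0`. `levi η z a c = 0` for all `c`: `psd_ker` (module Krk) for `lm (η.w i) z`
(`lm_psd`, `levi_eq_sum`). Same for the function `η.w i + vt A b i` (its Levi form is the sum: `levi_eq_sum`,
`LM_add`), whose Levi form is nonnegative: `levi η z a c + levi b z a c = 0`, so `levi b z a c = 0`.
`pot_avg`: `levi` of `1/2 b + 1/2 b'` (`LM_add`, `LM_const_mul`).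
-/

open scoped ContDiff ComplexConjugate Topology ComplexOrder
open Complex MeasureTheory Matrix

namespace Pool.Agent.NDC

open Pool.Agent.CYF

variable {n : ℕ} {X : Type*} [TopologicalSpace X] {ι : Type*} {A : Mfd n X ι}
  {η : Form A} {b b' : X → ℝ}

private theorem Mfi_levi_add {v v' : E n → ℝ} {U : Set (E n)} (hU : IsOpen U)
    (hv : ContDiffOn ℝ ∞ v U) (hv' : ContDiffOn ℝ ∞ v' U) {z : E n} (hz : z ∈ U) (a c : E n) :
    levi (fun y => v y + v' y) z a c = levi v z a c + levi v' z a c := by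
  have hn := hU.mem_nhds hz
  rw [levi_eq_sum ((hv.add hv').contDiffAt hn), levi_eq_sum (hv.contDiffAt hn),
    levi_eq_sum (hv'.contDiffAt hn), ← Finset.sum_add_distrib]
  refine Finset.sum_congr rfl fun k _ => ?_
  rw [← Finset.sum_add_distrib]
  refine Finset.sum_congr rfl fun l _ => ?_
  rw [LM_add hU hv hv' hz]
  ring

private theorem Mfi_levi_mul {v : E n → ℝ} {U : Set (E n)} (hU : IsOpen U)
    (hv : ContDiffOn ℝ ∞ v U) {z : E n} (hz : z ∈ U) (r : ℝ) (a c : E n) :
    levi (fun y => r * v y) z a c = r * levi v z a c := by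
  have hn := hU.mem_nhds hz
  rw [levi_eq_sum ((contDiffOn_const.mul hv).contDiffAt hn), levi_eq_sum (hv.contDiffAt hn),
    Finset.mul_sum]
  refine Finset.sum_congr rfl fun k _ => ?_
  rw [Finset.mul_sum]
  refine Finset.sum_congr rfl fun l _ => ?_
  rw [LM_const_mul hU hv hz]
  ring

private theorem Mfi_ker {w : E n → ℝ} {U : Set (E n)} (hU : IsOpen U) (hw : ContDiffOn ℝ ∞ w U)
    {z : E n} (hz : z ∈ U) (h : ∀ a : E n, 0 ≤ (levi w z a a).re) {a : E n}
    (ha : (levi w z a a).re = 0) (c : E n) : levi w z a c = 0 := by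
  have hn := hU.mem_nhds hz
  have h1 := lm_psd hU hw hz h
  have h2 : (∑ k, ∑ l, a k * conj (a l) * lm w z k l).re = 0 := by
    rw [levi_eq_sum (hw.contDiffAt hn)] at ha
    exact ha
  have h3 := (psd_ker h1 a).1 h2
  rw [levi_eq_sum (hw.contDiffAt hn), Finset.sum_comm]
  refine Finset.sum_eq_zero fun l _ => ?_
  have h4 : ∑ k, a k * conj (c l) * LM w z k l = conj (c l) * ∑ k, a k * lm w z k l := by
    rw [Finset.mul_sum]
    refine Finset.sum_congr rfl fun k _ => ?_
    rw [lm_apply]
    ring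
  rw [h4, h3 l, mul_zero]

private theorem Mfi_formula (hb : η.IsPot b) {i : ι} {z : E n} (hz : z ∈ (A.c i).target)
    (a : E n) :
    (levi (η.w i) z a a + levi (vt A (fun x => sp (b x)) i) z a a).re
      = (1 - deriv sp (vt A b i z)) * (levi (η.w i) z a a).re
        + deriv sp (vt A b i z) * (levi (η.w i) z a a + levi (vt A b i) z a a).re
        + deriv (deriv sp) (vt A b i z) * ‖d10 (cx (vt A b i)) z a‖ ^ 2 := by
  have h1 : levi (vt A (fun x => sp (b x)) i) z a a
      = ((deriv (deriv sp) (vt A b i z) : ℝ) : ℂ)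
          * (d10 (cx (vt A b i)) z a * conj (d10 (cx (vt A b i)) z a))
        + ((deriv sp (vt A b i z) : ℝ) : ℂ) * levi (vt A b i) z a a :=
    levi_comp (A.c i).open_target (hb.smooth i) contDiff_sp hz a a
  rw [h1, Complex.mul_conj, Complex.add_re, Complex.add_re, Complex.add_re, Complex.re_ofReal_mul,
    Complex.re_ofReal_mul, Complex.ofReal_re, Complex.normSq_eq_norm_sq]
  ring

theorem pot_sp (hη : η.Semipositive) (hb : η.IsPot b) : η.IsPot (fun x => sp (b x)) := by
  refine ⟨fun i => ?_, fun i z hz a => ?_⟩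
  · show ContDiffOn ℝ ∞ (fun y => sp (vt A b i y)) (A.c i).target
    exact contDiff_sp.comp_contDiffOn (hb.smooth i)
  · rw [Mfi_formula hb hz a]
    have h1 := hη i z hz a
    have h2 := hb.nonneg i z hz a
    have h3 := deriv_sp_pos (vt A b i z)
    have h4 := deriv_sp_lt (vt A b i z)
    have h5 := deriv2_sp_pos (vt A b i z)
    have h6 : 0 ≤ (1 - deriv sp (vt A b i z)) * (levi (η.w i) z a a).re :=
      mul_nonneg (by linarith) h1
    have h7 : 0 ≤ deriv sp (vt A b i z) * (levi (η.w i) z a a + levi (vt A b i) z a a).re :=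
      mul_nonneg h3.le h2
    have h8 : 0 ≤ deriv (deriv sp) (vt A b i z) * ‖d10 (cx (vt A b i)) z a‖ ^ 2 :=
      mul_nonneg h5.le (by positivity)
    linarith

theorem pot_sp_ker (hη : η.Semipositive) (hb : η.IsPot b) {i : ι} {z : E n}
    (hz : z ∈ (A.c i).target) {a : E n}
    (h : (levi (η.w i) z a a + levi (vt A (fun x => sp (b x)) i) z a a).re = 0) :
    (∀ c, levi (η.w i) z a c = 0) ∧ (∀ c, levi (vt A b i) z a c = 0) ∧
      d10 (cx (vt A b i)) z a = 0 := by
  rw [Mfi_formula hb hz a] at h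
  have h1 := hη i z hz a
  have h2 := hb.nonneg i z hz a
  have h3 := deriv_sp_pos (vt A b i z)
  have h4 := deriv_sp_lt (vt A b i z)
  have h5 := deriv2_sp_pos (vt A b i z)
  have h6 : 0 ≤ (1 - deriv sp (vt A b i z)) * (levi (η.w i) z a a).re :=
    mul_nonneg (by linarith) h1
  have h7 : 0 ≤ deriv sp (vt A b i z) * (levi (η.w i) z a a + levi (vt A b i) z a a).re :=
    mul_nonneg h3.le h2
  have h8 : 0 ≤ deriv (deriv sp) (vt A b i z) * ‖d10 (cx (vt A b i)) z a‖ ^ 2 :=
    mul_nonneg h5.le (by positivity)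
  have e6 : (1 - deriv sp (vt A b i z)) * (levi (η.w i) z a a).re = 0 := by linarith
  have e7 : deriv sp (vt A b i z) * (levi (η.w i) z a a + levi (vt A b i) z a a).re = 0 := by
    linarith
  have e8 : deriv (deriv sp) (vt A b i z) * ‖d10 (cx (vt A b i)) z a‖ ^ 2 = 0 := by linarith
  have f6 : (levi (η.w i) z a a).re = 0 := by
    rcases mul_eq_zero.1 e6 with h9 | h9
    · exfalso
      linarith
    · exact h9
  have f7 : (levi (η.w i) z a a + levi (vt A b i) z a a).re = 0 := by
    rcases mul_eq_zero.1 e7 with h9 | h9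
    · exact absurd h9 h3.ne'
    · exact h9
  have f8 : d10 (cx (vt A b i)) z a = 0 := by
    rcases mul_eq_zero.1 e8 with h9 | h9
    · exact absurd h9 h5.ne'
    · exact norm_eq_zero.1 (pow_eq_zero_iff (two_ne_zero)|>.1 h9)
  have hO := (A.c i).open_target
  have g1 : ∀ c, levi (η.w i) z a c = 0 := fun c => Mfi_ker hO (η.smooth i) hz (hη i z hz) f6 c
  refine ⟨g1, fun c => ?_, f8⟩
  have hs : ContDiffOn ℝ ∞ (fun y => η.w i y + vt A b i y) (A.c i).target :=
    (η.smooth i).add (hb.smooth i)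
  have hadd : ∀ p q : E n, levi (fun y => η.w i y + vt A b i y) z p q
      = levi (η.w i) z p q + levi (vt A b i) z p q := fun p q =>
    Mfi_levi_add hO (η.smooth i) (hb.smooth i) hz p q
  have g2 : levi (fun y => η.w i y + vt A b i y) z a c = 0 := by
    refine Mfi_ker hO hs hz (fun p => ?_) ?_ c
    · rw [hadd]
      exact hb.nonneg i z hz p
    · rw [hadd]
      exact f7
  rw [hadd, g1 c, zero_add] at g2
  exact g2

theorem pot_avg_levi (hb : η.IsPot b) (hb' : η.IsPot b') {i : ι} {z : E n}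
    (hz : z ∈ (A.c i).target) (a c : E n) :
    levi (vt A (fun x => 1 / 2 * b x + 1 / 2 * b' x) i) z a c
      = 1 / 2 * levi (vt A b i) z a c + 1 / 2 * levi (vt A b' i) z a c := by
  have hO := (A.c i).open_target
  have h1 : levi (vt A (fun x => 1 / 2 * b x + 1 / 2 * b' x) i) z a c
      = levi (fun y => 1 / 2 * vt A b i y + 1 / 2 * vt A b' i y) z a c := rfl
  rw [h1, Mfi_levi_add hO (contDiffOn_const.mul (hb.smooth i))
    (contDiffOn_const.mul (hb'.smooth i)) hz, Mfi_levi_mul hO (hb.smooth i) hz,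
    Mfi_levi_mul hO (hb'.smooth i) hz]
  push_cast
  ring

theorem pot_avg (hb : η.IsPot b) (hb' : η.IsPot b') :
    η.IsPot (fun x => 1 / 2 * b x + 1 / 2 * b' x) := by
  refine ⟨fun i => ?_, fun i z hz a => ?_⟩
  · exact (contDiffOn_const.mul (hb.smooth i)).add (contDiffOn_const.mul (hb'.smooth i))
  · rw [pot_avg_levi hb hb' hz]
    have h1 := hb.nonneg i z hz a
    have h2 := hb'.nonneg i z hz a
    rw [Complex.add_re] at h1 h2
    have h3 : (levi (η.w i) z a a + (1 / 2 * levi (vt A b i) z a a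
        + 1 / 2 * levi (vt A b' i) z a a)).re
        = (levi (η.w i) z a a).re + (1 / 2 * (levi (vt A b i) z a a).re
        + 1 / 2 * (levi (vt A b' i) z a a).re) := by
      have h4 : (1 / 2 : ℂ) = ((1 / 2 : ℝ) : ℂ) := by push_cast; rfl
      rw [h4, Complex.add_re, Complex.add_re, Complex.re_ofReal_mul, Complex.re_ofReal_mul]
    rw [h3]
    linarith

end Pool.Agent.NDC
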