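import Pool.Agent.NDC.Prc
import Pool.Agent.NDC.Mfi

/-!
NDC module Mkm (size 2): the dimension estimate for one metric.
PROOF. `principle` (module Prc) for `fun x => sp (b x)` (`pot_sp`, module Mfi): the matrix
`F = lm (η.w i) z + lm (vt A (fun x => sp (b x)) i) z` is positive semidefinite at all points (apply `lm_psd`, module Psd, to the
function `η.w i + vt A (..) i` on the open target; `LM_add`; its Levi form is the sum of the two Levi forms by
`levi_eq_sum`) and so it has rank `≤ ν`. `ker_dim` (module Krk) with `V = KM η b i z`: if `∑ k, a k * F k l = 0` for all `l` then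
`levi η a a + levi (sp b) a a = ∑ k, ∑ l, a k * conj (a l) * F k l = 0` (`levi_eq_sum`), and `pot_sp_ker`.
-/

open scoped ContDiff ComplexConjugate Topology ComplexOrder
open Complex MeasureTheory Matrix

namespace Pool.Agent.NDC

open Pool.Agent.CYF

variable {n : ℕ} {X : Type*} [TopologicalSpace X] {ι : Type*} {A : Mfd n X ι}
  {η om : Form A} {b : X → ℝ} {ν : ℕ}

theorem metric_kernel [T2Space X] [CompactSpace X] (hη : η.Semipositive) (hν : η.RankLE ν)
    (hom : om.Positive) (hb : η.IsPot b) {i : ι} {z : E n} (hz : z ∈ (A.c i).target) :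
    n ≤ Module.finrank ℂ (KM η b i z) + ν := by
  have hs := pot_sp hη hb
  have key : ∀ i, ∀ z ∈ (A.c i).target, ∀ a c : E n,
      levi (η.w i) z a c + levi (vt A (fun x => sp (b x)) i) z a c
        = ∑ k, ∑ l, a k * conj (c l) *
          (lm (η.w i) z + lm (vt A (fun x => sp (b x)) i) z) k l := by
    intro i z hz a c
    rw [levi_eq_sum ((η.smooth i).contDiffAt ((A.c i).open_target.mem_nhds hz)),
      levi_eq_sum ((hs.smooth i).contDiffAt ((A.c i).open_target.mem_nhds hz)),
      ← Finset.sum_add_distrib]
    refine Finset.sum_congr rfl fun k _ => ?_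
    rw [← Finset.sum_add_distrib]
    refine Finset.sum_congr rfl fun l _ => ?_
    rw [Matrix.add_apply, lm_apply, lm_apply, mul_add]
  have hF : ∀ i, ∀ z ∈ (A.c i).target,
      (lm (η.w i) z + lm (vt A (fun x => sp (b x)) i) z).PosSemidef := by
    intro i z hz
    have hO := (A.c i).open_target
    have hsum : lm (fun y => η.w i y + vt A (fun x => sp (b x)) i y) z
        = lm (η.w i) z + lm (vt A (fun x => sp (b x)) i) z := by
      ext k l
      rw [Matrix.add_apply, lm_apply, lm_apply, lm_apply]
      exact LM_add hO (η.smooth i) (hs.smooth i) hz k l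
    rw [← hsum]
    refine lm_psd hO ((η.smooth i).add (hs.smooth i)) hz fun a => ?_
    have h1 := hs.nonneg i z hz a
    rw [key i z hz a a, ← hsum] at h1
    rw [levi_eq_sum (((η.smooth i).add (hs.smooth i)).contDiffAt (hO.mem_nhds hz))]
    exact h1
  have hr := principle η om hη hν hom hs.smooth hF i z hz
  refine ker_dim hr _ fun a ha => ?_
  have h0 : (levi (η.w i) z a a + levi (vt A (fun x => sp (b x)) i) z a a).re = 0 := by
    rw [key i z hz a a]
    have h1 : ∑ k, ∑ l, a k * conj (a l) *
        (lm (η.w i) z + lm (vt A (fun x => sp (b x)) i) z) k l = 0 := by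
      rw [Finset.sum_comm]
      refine Finset.sum_eq_zero fun l _ => ?_
      have h2 := ha l
      calc ∑ k, a k * conj (a l) * (lm (η.w i) z + lm (vt A (fun x => sp (b x)) i) z) k l
          = conj (a l) * ∑ k, a k *
            (lm (η.w i) z + lm (vt A (fun x => sp (b x)) i) z) k l := by
            rw [Finset.mul_sum]
            exact Finset.sum_congr rfl fun k _ => by ring
        _ = 0 := by rw [h2, mul_zero]
    rw [h1]
    rfl
  exact pot_sp_ker hη hb hz h0

end Pool.Agent.NDC
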