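import Pool.Agent.NDC.Prc
import Pool.Agent.NDC.Bps
import Pool.Agent.NDC.Hat

/-!
NDC module Mnk (size 3): the main dimension estimate.
-/

open scoped ContDiff ComplexConjugate Topology ComplexOrder
open Complex MeasureTheory Matrix

namespace Pool.Agent.NDC

open Pool.Agent.CYF

variable {n : ℕ} {X : Type*} [TopologicalSpace X] {ι : Type*} {A : Mfd n X ι}
  {η om : Form A} {m : ℝ} {Y : Set X} {ψ u : X → ℝ} {ν : ℕ}

private theorem Mnk_half {M a : ℝ} (hM : 0 ≤ M) (ha : |a| ≤ M) :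
    |1 / (2 * (M + 1)) * a| ≤ 1 / 2 := by
  rw [abs_mul, abs_of_pos (by positivity : (0 : ℝ) < 1 / (2 * (M + 1)))]
  rw [div_mul_eq_mul_div, one_mul, div_le_div_iff₀ (by positivity) (by norm_num)]
  nlinarith

theorem main_kernel [T2Space X] [CompactSpace X] (hη : η.Semipositive) (hν : η.RankLE ν)
    (hom : om.Positive) (hE : Exh η m Y ψ) (hu : PshOn A Y u) {i : ι} {z : E n}
    (hz : z ∈ Ou A Y i) : n ≤ Module.finrank ℂ (KW η ψ u i z) + ν := by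
  have hw := psh_hat hE.isOpen hu
  obtain ⟨c, hc⟩ : ∃ c, c = ψ ((A.c i).symm z) - 1 := ⟨_, rfl⟩
  have hvs : Sm A (ub Y ψ (hat u) c) := Sm_ub hE hw.1 c
  obtain ⟨M0, hM0⟩ := isCompact_univ.exists_bound_of_continuousOn
    (f := ub Y ψ (hat u) c) hvs.continuous.continuousOn
  obtain ⟨M, hM⟩ : ∃ M, M = max M0 0 := ⟨_, rfl⟩
  have hM1 : 0 ≤ M := by rw [hM]; exact le_max_right _ _
  have hM2 : ∀ x, |ub Y ψ (hat u) c x| ≤ M := by
    intro x
    have := hM0 x (Set.mem_univ x)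
    rw [Real.norm_eq_abs] at this
    rw [hM]
    exact this.trans (le_max_left _ _)
  obtain ⟨ε, hε⟩ : ∃ ε, ε = 1 / (2 * (M + 1)) := ⟨_, rfl⟩
  obtain ⟨δ, hδ⟩ : ∃ δ, δ = 1 / (2 * (|m| + 1)) := ⟨_, rfl⟩
  have hε0 : 0 < ε := by rw [hε]; positivity
  have hδ0 : 0 < δ := by rw [hδ]; have := abs_nonneg m; positivity
  have hv : ∀ x, |ε * ub Y ψ (hat u) c x| ≤ 1 / 2 := by
    intro x
    rw [hε]
    exact Mnk_half hM1 (hM2 x)
  have hδm : δ * |m| ≤ 1 / 2 := by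
    have h := Mnk_half (abs_nonneg m) (le_of_eq (abs_abs m))
    rw [← hδ, abs_mul, abs_of_pos hδ0, abs_abs] at h
    exact h
  have hpr := principle η om hη hν hom (Sm_bb (c := c) (δ := δ) hE hvs hv)
    (bb_psd hη hE hw hε0 hv hδ0 hδm) i z hz.1
  have ht : 0 < vt A (tb ψ (ub Y ψ (hat u) c) c ε) i z := by
    have h1 := hv ((A.c i).symm z)
    have h2 := (abs_le.1 h1).1
    unfold vt tb
    rw [hc] at h2 ⊢
    linarith
  refine ker_dim hpr _ fun a ha => ?_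
  obtain ⟨h1, h2, h3⟩ := bb_ker hη hE hw hε0 hv hδ0 hδm hz ht ha
  obtain ⟨h4, h5, h6⟩ := hat_ker hE.isOpen hu hz h2
  refine ⟨h1, ?_, h4, h5⟩
  rw [h6, mul_zero, add_zero] at h3
  exact h3

end Pool.Agent.NDC
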