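import Pool.Agent.NDC.Mdr
import Pool.Agent.NDC.Lcr

/-!
NDC module Mtw (size 3): the level sets of `2 ν` independent metrics.
PROOF. Let `L = {y | ∀ j, b j y = b j x}`. `T ⊆ L` (`connectedComponentIn_subset`). `L` is closed (`Sm.continuous`) and `X` compact; the
closure of `T` is preconnected, contains `x` and is contained in `L`, so it is contained in `T`: `T` is closed, compact (see the
end of ref/CIS_Lev.lean.txt). Last claim: at `z` take `V` from `metric_V` (module Mdr); `v ∈ V` by `real_ker_le` (module Krl); `I • v ∈ V`.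
Second claim: `comp_const` and `loc_const_real` (module Lcr) for `Y = Set.univ` (`Ou A Set.univ i` is contained in the target), `u = b`,
`G = b'`: at `y ∈ T` take `i = ix A y`; hypothesis `hd`: `metric_V` and `real_ker_le` at `y`.
-/

open scoped ContDiff ComplexConjugate Topology ComplexOrder
open Complex MeasureTheory Matrix

namespace Pool.Agent.NDC

open Pool.Agent.CYF

variable {n : ℕ} {X : Type*} [TopologicalSpace X] {ι : Type*} {A : Mfd n X ι}
  {η om : Form A} {ν : ℕ}

theorem metric_two [T2Space X] [CompactSpace X] (hη : η.Semipositive) (hν : η.RankLE ν)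
    (hom : om.Positive) {b : Fin (2 * ν) → X → ℝ} (hb : ∀ j, η.IsPot (b j)) {x : X} {T : Set X}
    (hT : T = connectedComponentIn {y | ∀ j, b j y = b j x} x)
    (hind : ∀ i, ∀ z ∈ (A.c i).target, (A.c i).symm z ∈ T →
      LinearIndependent ℝ (fun j => fderiv ℝ (vt A (b j) i) z)) :
    IsCompact T ∧ (∀ b' : X → ℝ, η.IsPot b' → ∀ y ∈ T, b' y = b' x) ∧
      ∀ i, ∀ z ∈ (A.c i).target, (A.c i).symm z ∈ T → ∀ v : E n,
        (∀ j, fderiv ℝ (vt A (b j) i) z v = 0) →
          (∀ j, fderiv ℝ (vt A (b j) i) z (I • v) = 0) ∧ ∀ c, levi (η.w i) z v c = 0 := by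
  set L : Set X := {y | ∀ j, b j y = b j x} with hL
  have hxL : x ∈ L := fun _ => rfl
  have hsub : T ⊆ L := by
    rw [hT]
    exact connectedComponentIn_subset _ _
  have hLc : IsClosed L := by
    have h1 : L = ⋂ j, {y | b j y = b j x} := by
      ext y
      simp [hL]
    rw [h1]
    exact isClosed_iInter fun j =>
      isClosed_eq (Sm.continuous (A := A) (hb j).smooth) continuous_const
  have hTc : IsClosed T := by
    have hpre : IsPreconnected T := by
      rw [hT]
      exact isPreconnected_connectedComponentIn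
    have hxT : x ∈ T := by
      rw [hT]
      exact mem_connectedComponentIn hxL
    have hcl : closure T ⊆ L := hLc.closure_subset_iff.2 hsub
    have hcl2 : closure T ⊆ connectedComponentIn L x :=
      hpre.closure.subset_connectedComponentIn (subset_closure hxT) hcl
    rw [← hT] at hcl2
    exact isClosed_of_closure_subset hcl2
  have key : ∀ i, ∀ z ∈ (A.c i).target,
      LinearIndependent ℝ (fun j => fderiv ℝ (vt A (b j) i) z) → ∀ v : E n,
        (∀ j, fderiv ℝ (vt A (b j) i) z v = 0) →
          (∀ j, fderiv ℝ (vt A (b j) i) z (I • v) = 0) ∧ (∀ c, levi (η.w i) z v c = 0) ∧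
            ∀ b' : X → ℝ, η.IsPot b' → fderiv ℝ (vt A b' i) z v = 0 := by
    intro i z hz hli v hv
    obtain ⟨V, hV1, hV2⟩ := metric_V hη hν hom i z hz
    have hvV : v ∈ V :=
      real_ker_le hli hV1 (fun v hv j => ((hV2 v hv).2 (b j) (hb j)).2) hv
    exact ⟨fun j => ((hV2 _ (V.smul_mem I hvV)).2 (b j) (hb j)).2, (hV2 v hvV).1,
      fun b' hb' => ((hV2 v hvV).2 b' hb').2⟩
  refine ⟨hTc.isCompact, ?_, fun i z hz hzT v hv => ?_⟩
  · intro b' hb' y hy
    have hy' : y ∈ connectedComponentIn L x := by
      rw [← hT]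
      exact hy
    refine comp_const hxL (G := b') (fun y hy => ?_) y hy'
    have hi := mem_ix A y
    have hyL : y ∈ L := connectedComponentIn_subset _ _ hy
    have hli : LinearIndependent ℝ
        (fun j => fderiv ℝ (vt A (b j) (ix A y)) (A.c (ix A y) y)) := by
      refine hind (ix A y) _ ((A.c (ix A y)).map_source hi) ?_
      rw [(A.c (ix A y)).left_inv hi, hT]
      exact hy
    have h1 := loc_const_real (A := A) (Y := Set.univ) isOpen_univ (u := b)
      (fun j => Sm.smOn (hb j).smooth Set.univ) (G := b') (Sm.smOn hb'.smooth Set.univ)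
      (Set.mem_univ y) hi
      (fun y' hy' hli' v hv => (key _ y' hy'.1 hli' v hv).2.2 b' hb') hli
    filter_upwards [h1] with y' hy1 hy2
    exact hy1 fun j => by rw [hy2 j, hyL j]
  · have h1 := key i z hz (hind i z hz hzT) v hv
    exact ⟨h1.1, h1.2.1⟩

end Pool.Agent.NDC
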