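import Pool.Agent.NDC.Glo

/-!
NDC module Nn: the function `|z|²`.
-/

open scoped ContDiff ComplexConjugate Topology ComplexOrder
open Complex MeasureTheory Matrix

namespace Pool.Agent.NDC

open Pool.Agent.CYF

variable {n : ℕ}

/-- `|z|²` -/
noncomputable def nz (z : E n) : ℝ := ∑ k, ‖z k‖ ^ 2

theorem contDiff_nz : ContDiff ℝ ∞ (nz : E n → ℝ) := by
  unfold nz
  refine ContDiff.sum fun k _ => ?_
  have h1 : ContDiff ℝ ∞ (fun z : E n => z k) := by fun_prop
  exact h1.norm_sq ℝ

private theorem Nn_cx : cx (nz : E n → ℝ) = fun z => ∑ k, z k * conj (z k) := by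
  funext z
  unfold cx nz
  push_cast
  refine Finset.sum_congr rfl fun k _ => ?_
  rw [Complex.mul_conj, Complex.normSq_eq_norm_sq]
  push_cast
  rfl

private theorem Nn_diff (k : Fin n) (z : E n) :
    DifferentiableAt ℂ (fun z : E n => z k) z := by
  fun_prop

private theorem Nn_fderiv (k : Fin n) (z v : E n) :
    fderiv ℂ (fun z : E n => z k) z v = v k := by
  have h : HasFDerivAt (fun z : E n => z k)
      (ContinuousLinearMap.proj (R := ℂ) (φ := fun _ : Fin n => ℂ) k) z :=
    (ContinuousLinearMap.proj (R := ℂ) (φ := fun _ : Fin n => ℂ) k).hasFDerivAt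
  rw [h.fderiv]
  rfl

private theorem Nn_pb (l : Fin n) (z : E n) : pb l (cx nz) z = z l := by
  rw [Nn_cx]
  unfold pb
  have hd : ∀ k, DifferentiableAt ℝ (fun z : E n => z k) z := fun k =>
    (Nn_diff k z).restrictScalars ℝ
  have h1 := d01_sum (z := z) (a := e l) Finset.univ
    (fun k (z : E n) => z k * conj (z k)) (fun k _ => (hd k).mul (conjd (hd k)))
  rw [h1]
  have h2 : ∀ k, d01 (fun z : E n => z k * conj (z k)) z (e l)
      = z k * conj (e l k) := by
    intro k
    have h3 := d01_mul (z := z) (a := e l) (hd k) (conjd (hd k))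
    rw [h3, d01_of_diff (Nn_diff k z), d01_conj (hd k), d10_of_diff (Nn_diff k z),
      Nn_fderiv]
    ring
  rw [Finset.sum_congr rfl fun k _ => h2 k, Finset.sum_eq_single l]
  · simp [e]
  · intro k _ hk
    simp [e, Pi.single_apply, hk]
  · simp

theorem LM_nz (z : E n) (k l : Fin n) : LM nz z k l = if k = l then 1 else 0 := by
  rw [LM_eq]
  have h1 : pb l (cx nz) = fun z : E n => z l := funext fun z => Nn_pb l z
  rw [h1]
  unfold pk
  rw [d10_of_diff (Nn_diff l z), Nn_fderiv]
  simp [e, Pi.single_apply, eq_comm]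

end Pool.Agent.NDC
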