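import Pool.Agent.NDC.Met

/-!
NDC module Phi (size 2): the function `sp t = log (1 + exp t)`.
PROOF. `1 + exp t > 0`; `ContDiff.log`. `deriv sp t = exp t / (1 + exp t)` (`HasDerivAt.log`), as functions (`funext`), and
`deriv (deriv sp) t = exp t / (1 + exp t)^2` (`HasDerivAt.div`). Positivity; `exp t < 1 + exp t`.
-/

open scoped ContDiff ComplexConjugate Topology ComplexOrder
open Complex MeasureTheory Matrix

namespace Pool.Agent.NDC

open Pool.Agent.CYF

private theorem Phi_pos (t : ℝ) : 0 < 1 + Real.exp t := by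
  have := Real.exp_pos t
  linarith

private theorem Phi_d1 (t : ℝ) : HasDerivAt sp (Real.exp t / (1 + Real.exp t)) t := by
  have h : HasDerivAt (fun t : ℝ => 1 + Real.exp t) (Real.exp t) t :=
    (Real.hasDerivAt_exp t).const_add 1
  exact h.log (Phi_pos t).ne'

private theorem Phi_deriv : deriv sp = fun t => Real.exp t / (1 + Real.exp t) := by
  funext t
  exact (Phi_d1 t).deriv

private theorem Phi_d2 (t : ℝ) : deriv (deriv sp) t = Real.exp t / (1 + Real.exp t) ^ 2 := by
  rw [Phi_deriv]
  have h : HasDerivAt (fun t : ℝ => 1 + Real.exp t) (Real.exp t) t :=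
    (Real.hasDerivAt_exp t).const_add 1
  have h2 := (Real.hasDerivAt_exp t).div h (Phi_pos t).ne'
  have h3 : deriv (fun t => Real.exp t / (1 + Real.exp t)) t
      = (Real.exp t * (1 + Real.exp t) - Real.exp t * Real.exp t) / (1 + Real.exp t) ^ 2 := h2.deriv
  rw [h3]
  congr 1
  ring

theorem contDiff_sp : ContDiff ℝ ∞ sp := by
  unfold sp
  exact (contDiff_const.add Real.contDiff_exp).log (fun t => (Phi_pos t).ne')

theorem deriv_sp_pos (t : ℝ) : 0 < deriv sp t := by
  rw [Phi_deriv]
  exact div_pos (Real.exp_pos t) (Phi_pos t)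

theorem deriv_sp_lt (t : ℝ) : deriv sp t < 1 := by
  rw [Phi_deriv]
  show Real.exp t / (1 + Real.exp t) < 1
  rw [div_lt_one (Phi_pos t)]
  linarith

theorem deriv2_sp_pos (t : ℝ) : 0 < deriv (deriv sp) t := by
  rw [Phi_d2]
  exact div_pos (Real.exp_pos t) (pow_pos (Phi_pos t) 2)

end Pool.Agent.NDC
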