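import Pool.Agent.NDC.Nn
import Pool.Agent.NDC.Adj
import Pool.Agent.NDC.Apl
import Pool.Agent.NDC.Avd

/-!
NDC module Pio (size 4): Piola's identity for the cofactors of a Levi matrix.
PROOF. Let `A y = lm w y`, `A y k l = LM w y k l = pk k (pb l (cx w)) y`.
`piola_reg` (case `det (A z) ≠ 0`). Let `d l = ∑ k, pk k (fun y => (A y).adjugate l k) z`. For every `j`,
`∑ l, A z j l * d l = 0`: by the product rule (`d10_mul`, `d10_sum`)
`∑_l ∑_k A_jl ∂_k adj_lk = ∑_k ∂_k (∑_l A_jl adj_lk) - ∑_{k,l} (∂_k A_jl) adj_lk`. The first term is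
`∑_k ∂_k (det A · δ_jk) = ∂_j det A` (`Matrix.mul_adjugate`). In the second, `∂_k A_jl = ∂_k ∂_j ∂̄_l w = ∂_j A_kl`
(`pk_pk_comm` for `pb l (cx w)`, as in the proof of `div_free` in Pool/Agent/DTW/Sto.lean), so it is
`∑_{k,l} adj_lk ∂_j A_kl = tr (adj A · ∂_j A) = ∂_j det A` by Jacobi's formula (`Dd_det`,
Pool/Agent/CYF/Jcb.lean, for the constant operator `u = fun k _ => if k = j then 1 else 0`, for which
`Dd u f z = pk j f z`). Since `det (A z) ≠ 0`, `A z *ᵥ d = 0` gives `d = 0` (`Matrix.eq_zero_of_mulVec_eq_zero`).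
`piola` (general case): take `t` from `avoid (A z)` (module Avd) and `c` from `adj_itp` (module Apl) for the
points `(t a : ℂ)`. The function `w_a y = w y + t a * nz y` is smooth on `U` and
`lm w_a y = A y + t a • 1` on `U` (`LM_add`, `LM_const_mul`, `LM_nz`), so `piola_reg` applies to `w_a` at `z`.
Near `z`, `(A y).adjugate l k = ∑ a, c a * (lm w_a y).adjugate l k`; apply `pk k` (`pk_congr`, `d10_sum`,
`d10_const_mul`; differentiability: `contDiffOn_adj`), sum over `k`, exchange the sums.
-/

open scoped ContDiff ComplexConjugate Topology ComplexOrder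
open Complex MeasureTheory Matrix

namespace Pool.Agent.NDC

open Pool.Agent.CYF

variable {n : ℕ} {U : Set (E n)} {w : E n → ℝ} {z : E n}

private theorem Pio_smooth (hU : IsOpen U) (hw : ContDiffOn ℝ ∞ w U) (k l : Fin n) :
    ContDiffOn ℝ ∞ (fun y => lm w y k l) U :=
  contDiffOn_pk hU (contDiffOn_pb hU (contDiffOn_cx hw) l) k

private theorem Pio_symm (hU : IsOpen U) (hw : ContDiffOn ℝ ∞ w U) (hz : z ∈ U)
    (k j l : Fin n) : pk k (fun y => lm w y j l) z = pk j (fun y => lm w y k l) z :=
  pk_pk_comm ((contDiffOn_pb hU (contDiffOn_cx hw) l).contDiffAt (hU.mem_nhds hz)) k j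

private theorem Pio_det (hU : IsOpen U) (hw : ContDiffOn ℝ ∞ w U) (hz : z ∈ U) (j : Fin n) :
    pk j (fun y => (lm w y).det) z
      = ∑ l, ∑ k, (lm w z).adjugate l k * pk j (fun y => lm w y k l) z := by
  have hu : ∀ f : E n → ℂ, Dd (fun k _ => if k = j then 1 else 0) f z = pk j f z := by
    intro f
    unfold Dd
    simp
  have h := Dd_det (u := fun k _ => if k = j then 1 else 0) (z := z) (fun y => lm w y)
    (fun a b => diffAt_of hU (Pio_smooth hU hw a b) hz)
  rw [hu] at h
  rw [h, Matrix.trace]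
  refine Finset.sum_congr rfl fun l _ => ?_
  rw [Matrix.diag_apply, Matrix.mul_apply]
  refine Finset.sum_congr rfl fun k _ => ?_
  rw [Matrix.of_apply, hu]

theorem piola_reg (hU : IsOpen U) (hw : ContDiffOn ℝ ∞ w U) (hz : z ∈ U)
    (hd : (lm w z).det ≠ 0) (l : Fin n) :
    ∑ k, pk k (fun y => (lm w y).adjugate l k) z = 0 := by
  have hA : ∀ k l, DifferentiableAt ℝ (fun y => lm w y k l) z := fun k l =>
    diffAt_of hU (Pio_smooth hU hw k l) hz
  have hB : ∀ l k, DifferentiableAt ℝ (fun y => (lm w y).adjugate l k) z := fun l k =>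
    diffAt_of hU (contDiffOn_adj (Pio_smooth hU hw) l k) hz
  have hdD : DifferentiableAt ℝ (fun y => (lm w y).det) z :=
    diffAt_of hU (contDiffOn_det (Pio_smooth hU hw)) hz
  have key : (lm w z) *ᵥ (fun l => ∑ k, pk k (fun y => (lm w y).adjugate l k) z) = 0 := by
    funext j
    rw [Pi.zero_apply]
    change ∑ l, lm w z j l * ∑ k, pk k (fun y => (lm w y).adjugate l k) z = 0
    have h1 : ∀ k, pk k (fun y => ∑ l, lm w y j l * (lm w y).adjugate l k) z
        = ∑ l, (pk k (fun y => lm w y j l) z * (lm w z).adjugate l k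
          + lm w z j l * pk k (fun y => (lm w y).adjugate l k) z) := by
      intro k
      have h2 := d10_sum (z := z) (a := e k) Finset.univ
        (fun (l : Fin n) y => lm w y j l * (lm w y).adjugate l k)
        (fun l _ => (hA j l).mul (hB l k))
      have h3 : pk k (fun y => ∑ l, lm w y j l * (lm w y).adjugate l k) z
          = ∑ l, d10 (fun y => lm w y j l * (lm w y).adjugate l k) z (e k) := h2
      rw [h3]
      refine Finset.sum_congr rfl fun l _ => ?_
      rw [d10_mul (hA j l) (hB l k)]
      rfl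
    have h4 : ∀ k, pk k (fun y => ∑ l, lm w y j l * (lm w y).adjugate l k) z
        = if j = k then pk k (fun y => (lm w y).det) z else 0 := by
      intro k
      have h5 : (fun y => ∑ l, lm w y j l * (lm w y).adjugate l k)
          = fun y => if j = k then (lm w y).det else 0 := by
        funext y
        have h6 : ∑ l, lm w y j l * (lm w y).adjugate l k
            = (lm w y * (lm w y).adjugate) j k := (Matrix.mul_apply).symm
        rw [h6, Matrix.mul_adjugate, Matrix.smul_apply, Matrix.one_apply]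
        split_ifs <;> simp
      rw [h5]
      by_cases hjk : j = k
      · simp only [if_pos hjk]
      · simp only [if_neg hjk]
        exact d10_const 0
    have h7 : ∑ k, pk k (fun y => ∑ l, lm w y j l * (lm w y).adjugate l k) z
        = pk j (fun y => (lm w y).det) z := by
      rw [Finset.sum_congr rfl fun k _ => h4 k]
      simp
    have h8 : ∑ k, ∑ l, pk k (fun y => lm w y j l) z * (lm w z).adjugate l k
        = pk j (fun y => (lm w y).det) z := by
      rw [Pio_det hU hw hz j, Finset.sum_comm]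
      refine Finset.sum_congr rfl fun l _ => Finset.sum_congr rfl fun k _ => ?_
      rw [Pio_symm hU hw hz k j l, mul_comm]
    have h9 : ∑ k, pk k (fun y => ∑ l, lm w y j l * (lm w y).adjugate l k) z
        = ∑ k, ∑ l, pk k (fun y => lm w y j l) z * (lm w z).adjugate l k
          + ∑ k, ∑ l, lm w z j l * pk k (fun y => (lm w y).adjugate l k) z := by
      rw [Finset.sum_congr rfl fun k _ => h1 k, ← Finset.sum_add_distrib]
      refine Finset.sum_congr rfl fun k _ => ?_
      rw [Finset.sum_add_distrib]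
    have h10 : ∑ l, lm w z j l * ∑ k, pk k (fun y => (lm w y).adjugate l k) z
        = ∑ k, ∑ l, lm w z j l * pk k (fun y => (lm w y).adjugate l k) z := by
      rw [Finset.sum_comm]
      refine Finset.sum_congr rfl fun l _ => ?_
      rw [Finset.mul_sum]
    rw [h10]
    rw [h7, h8] at h9
    linear_combination -h9
  exact congrFun (Matrix.eq_zero_of_mulVec_eq_zero hd key) l

theorem piola (hU : IsOpen U) (hw : ContDiffOn ℝ ∞ w U) (hz : z ∈ U) (l : Fin n) :
    ∑ k, pk k (fun y => (lm w y).adjugate l k) z = 0 := by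
  obtain ⟨t, ht, hdet⟩ := avoid (lm w z)
  obtain ⟨c, hc⟩ := adj_itp ht
  have hnz : ContDiffOn ℝ ∞ (nz : E n → ℝ) U := contDiff_nz.contDiffOn
  have hwa : ∀ a, ContDiffOn ℝ ∞ (fun y => w y + t a * nz y) U := fun a =>
    hw.add (contDiffOn_const.mul hnz)
  have hlm : ∀ a, ∀ y ∈ U, lm (fun y => w y + t a * nz y) y
      = lm w y + ((t a : ℝ) : ℂ) • (1 : Matrix (Fin n) (Fin n) ℂ) := by
    intro a y hy
    ext k m
    have h1 : lm (fun y => w y + t a * nz y) y k m = LM w y k m + LM (fun y => t a * nz y) y k m :=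
      LM_add hU hw (contDiffOn_const.mul hnz) hy k m
    rw [h1, LM_const_mul hU hnz hy, LM_nz, Matrix.add_apply, Matrix.smul_apply, Matrix.one_apply,
      smul_eq_mul]
    rfl
  have hreg : ∀ a, ∑ k, pk k (fun y => (lm (fun y => w y + t a * nz y) y).adjugate l k) z = 0 := by
    intro a
    refine piola_reg hU (hwa a) hz ?_ l
    rw [hlm a z hz]
    exact hdet a
  have h2 : ∀ k, pk k (fun y => (lm w y).adjugate l k) z
      = ∑ a, c a * pk k (fun y => (lm (fun y => w y + t a * nz y) y).adjugate l k) z := by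
    intro k
    have hB : ∀ a, DifferentiableAt ℝ
        (fun y => (lm (fun y => w y + t a * nz y) y).adjugate l k) z := fun a =>
      diffAt_of hU (contDiffOn_adj (Pio_smooth hU (hwa a)) l k) hz
    have h3 : (fun y => (lm w y).adjugate l k) =ᶠ[𝓝 z]
        fun y => ∑ a, c a * (lm (fun y => w y + t a * nz y) y).adjugate l k := by
      filter_upwards [hU.mem_nhds hz] with y hy
      rw [hc (lm w y) l k]
      refine Finset.sum_congr rfl fun a _ => ?_
      rw [hlm a y hy]
    rw [pk_congr h3]
    have h4 := d10_sum (z := z) (a := e k) Finset.univ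
      (fun (a : Fin (n + 1)) y => c a * (lm (fun y => w y + t a * nz y) y).adjugate l k)
      (fun a _ => (hB a).const_mul (c a))
    have h5 : pk k (fun y => ∑ a, c a * (lm (fun y => w y + t a * nz y) y).adjugate l k) z
        = ∑ a, d10 (fun y => c a * (lm (fun y => w y + t a * nz y) y).adjugate l k) z (e k) := h4
    rw [h5]
    refine Finset.sum_congr rfl fun a _ => ?_
    rw [d10_const_mul (hB a)]
    rfl
  rw [Finset.sum_congr rfl fun k _ => h2 k, Finset.sum_comm]
  refine Finset.sum_eq_zero fun a _ => ?_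
  rw [← Finset.mul_sum, hreg a, mul_zero]

end Pool.Agent.NDC
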