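import Pool.Agent.NDC.Hom
import Pool.Agent.NDC.Ips
import Pool.Agent.NDC.Bmp
import Pool.Agent.NDC.Enn

/-!
NDC module Prc (size 3): if `η ≥ 0` has rank `≤ ν` and `η + i∂∂̄ b ≥ 0`, then `η + i∂∂̄ b` has rank `≤ ν`.
PROOF. `obtain ⟨P⟩ := exists_pou A`. Let `W = lm (om.w i) z` (`PosDef`: `lm_posDef`, module Psd),
`M = lm (η.w i) z` (`lm_psd`), `K = lm (vt A b i) z`. `itp` (module Itp) for the points `t a = ((a : ℕ) : ℂ)`,
`a : Fin (n + 1)`, and `L = Polynomial.lcoeff ℂ (ν + 1)` gives constants `c` with (`dp_natDegree`, `dp_eval`, `lm_comb`)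
`(dp W (M + K)).coeff (ν + 1) = ∑ a, c a * det (lm ((η.comb om hb a a).w i) z)` and
`(dp W M).coeff (ν + 1) = ∑ a, c a * det (lm ((η.comb om hb a 0).w i) z)`. By `Itg_sum`, `Itg_smul`, `Itg_det` the
densities `f1 = ∑ a, c a * det (lm (comb a a))` and `f0 = ∑ a, c a * det (lm (comb a 0))` have the same
integral; `f0 = 0` on the targets by `dp_coeff_zero` (module Enn), so `Itg P f1 = 0` (`Itg_congr` with `0`, `Itg` of zero is
zero). `0 ≤ re f1` by `dp_coeff_nonneg` and `hF`; `Itg_pos` (module Ips) gives `re f1 = 0` on the targets,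
`rank_of_coeff` (module Enn).
-/

open scoped ContDiff ComplexConjugate Topology ComplexOrder
open Complex MeasureTheory Matrix

namespace Pool.Agent.NDC

open Pool.Agent.CYF

variable {n : ℕ} {X : Type*} [TopologicalSpace X] {ι : Type*} {A : Mfd n X ι}

theorem principle [T2Space X] [CompactSpace X] (η om : Form A) {ν : ℕ} (hη : η.Semipositive)
    (hν : η.RankLE ν) (hom : om.Positive) {b : X → ℝ} (hb : Sm A b)
    (hF : ∀ i, ∀ z ∈ (A.c i).target, (lm (η.w i) z + lm (vt A b i) z).PosSemidef) :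
    ∀ i, ∀ z ∈ (A.c i).target, (lm (η.w i) z + lm (vt A b i) z).rank ≤ ν := by
  obtain ⟨P⟩ := exists_pou A
  have hinj : Function.Injective (fun a : Fin (n + 1) => ((a : ℕ) : ℂ)) := by
    intro a a' h
    have h1 : ((a : ℕ) : ℂ) = ((a' : ℕ) : ℂ) := h
    exact Fin.ext (by exact_mod_cast h1)
  obtain ⟨c, hc⟩ := itp hinj (Polynomial.lcoeff ℂ (ν + 1))
  have hM : ∀ i, ∀ z ∈ (A.c i).target, (lm (η.w i) z).PosSemidef := fun i z hz =>
    lm_psd (A.c i).open_target (η.smooth i) hz (hη i z hz)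
  have hW : ∀ i, ∀ z ∈ (A.c i).target, (lm (om.w i) z).PosDef := fun i z hz =>
    lm_posDef (A.c i).open_target (om.smooth i) hz (hom i z hz)
  have k1 : ∀ i, ∀ z ∈ (A.c i).target,
      (dp (lm (om.w i) z) (lm (η.w i) z + lm (vt A b i) z)).coeff (ν + 1) =
        ∑ a : Fin (n + 1), c a *
          (lm ((η.comb om hb ((a : ℕ) : ℝ) ((a : ℕ) : ℝ)).w i) z).det := by
    intro i z hz
    have h1 := hc _ (dp_natDegree (lm (om.w i) z) (lm (η.w i) z + lm (vt A b i) z))
    rw [Polynomial.lcoeff_apply] at h1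
    rw [h1]
    refine Finset.sum_congr rfl fun a _ => ?_
    rw [dp_eval, lm_comb η om hb _ _ hz, Complex.ofReal_natCast, smul_add]
  have k0 : ∀ i, ∀ z ∈ (A.c i).target,
      (dp (lm (om.w i) z) (lm (η.w i) z)).coeff (ν + 1) =
        ∑ a : Fin (n + 1), c a * (lm ((η.comb om hb ((a : ℕ) : ℝ) 0).w i) z).det := by
    intro i z hz
    have h1 := hc _ (dp_natDegree (lm (om.w i) z) (lm (η.w i) z))
    rw [Polynomial.lcoeff_apply] at h1
    rw [h1]
    refine Finset.sum_congr rfl fun a _ => ?_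
    rw [dp_eval, lm_comb η om hb _ _ hz, Complex.ofReal_natCast, Complex.ofReal_zero, zero_smul,
      add_zero]
  have hd : ∀ r s : ℝ, ∀ x : ℂ, IsDens A
      (fun i z => x * (lm ((η.comb om hb r s).w i) z).det) := fun r s x =>
    (dens_det (η.comb om hb r s)).smul x
  have hI : Itg P (fun i z => ∑ a : Fin (n + 1), c a *
      (lm ((η.comb om hb ((a : ℕ) : ℝ) ((a : ℕ) : ℝ)).w i) z).det) = 0 := by
    rw [Itg_sum P Finset.univ (fun (a : Fin (n + 1)) i z => c a *
      (lm ((η.comb om hb ((a : ℕ) : ℝ) ((a : ℕ) : ℝ)).w i) z).det) (fun a _ => hd _ _ _)]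
    have h2 : ∀ a : Fin (n + 1), Itg P (fun i z => c a *
        (lm ((η.comb om hb ((a : ℕ) : ℝ) ((a : ℕ) : ℝ)).w i) z).det) =
        Itg P (fun i z => c a * (lm ((η.comb om hb ((a : ℕ) : ℝ) 0).w i) z).det) := by
      intro a
      rw [Itg_smul, Itg_smul, Itg_det]
    rw [Finset.sum_congr rfl (fun a _ => h2 a)]
    rw [← Itg_sum P Finset.univ (fun (a : Fin (n + 1)) i z => c a *
      (lm ((η.comb om hb ((a : ℕ) : ℝ) 0).w i) z).det) (fun a _ => hd _ _ _)]
    rw [Itg_congr P (g := fun _ _ => 0) (fun i z hz => by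
      rw [← k0 i z hz]
      exact dp_coeff_zero (hW i z hz) (hM i z hz) (hν i z hz))]
    unfold Itg
    simp
  have hD : IsDens A (fun i z => ∑ a : Fin (n + 1), c a *
      (lm ((η.comb om hb ((a : ℕ) : ℝ) ((a : ℕ) : ℝ)).w i) z).det) :=
    IsDens.sum Finset.univ (fun (a : Fin (n + 1)) i z => c a *
      (lm ((η.comb om hb ((a : ℕ) : ℝ) ((a : ℕ) : ℝ)).w i) z).det) (fun a _ => hd _ _ _)
  have hre := Itg_pos P hD (fun i z hz => by
    rw [← k1 i z hz]
    exact dp_coeff_nonneg (hW i z hz) (hF i z hz) _) hI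
  intro i z hz
  refine rank_of_coeff (hW i z hz) (hF i z hz) ?_
  rw [k1 i z hz]
  exact hre i z hz

end Pool.Agent.NDC
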