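import Pool.Agent.NDC.Defs

/-!
NDC: functions whose Levi form is bounded below by a multiple of `η` (definition).
-/

open scoped ContDiff
open Complex

namespace Pool.Agent.NDC

open Pool.Agent.CYF

variable {n : ℕ} {X : Type*} [TopologicalSpace X] {ι : Type*} {A : Mfd n X ι}

/-- `u` is a smooth real function on the open set `Y` such that `C η + i ∂∂̄ u` is semipositive on `Y`
for some real number `C`. `C = 0`: the smooth plurisubharmonic functions on `Y`. `C = 1`: if `η` is the
curvature of a metric `h` of a line bundle `L`, the metrics `h exp (-u)` of `L` over `Y` with semipositive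
curvature. -/
structure Form.InM (η : Form A) (Y : Set X) (u : X → ℝ) : Prop where
  smooth : SmOn A Y u
  bound : ∃ C : ℝ, ∀ i, ∀ z ∈ Ou A Y i, ∀ a : E n,
    0 ≤ (C * levi (η.w i) z a a + levi (vt A u i) z a a).re

/-- At the point `z` of the chart `i`, the vector `v` lies in the kernels of `η`, of `d|s|²`, of
`∂∂̄u` and `du` for every function `u` as in `Form.InM` on the complement `Y` of the zero set of
`s`, and of `df` for every holomorphic function `f` on `Y`. -/
structure Form.Null (η : Form A) (m : ℝ) (s : ι → E n → ℂ) (i : ι) (z v : E n) : Prop where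
  form : ∀ b, levi (η.w i) z v b = 0
  norm : fderiv ℝ (vt A (len η m s) i) z v = 0
  psh : ∀ u : X → ℝ, η.InM (Off A s) u →
    (∀ b, levi (vt A u i) z v b = 0) ∧ fderiv ℝ (vt A u i) z v = 0
  hol : ∀ f : X → ℂ, HolOn A (Off A s) f → fderiv ℂ (f ∘ (A.c i).symm) z v = 0

end Pool.Agent.NDC
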