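import Pool.Agent.NDC.Kle
import Pool.Agent.NDC.Glo

/-!
NDC: `ν` functions on an open set of `ℂ^n` with independent `∂u_j` whose Levi forms vanish on the common kernel of
the `∂u_j`: this kernel is spanned by holomorphic vector fields and involutive.
-/

open scoped ContDiff ComplexConjugate Topology ComplexOrder
open Complex MeasureTheory Matrix

namespace Pool.Agent.NDC

open Pool.Agent.CYF

variable {n ν : ℕ}

/-- `∂u` as a complex linear form -/
private noncomputable def Qfr_L (u : E n → ℝ) (y : E n) : E n →L[ℂ] ℂ :=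
  LinearMap.toContinuousLinearMap
    { toFun := fun v => d10 (cx u) y v
      map_add' := fun a b => d10_add_vec _ _ a b
      map_smul' := fun c a => d10_smul_vec _ _ a c }

private theorem Qfr_L_apply (u : E n → ℝ) (y v : E n) : Qfr_L u y v = d10 (cx u) y v := rfl

private theorem Qfr_indep {U : Fin ν → E n → ℝ} {z : E n}
    (h : LinearIndependent ℂ (fun j => d10 (cx (U j)) z)) :
    LinearIndependent ℂ (fun j => Qfr_L (U j) z) := by
  rw [Fintype.linearIndependent_iff] at h ⊢
  intro c hc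
  refine h c ?_
  funext v
  have h1 : (∑ j, c j • Qfr_L (U j) z) v = 0 := by rw [hc]; rfl
  simp only [_root_.sum_apply, _root_.smul_apply, smul_eq_mul, Qfr_L_apply] at h1
  simp only [Finset.sum_apply, Pi.smul_apply, smul_eq_mul, Pi.zero_apply]
  exact h1

/-- the common kernel of the `∂u_j` -/
private noncomputable def Qfr_K (U : Fin ν → E n → ℝ) (y : E n) : Submodule ℂ (E n) :=
  LinearMap.ker (LinearMap.pi fun j => ((Qfr_L (U j) y : E n →L[ℂ] ℂ) : E n →ₗ[ℂ] ℂ))

private theorem Qfr_mem_K {U : Fin ν → E n → ℝ} {y v : E n} :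
    v ∈ Qfr_K U y ↔ ∀ j, d10 (cx (U j)) y v = 0 := by
  unfold Qfr_K
  rw [LinearMap.mem_ker, funext_iff]
  exact Iff.rfl

private theorem Qfr_finrank {U : Fin ν → E n → ℝ} {y : E n}
    (h : ∀ b : Fin ν → ℂ, ∃ v, ∀ j, d10 (cx (U j)) y v = b j) :
    Module.finrank ℂ (Qfr_K U y) + ν = n := by
  set T := LinearMap.pi fun j => ((Qfr_L (U j) y : E n →L[ℂ] ℂ) : E n →ₗ[ℂ] ℂ) with hT
  have h1 := LinearMap.finrank_range_add_finrank_ker T
  have hr : LinearMap.range T = ⊤ := by
    rw [LinearMap.range_eq_top]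
    intro b
    obtain ⟨v, hv⟩ := h b
    exact ⟨v, funext fun j => hv j⟩
  rw [hr, finrank_top] at h1
  have h2 : Module.finrank ℂ (Fin ν → ℂ) = ν := by simp
  have h3 : Module.finrank ℂ (E n) = n := by simp [E]
  rw [h2, h3] at h1
  have h4 : Qfr_K U y = LinearMap.ker T := rfl
  rw [h4]
  omega

/-- The foliation of `ν` functions. -/
theorem frame_local {W : Set (E n)} (hW : IsOpen W) {U : Fin ν → E n → ℝ}
    (hU : ∀ j, ContDiffOn ℝ ∞ (U j) W)
    (hlev : ∀ y ∈ W, (∀ b : Fin ν → ℂ, ∃ v, ∀ j, d10 (cx (U j)) y v = b j) →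
      ∀ v : E n, (∀ j, d10 (cx (U j)) y v = 0) → ∀ j b, levi (U j) y v b = 0)
    {z : E n} (hz : z ∈ W) (hind : LinearIndependent ℂ (fun j => d10 (cx (U j)) z)) :
    ∃ (O : Set (E n)) (d : ℕ) (ξ : Fin d → E n → E n), IsOpen O ∧ z ∈ O ∧ O ⊆ W ∧
      d + ν = n ∧ (∀ k, DifferentiableOn ℂ (ξ k) O) ∧ ∀ y ∈ O,
        (∀ b : Fin ν → ℂ, ∃ v, ∀ j, d10 (cx (U j)) y v = b j) ∧
        LinearIndependent ℂ (fun k => ξ k y) ∧
        (∀ v, v ∈ Submodule.span ℂ (Set.range fun k => ξ k y) ↔ ∀ j, d10 (cx (U j)) y v = 0) ∧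
        ∀ k l, VectorField.lieBracket ℂ (ξ k) (ξ l) y ∈
          Submodule.span ℂ (Set.range fun k => ξ k y) := by
  classical
  have hind' := Qfr_indep hind
  -- the vectors `f a`
  have hf0 : ∀ a : Fin ν, ∃ v : E n, ∀ j, d10 (cx (U j)) z v = if j = a then 1 else 0 := by
    intro a
    exact surj_of_indep hind' (fun j => if j = a then 1 else 0)
  choose f hf using hf0
  -- the basis of the kernel
  set d := Module.finrank ℂ (Qfr_K U z) with hd
  let g : Module.Basis (Fin d) ℂ (Qfr_K U z) := Module.finBasis ℂ _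
  have hg : ∀ k j, d10 (cx (U j)) z (g k : E n) = 0 := fun k => Qfr_mem_K.1 (g k).2
  have hdn : d + ν = n := Qfr_finrank fun b => surj_of_indep hind' b
  -- the matrix `S`
  set S : E n → Matrix (Fin ν) (Fin ν) ℂ := fun y => Matrix.of fun j a => d10 (cx (U j)) y (f a)
    with hS
  have hSz : S z = 1 := by
    ext j a
    rw [hS]
    simp only [Matrix.of_apply, hf, Matrix.one_apply]
  have hsm : ∀ j (v : E n), ContDiffOn ℝ ∞ (fun y => d10 (cx (U j)) y v) W := fun j v =>
    contDiffOn_d10 hW (contDiffOn_cx (hU j)) v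
  have hSsm : ∀ j a, ContDiffOn ℝ ∞ (fun y => S y j a) W := fun j a => hsm j (f a)
  have hdet : ContDiffOn ℝ ∞ (fun y => (S y).det) W := by
    have h : (fun y => (S y).det) = fun y => ∑ σ : Equiv.Perm (Fin ν),
        ((Equiv.Perm.sign σ : ℤ) : ℂ) * ∏ i, S y (σ i) i := by
      funext y
      exact Matrix.det_apply' (S y)
    rw [h]
    refine ContDiffOn.sum fun σ _ => ?_
    refine ContDiffOn.mul contDiffOn_const ?_
    exact contDiffOn_prod fun i _ => hSsm (σ i) i
  have hadj : ∀ a j, ContDiffOn ℝ ∞ (fun y => (S y).adjugate a j) W := by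
    intro a j
    have h : (fun y => (S y).adjugate a j) =
        fun y => ∑ σ : Equiv.Perm (Fin ν), ((Equiv.Perm.sign σ : ℤ) : ℂ) *
          ∏ i, ((S y).updateRow j (Pi.single a 1)) (σ i) i := by
      funext y
      rw [Matrix.adjugate_apply, Matrix.det_apply']
    rw [h]
    refine ContDiffOn.sum fun σ _ => ?_
    refine ContDiffOn.mul contDiffOn_const ?_
    refine contDiffOn_prod fun i _ => ?_
    by_cases hij : σ i = j
    · have h2 : (fun y => ((S y).updateRow j (Pi.single a 1)) (σ i) i) =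
          fun _ => (Pi.single a 1 : Fin ν → ℂ) i := by
        funext y
        rw [hij, Matrix.updateRow_self]
      rw [h2]
      exact contDiffOn_const
    · have h2 : (fun y => ((S y).updateRow j (Pi.single a 1)) (σ i) i) = fun y => S y (σ i) i := by
        funext y
        rw [Matrix.updateRow_ne hij]
      rw [h2]
      exact hSsm (σ i) i
  -- the open set
  set O : Set (E n) := W ∩ (fun y => (S y).det) ⁻¹' {0}ᶜ with hO
  have hOo : IsOpen O := hdet.continuousOn.isOpen_inter_preimage hW isOpen_compl_singleton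
  have hOW : O ⊆ W := Set.inter_subset_left
  have hzO : z ∈ O := by
    refine ⟨hz, ?_⟩
    change (S z).det ≠ 0
    rw [hSz, Matrix.det_one]
    exact one_ne_zero
  -- `S` is injective on `O`
  have hSinj : ∀ y ∈ O, ∀ τ : Fin ν → ℂ, (∀ j, ∑ a, τ a * S y j a = 0) → ∀ a, τ a = 0 := by
    intro y hy τ hτ a
    have h1 : (S y).mulVec τ = 0 := by
      funext j
      have h2 := hτ j
      simp only [Matrix.mulVec, dotProduct, Pi.zero_apply]
      rw [← h2]
      exact Finset.sum_congr rfl fun b _ => mul_comm _ _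
    have h3 := Matrix.eq_zero_of_mulVec_eq_zero (M := S y) hy.2 h1
    exact congrFun h3 a
  -- the coefficients
  set c : Fin d → Fin ν → E n → ℂ := fun k a y =>
    ((S y).det)⁻¹ * ∑ j, (S y).adjugate a j * d10 (cx (U j)) y (g k : E n) with hc
  have hcsm : ∀ k a, ContDiffOn ℝ ∞ (c k a) O := by
    intro k a
    have h1 : ContDiffOn ℝ ∞ (fun y => ((S y).det)⁻¹) O := (hdet.mono hOW).inv fun y hy => hy.2
    refine h1.mul (ContDiffOn.sum fun j _ => ?_)
    exact ((hadj a j).mono hOW).mul ((hsm j _).mono hOW)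
  have hcS : ∀ y ∈ O, ∀ k j, ∑ a, c k a y * S y j a = d10 (cx (U j)) y (g k : E n) := by
    intro y hy k j
    have hne : (S y).det ≠ 0 := hy.2
    have h1 : (S y * (S y).adjugate) = (S y).det • (1 : Matrix (Fin ν) (Fin ν) ℂ) :=
      Matrix.mul_adjugate (S y)
    have h2 : ∀ j j', ∑ a, S y j a * (S y).adjugate a j' = if j = j' then (S y).det else 0 := by
      intro j j'
      have h3 := congrFun (congrFun h1 j) j'
      rw [Matrix.mul_apply] at h3
      rw [h3]
      simp only [Matrix.smul_apply, Matrix.one_apply, smul_eq_mul, mul_ite, mul_one, mul_zero]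
    calc ∑ a, c k a y * S y j a
        = ∑ a, ∑ j', ((S y).det)⁻¹ * (S y j a * (S y).adjugate a j') *
            d10 (cx (U j')) y (g k : E n) := by
          refine Finset.sum_congr rfl fun a _ => ?_
          simp only [hc]
          rw [Finset.mul_sum, Finset.sum_mul]
          refine Finset.sum_congr rfl fun j' _ => ?_
          ring
      _ = ∑ j', ((S y).det)⁻¹ * (∑ a, S y j a * (S y).adjugate a j') *
            d10 (cx (U j')) y (g k : E n) := by
          rw [Finset.sum_comm]
          refine Finset.sum_congr rfl fun j' _ => ?_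
          rw [Finset.mul_sum, Finset.sum_mul]
      _ = d10 (cx (U j)) y (g k : E n) := by
          rw [Finset.sum_eq_single j]
          · rw [h2, if_pos rfl, inv_mul_cancel₀ hne, one_mul]
          · intro j' _ hj'
            rw [h2, if_neg (Ne.symm hj'), mul_zero, zero_mul]
          · intro h
            exact absurd (Finset.mem_univ j) h
  -- the vector fields
  set ξ : Fin d → E n → E n := fun k y => (g k : E n) - ∑ a, c k a y • f a with hξ
  have hdsum : ∀ j (y : E n) (t : Fin ν → ℂ), d10 (cx (U j)) y (∑ a, t a • f a)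
      = ∑ a, t a * S y j a := by
    intro j y t
    have h1 := map_sum (Qfr_L (U j) y) (fun a => t a • f a) Finset.univ
    rw [Qfr_L_apply] at h1
    rw [h1]
    refine Finset.sum_congr rfl fun a _ => ?_
    rw [map_smul, Qfr_L_apply, smul_eq_mul, hS]
    rfl
  have hdsub : ∀ j (y v w : E n), d10 (cx (U j)) y (v - w)
      = d10 (cx (U j)) y v - d10 (cx (U j)) y w := by
    intro j y v w
    exact map_sub (Qfr_L (U j) y) v w
  have hker : ∀ y ∈ O, ∀ k j, d10 (cx (U j)) y (ξ k y) = 0 := by
    intro y hy k j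
    simp only [hξ]
    rw [hdsub, hdsum, hcS y hy, sub_self]
  have hsurj : ∀ y ∈ O, ∀ b : Fin ν → ℂ, ∃ v, ∀ j, d10 (cx (U j)) y v = b j := by
    intro y hy b
    have hne : (S y).det ≠ 0 := hy.2
    refine ⟨∑ a, ((S y)⁻¹.mulVec b) a • f a, fun j => ?_⟩
    rw [hdsum]
    have h1 : (S y).mulVec ((S y)⁻¹.mulVec b) = b := by
      rw [Matrix.mulVec_mulVec, Matrix.mul_nonsing_inv _ (isUnit_iff_ne_zero.2 hne),
        Matrix.one_mulVec]
    have h2 := congrFun h1 j
    rw [← h2]
    simp only [Matrix.mulVec, dotProduct]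
    exact Finset.sum_congr rfl fun a _ => mul_comm _ _
  -- linear independence
  have hfz : ∀ (t : Fin ν → ℂ) j, d10 (cx (U j)) z (∑ a, t a • f a) = t j := by
    intro t j
    rw [hdsum, hSz, Finset.sum_eq_single j]
    · rw [Matrix.one_apply_eq, mul_one]
    · intro a _ ha
      rw [Matrix.one_apply_ne (Ne.symm ha), mul_zero]
    · intro h
      exact absurd (Finset.mem_univ j) h
  have hgz : ∀ (t : Fin d → ℂ) j, d10 (cx (U j)) z (∑ k, t k • (g k : E n)) = 0 := by
    intro t j
    have h1 := map_sum (Qfr_L (U j) z) (fun k => t k • (g k : E n)) Finset.univ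
    rw [Qfr_L_apply] at h1
    rw [h1]
    refine Finset.sum_eq_zero fun k _ => ?_
    rw [map_smul, Qfr_L_apply, hg, smul_zero]
  have hli : ∀ y ∈ O, LinearIndependent ℂ (fun k => ξ k y) := by
    intro y hy
    rw [Fintype.linearIndependent_iff]
    intro t ht
    have h1 : ∑ k, t k • (g k : E n) = ∑ a, (∑ k, t k * c k a y) • f a := by
      have h2 : ∑ k, t k • ξ k y = ∑ k, t k • (g k : E n) - ∑ a, (∑ k, t k * c k a y) • f a := by
        simp only [hξ, smul_sub, Finset.sum_sub_distrib, Finset.sum_smul, Finset.smul_sum,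
          smul_smul]
        congr 1
        exact Finset.sum_comm
      have h3 : ∑ k, t k • ξ k y = 0 := ht
      rw [h3] at h2
      exact (sub_eq_zero.1 h2.symm)
    have h4 : ∀ a, ∑ k, t k * c k a y = 0 := by
      intro a
      have h5 := hgz t a
      rw [h1, hfz] at h5
      exact h5
    have h6 : ∑ k, t k • (g k : E n) = 0 := by
      rw [h1]
      exact Finset.sum_eq_zero fun a _ => by rw [h4 a, zero_smul]
    have h7 : ∑ k, t k • g k = 0 := by
      apply Subtype.ext
      refine Eq.trans ?_ h6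
      simp
    exact Fintype.linearIndependent_iff.1 g.linearIndependent t h7
  have hspan : ∀ y ∈ O, ∀ v, v ∈ Submodule.span ℂ (Set.range fun k => ξ k y) ↔
      ∀ j, d10 (cx (U j)) y v = 0 := by
    intro y hy v
    have h1 : Submodule.span ℂ (Set.range fun k => ξ k y) ≤ Qfr_K U y := by
      rw [Submodule.span_le]
      rintro _ ⟨k, rfl⟩
      exact Qfr_mem_K.2 (hker y hy k)
    have h2 : Submodule.span ℂ (Set.range fun k => ξ k y) = Qfr_K U y := by
      refine Submodule.eq_of_le_of_finrank_eq h1 ?_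
      rw [finrank_span_eq_card (hli y hy), Fintype.card_fin]
      have h3 := Qfr_finrank (hsurj y hy)
      omega
    rw [h2]
    exact Qfr_mem_K
  have hnull : ∀ y ∈ O, ∀ k j b, levi (U j) y (ξ k y) b = 0 := fun y hy k j b =>
    hlev y (hOW hy) (hsurj y hy) (ξ k y) (hker y hy k) j b
  -- derivatives
  have hcd : ∀ y ∈ O, ∀ k a, DifferentiableAt ℝ (c k a) y := fun y hy k a =>
    diffAt_of hOo (hcsm k a) hy
  have hdd : ∀ y ∈ O, ∀ j v, DifferentiableAt ℝ (fun x => d10 (cx (U j)) x v) y :=
    fun y hy j v => diffAt_of hW (hsm j v) (hOW hy)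
  have hid : ∀ y ∈ O, ∀ k j, (fun x => d10 (cx (U j)) x (g k : E n)) =ᶠ[𝓝 y]
      fun x => ∑ a, c k a x * d10 (cx (U j)) x (f a) := by
    intro y hy k j
    filter_upwards [hOo.mem_nhds hy] with x hx
    exact (hcS x hx k j).symm
  have hlevi : ∀ y ∈ O, ∀ j v b, d01 (fun x => d10 (cx (U j)) x v) y b = levi (U j) y v b := by
    intro y hy j v b
    have h1 : ContDiffAt ℝ ∞ (cx (U j)) y :=
      contDiffAt_cx ((hU j).contDiffAt (hW.mem_nhds (hOW hy)))
    exact (d10_d01_comm h1 v b).symm
  have hlsum : ∀ y ∈ O, ∀ j (v : E n) (t : Fin ν → ℂ) (b : E n),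
      levi (U j) y (v - ∑ a, t a • f a) b
        = levi (U j) y v b - ∑ a, t a * levi (U j) y (f a) b := by
    intro y hy j v t b
    have h1 : ∀ F : E n → ℂ, d10 F y (v - ∑ a, t a • f a) = d10 F y v - ∑ a, t a * d10 F y (f a) := by
      intro F
      let M : E n →ₗ[ℂ] ℂ :=
        { toFun := fun w => d10 F y w
          map_add' := fun a b => d10_add_vec F y a b
          map_smul' := fun c a => d10_smul_vec F y a c }
      have h2 : M (v - ∑ a, t a • f a) = M v - ∑ a, t a * M (f a) := by
        rw [map_sub, map_sum]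
        simp only [map_smul, smul_eq_mul]
      exact h2
    exact h1 _
  have hpb : ∀ y ∈ O, ∀ k a b, d01 (c k a) y b = 0 := by
    intro y hy k a b
    refine hSinj y hy (fun a => d01 (c k a) y b) (fun j => ?_) a
    have h1 := d01_congr (a := b) (hid y hy k j)
    rw [hlevi y hy, d01_sum Finset.univ (fun a x => c k a x * d10 (cx (U j)) x (f a))
      (fun a _ => (hcd y hy k a).mul (hdd y hy j (f a)))] at h1
    have h2 : ∀ a, d01 (fun x => c k a x * d10 (cx (U j)) x (f a)) y b
        = d01 (c k a) y b * S y j a + c k a y * levi (U j) y (f a) b := by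
      intro a
      rw [d01_mul (hcd y hy k a) (hdd y hy j (f a)), hlevi y hy]
      rfl
    simp only [h2, Finset.sum_add_distrib] at h1
    have h3 := hnull y hy k j b
    simp only [hξ] at h3
    rw [hlsum y hy] at h3
    linear_combination h3 - h1
  have hch : ∀ y ∈ O, ∀ k a, DifferentiableAt ℂ (c k a) y := fun y hy k a =>
    diff_of_pb (hcd y hy k a) fun l => hpb y hy k a (e l)
  have hξh : ∀ y ∈ O, ∀ k, HasFDerivAt (ξ k)
      (-∑ a, (fderiv ℂ (c k a) y).smulRight (f a)) y := by
    intro y hy k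
    have h1 : HasFDerivAt (fun x => ∑ a, c k a x • f a)
        (∑ a, (fderiv ℂ (c k a) y).smulRight (f a)) y :=
      HasFDerivAt.fun_sum fun a _ => (hch y hy k a).hasFDerivAt.smul_const (f a)
    exact h1.const_sub _
  have hHs : ∀ y ∈ O, ∀ j (a b : E n), d10 (fun x => d10 (cx (U j)) x b) y a
      = d10 (fun x => d10 (cx (U j)) x a) y b := by
    intro y hy j a b
    have h1 : ContDiffAt ℝ ∞ (cx (U j)) y :=
      contDiffAt_cx ((hU j).contDiffAt (hW.mem_nhds (hOW hy)))
    exact d10_d10_comm h1 a b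
  -- `∂u_j (D ξ_k (b))` 
  have hDξ : ∀ y ∈ O, ∀ k j b, d10 (cx (U j)) y (fderiv ℂ (ξ k) y b)
      = - d10 (fun x => d10 (cx (U j)) x b) y (ξ k y) := by
    intro y hy k j b
    have h0 : fderiv ℂ (ξ k) y b = (0 : E n) - ∑ a, fderiv ℂ (c k a) y b • f a := by
      rw [(hξh y hy k).fderiv]
      simp only [_root_.neg_apply, _root_.sum_apply, ContinuousLinearMap.smulRight_apply]
      rw [zero_sub]
    have h1 := d10_congr (a := b) (hid y hy k j)
    rw [d10_sum Finset.univ (fun a x => c k a x * d10 (cx (U j)) x (f a))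
      (fun a _ => (hcd y hy k a).mul (hdd y hy j (f a)))] at h1
    have h2 : ∀ a, d10 (fun x => c k a x * d10 (cx (U j)) x (f a)) y b
        = fderiv ℂ (c k a) y b * S y j a + c k a y * d10 (fun x => d10 (cx (U j)) x b) y (f a) := by
      intro a
      rw [d10_mul (hcd y hy k a) (hdd y hy j (f a)), d10_of_diff (hch y hy k a), hHs y hy]
      rfl
    simp only [h2, Finset.sum_add_distrib] at h1
    rw [hHs y hy] at h1
    have h3 : d10 (fun x => d10 (cx (U j)) x b) y (ξ k y)
        = d10 (fun x => d10 (cx (U j)) x b) y (g k : E n)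
          - ∑ a, c k a y * d10 (fun x => d10 (cx (U j)) x b) y (f a) := by
      let M : E n →ₗ[ℂ] ℂ :=
        { toFun := fun w => d10 (fun x => d10 (cx (U j)) x b) y w
          map_add' := fun a b' => d10_add_vec _ y a b'
          map_smul' := fun c a => d10_smul_vec _ y a c }
      have h4 : M ((g k : E n) - ∑ a, c k a y • f a) = M (g k : E n) - ∑ a, c k a y * M (f a) := by
        rw [map_sub, map_sum]
        simp only [map_smul, smul_eq_mul]
      exact h4
    rw [h0, hdsub, d10_zero_vec, hdsum, h3, h1]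
    ring
  refine ⟨O, d, ξ, hOo, hzO, hOW, hdn, fun k y hy =>
    (hξh y hy k).differentiableAt.differentiableWithinAt, fun y hy =>
    ⟨hsurj y hy, hli y hy, hspan y hy, fun k l => ?_⟩⟩
  rw [hspan y hy]
  intro j
  unfold VectorField.lieBracket
  rw [hdsub, hDξ y hy, hDξ y hy, hHs y hy j (ξ l y) (ξ k y), sub_self]

end Pool.Agent.NDC
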