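import Pool.Agent.NDC.Qdf
import Pool.Agent.NDC.Fst
import Pool.Agent.NDC.Mdr

/-!
NDC: one subspace for all functions whose Levi form is bounded below by a multiple of `η`.
-/

open scoped ContDiff ComplexConjugate Topology ComplexOrder
open Complex MeasureTheory Matrix

namespace Pool.Agent.NDC

open Pool.Agent.CYF

variable {n : ℕ} {X : Type*} [TopologicalSpace X] {ι : Type*} {A : Mfd n X ι}
  {η om : Form A} {m : ℝ} {s : ι → E n → ℂ} {ν : ℕ}

private theorem Qpa_levi_add {v v' : E n → ℝ} {U : Set (E n)} (hU : IsOpen U)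
    (hv : ContDiffOn ℝ ∞ v U) (hv' : ContDiffOn ℝ ∞ v' U) {z : E n} (hz : z ∈ U) (a c : E n) :
    levi (fun y => v y + v' y) z a c = levi v z a c + levi v' z a c := by
  have hn := hU.mem_nhds hz
  rw [levi_eq_sum ((hv.add hv').contDiffAt hn), levi_eq_sum (hv.contDiffAt hn),
    levi_eq_sum (hv'.contDiffAt hn), ← Finset.sum_add_distrib]
  refine Finset.sum_congr rfl fun k _ => ?_
  rw [← Finset.sum_add_distrib]
  refine Finset.sum_congr rfl fun l _ => ?_
  rw [LM_add hU hv hv' hz]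
  ring

private theorem Qpa_levi_mul {v : E n → ℝ} {U : Set (E n)} (hU : IsOpen U)
    (hv : ContDiffOn ℝ ∞ v U) {z : E n} (hz : z ∈ U) (r : ℝ) (a c : E n) :
    levi (fun y => r * v y) z a c = r * levi v z a c := by
  have hn := hU.mem_nhds hz
  rw [levi_eq_sum ((contDiffOn_const.mul hv).contDiffAt hn), levi_eq_sum (hv.contDiffAt hn),
    Finset.mul_sum]
  refine Finset.sum_congr rfl fun k _ => ?_
  rw [Finset.mul_sum]
  refine Finset.sum_congr rfl fun l _ => ?_
  rw [LM_const_mul hU hv hz]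
  ring

private theorem Qpa_levi_congr {v v' : E n → ℝ} {z : E n} (h : v =ᶠ[𝓝 z] v') (a c : E n) :
    levi v z a c = levi v' z a c := by
  unfold levi
  refine d10_congr ?_
  filter_upwards [h.eventuallyEq_nhds] with y hy
  refine d01_congr ?_
  filter_upwards [hy] with x hx
  rw [hx]

private theorem Qpa_levi_const (r : ℝ) (z a c : E n) : levi (fun _ : E n => r) z a c = 0 := by
  unfold levi
  have h3 : (fun y => d01 (fun _ : E n => ((r : ℝ) : ℂ)) y c) = fun _ : E n => (0 : ℂ) := by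
    funext y
    exact d01_const _
  rw [h3]
  exact d10_const _

/-- `log |s|²` has `i∂∂̄ = -m η` -/
private theorem Qpa_levi_log (hs : η.IsSection m s) {i : ι} {z : E n}
    (hz : z ∈ Ou A (Off A s) i) (a c : E n) :
    levi (vt A (fun x => Real.log (len η m s x)) i) z a c = ((-m : ℝ) : ℂ) * levi (η.w i) z a c := by
  have hE := exh_log (A := A) (m := m) hs
  have hn := (isOpen_Ou A hE.isOpen i).mem_nhds hz
  rw [levi_eq_sum ((hE.smooth i).contDiffAt hn),
    levi_eq_sum ((η.smooth i).contDiffAt ((A.c i).open_target.mem_nhds hz.1)), Finset.mul_sum]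
  refine Finset.sum_congr rfl fun k _ => ?_
  rw [Finset.mul_sum]
  refine Finset.sum_congr rfl fun l _ => ?_
  rw [hE.levi_eq i z hz]
  ring

/-- the case `m ≠ 0` -/
private theorem Qpa_ne [T2Space X] [CompactSpace X] (hη : η.Semipositive) (hν : η.RankLE ν)
    (hom : om.Positive) (hs : η.IsSection m s) (hm : m ≠ 0) (i : ι) (z : E n)
    (hz : z ∈ Ou A (Off A s) i) :
    ∃ V : Submodule ℂ (E n), n ≤ Module.finrank ℂ V + ν ∧ ∀ v ∈ V,
      (∀ b, levi (η.w i) z v b = 0) ∧ fderiv ℝ (vt A (len η m s) i) z v = 0 ∧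
      (∀ u : X → ℝ, η.InM (Off A s) u →
        (∀ b, levi (vt A u i) z v b = 0) ∧ fderiv ℝ (vt A u i) z v = 0) ∧
      ∀ f : X → ℂ, HolOn A (Off A s) f → fderiv ℂ (f ∘ (A.c i).symm) z v = 0 := by
  obtain ⟨V, hV, H⟩ := part_one hη hν hom hs i z hz
  refine ⟨V, hV, fun v hv => ?_⟩
  obtain ⟨h1, h2, h3, h4⟩ := H v hv
  refine ⟨h1, h2, fun u hu => ?_, h4⟩
  have hE := exh_log (A := A) (m := m) hs
  obtain ⟨C, hC⟩ := hu.bound
  have hO : ∀ i, IsOpen (Ou A (Off A s) i) := isOpen_Ou A hE.isOpen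
  have hmul : ∀ i, ContDiffOn ℝ ∞
      (fun y => (-(C / m)) * vt A (fun x => Real.log (len η m s x)) i y) (Ou A (Off A s) i) :=
    fun i => contDiffOn_const.mul (hE.smooth i)
  have hlev : ∀ i, ∀ z ∈ Ou A (Off A s) i, ∀ a c : E n,
      levi (vt A (fun x => u x + (-(C / m)) * Real.log (len η m s x)) i) z a c
        = levi (vt A u i) z a c + (C : ℂ) * levi (η.w i) z a c := by
    intro i z hz a c
    have h5 := Qpa_levi_add (hO i) (hu.smooth i) (hmul i) hz a c
    have h6 := Qpa_levi_mul (hO i) (hE.smooth i) hz (-(C / m)) a c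
    have h7 : ((-(C / m) : ℝ) : ℂ) * ((-m : ℝ) : ℂ) = (C : ℂ) := by
      rw [← Complex.ofReal_mul]
      congr 1
      field_simp
    rw [h6, Qpa_levi_log hs hz, ← mul_assoc, h7] at h5
    exact h5
  have hw : PshOn A (Off A s) (fun x => u x + (-(C / m)) * Real.log (len η m s x)) := by
    refine ⟨fun i => (hu.smooth i).add (hmul i), fun i z hz a => ?_⟩
    rw [hlev i z hz a a, add_comm]
    exact hC i z hz a
  obtain ⟨h5, h6⟩ := h3 _ hw
  refine ⟨fun b => ?_, ?_⟩
  · have h7 := h5 b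
    rw [hlev i z hz v b, h1 b, mul_zero, add_zero] at h7
    exact h7
  · have hn := (hO i).mem_nhds hz
    have hdu : DifferentiableAt ℝ (vt A u i) z :=
      ((hu.smooth i).contDiffAt hn).differentiableAt (by simp)
    have hdl : DifferentiableAt ℝ (vt A (len η m s) i) z :=
      ((Sm_len hs i).contDiffAt ((A.c i).open_target.mem_nhds hz.1)).differentiableAt (by simp)
    have hne : vt A (len η m s) i z ≠ 0 := ((len_pos hs).2 hz.2).ne'
    have h7 : HasFDerivAt (vt A (fun x => u x + (-(C / m)) * Real.log (len η m s x)) i)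
        (fderiv ℝ (vt A u i) z + (-(C / m)) • ((vt A (len η m s) i z)⁻¹ •
          fderiv ℝ (vt A (len η m s) i) z)) z :=
      hdu.hasFDerivAt.add ((hdl.hasFDerivAt.log hne).const_mul (-(C / m)))
    rw [h7.fderiv] at h6
    simp only [_root_.add_apply, _root_.smul_apply, h2, smul_zero, add_zero] at h6
    exact h6

/-- the form zero -/
private def Qpa_Z (A : Mfd n X ι) : Form A where
  w := fun _ _ => 0
  smooth := fun _ => contDiffOn_const
  compat := fun _ _ _ _ _ _ _ => by rw [Qpa_levi_const, Qpa_levi_const]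

private theorem Qpa_psh (hs : η.IsSection 0 s) {i : ι} {z : E n} (hz : z ∈ (A.c i).target)
    (a : E n) : 0 ≤ (levi (vt A (len η 0 s) i) z a a).re := by
  set f : X → ℂ := fun x => s i (A.c i x) with hf
  have hY : IsOpen (A.c i).source := (A.c i).open_source
  have hhol : HolOn A (A.c i).source f := by
    intro j
    have h1 := (hs.hol i).comp (A.hol j i) (fun y hy => (A.c i).map_source hy.2)
    exact h1.mono fun y hy => ⟨hy.1, hy.2⟩
  have h2 := (psh_nq hY hhol).2 i z ⟨hz, (A.c i).map_target hz⟩ a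
  have h3 : vt A (len η 0 s) i =ᶠ[𝓝 z] vt A (fun x => ‖f x‖ ^ 2) i := by
    filter_upwards [(A.c i).open_target.mem_nhds hz] with y hy
    rw [len_chart hs hy]
    unfold vt
    simp only [hf, (A.c i).right_inv hy]
    simp
  rw [Qpa_levi_congr h3]
  exact h2

private theorem Qpa_fderiv [T2Space X] [CompactSpace X] (hom : om.Positive)
    (hs : η.IsSection 0 s) {i : ι} {z : E n} (hz : z ∈ (A.c i).target) :
    fderiv ℝ (vt A (len η 0 s) i) z = 0 := by
  have h1 : (Qpa_Z A).Semipositive := by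
    intro i z _ a
    change 0 ≤ (levi (fun _ => 0) z a a).re
    rw [Qpa_levi_const]
    simp
  have h2 : (Qpa_Z A).RankLE 0 := by
    intro i z _
    have h3 : lm ((Qpa_Z A).w i) z = 0 := by
      ext k l
      change levi (fun _ => 0) z (e k) (e l) = 0
      exact Qpa_levi_const _ _ _ _
    rw [h3]
    simp
  obtain ⟨V, hV, hV2⟩ := metric_V h1 h2 hom i z hz
  have hpot : (Qpa_Z A).IsPot (len η 0 s) := by
    refine ⟨Sm_len hs, fun i z hz a => ?_⟩
    have h3 : levi ((Qpa_Z A).w i) z a a = 0 := Qpa_levi_const _ _ _ _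
    rw [h3, zero_add]
    exact Qpa_psh hs hz a
  have hfin : Module.finrank ℂ (E n) = n := by simp [E]
  have htop : V = ⊤ := by
    refine Submodule.eq_top_of_finrank_eq (le_antisymm (Submodule.finrank_le V) ?_)
    rw [hfin]
    simpa using hV
  ext v
  have h4 : v ∈ V := by
    rw [htop]
    trivial
  exact ((hV2 v h4).2 _ hpot).2

private theorem Qpa_open_compl [T2Space X] [CompactSpace X] (hom : om.Positive)
    (hs : η.IsSection 0 s) : IsOpen {x | x ∉ Off A s} := by
  rw [isOpen_iff_mem_nhds]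
  intro x hx
  have hi := mem_ix A x
  set i := ix A x with hidef
  have hx0 : len η 0 s x = 0 := by
    have h1 : ¬ 0 < len η 0 s x := fun h => hx ((len_pos hs).1 h)
    have h2 : 0 ≤ len η 0 s x := mul_nonneg (by positivity) (Real.exp_pos _).le
    exact le_antisymm (not_lt.1 h1) h2
  have hz : A.c i x ∈ (A.c i).target := (A.c i).map_source hi
  obtain ⟨r, hr, hball⟩ := Metric.isOpen_iff.1 (A.c i).open_target _ hz
  have hconst : ∀ y ∈ Metric.ball (A.c i x) r,
      vt A (len η 0 s) i y = vt A (len η 0 s) i (A.c i x) := by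
    intro y hy
    refine IsOpen.is_const_of_fderiv_eq_zero (𝕜 := ℝ) Metric.isOpen_ball
      (convex_ball _ _).isPreconnected (fun w hw => ?_) (fun w hw => ?_) hy
      (Metric.mem_ball_self hr)
    · exact (((Sm_len hs i).contDiffAt ((A.c i).open_target.mem_nhds (hball hw))).differentiableAt
        (by simp)).differentiableWithinAt
    · exact Qpa_fderiv hom hs (hball hw)
  have h3 : ∀ᶠ y in 𝓝 x, A.c i y ∈ Metric.ball (A.c i x) r :=
    ((A.c i).continuousAt hi).eventually (Metric.isOpen_ball.mem_nhds (Metric.mem_ball_self hr))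
  filter_upwards [h3, (A.c i).open_source.mem_nhds hi] with y hy hyi hyO
  have h4 := hconst _ hy
  rw [vt_chart hyi, vt_chart hi, hx0] at h4
  have h5 := (len_pos hs).2 hyO
  rw [h4] at h5
  exact lt_irrefl _ h5

private theorem Qpa_in {Y : Set X} (hY : IsOpen Y) (u : X → ℝ) {i : ι} {z : E n}
    (hz : z ∈ Ou A Y i) : vt A (ez Y u) i =ᶠ[𝓝 z] vt A u i := by
  filter_upwards [(isOpen_Ou A hY i).mem_nhds hz] with y hy
  unfold vt ez
  rw [if_pos hy.2]

private theorem Qpa_out {Y : Set X} (hY : IsOpen {x | x ∉ Y}) (u : X → ℝ) {i : ι} {z : E n}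
    (hz : z ∈ (A.c i).target) (hz' : (A.c i).symm z ∉ Y) :
    vt A (ez Y u) i =ᶠ[𝓝 z] fun _ => 0 := by
  have h1 : z ∈ Ou A {x | x ∉ Y} i := ⟨hz, hz'⟩
  filter_upwards [(isOpen_Ou A hY i).mem_nhds h1] with y hy
  unfold vt ez
  rw [if_neg hy.2]

private theorem Qpa_Sm {Y : Set X} (hY : IsOpen Y) (hY' : IsOpen {x | x ∉ Y}) {u : X → ℝ}
    (hu : SmOn A Y u) : Sm A (ez Y u) := by
  intro i z hz
  refine ContDiffAt.contDiffWithinAt ?_
  by_cases h : (A.c i).symm z ∈ Y
  · have h1 : z ∈ Ou A Y i := ⟨hz, h⟩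
    exact ((hu i).contDiffAt ((isOpen_Ou A hY i).mem_nhds h1)).congr_of_eventuallyEq
      (Qpa_in hY u h1)
  · exact contDiffAt_const.congr_of_eventuallyEq (Qpa_out hY' u hz h)

private theorem Qpa_pot (hη : η.Semipositive) {Y : Set X} (hY : IsOpen Y)
    (hY' : IsOpen {x | x ∉ Y}) {u : X → ℝ} (hu : SmOn A Y u) {C : ℝ}
    (hC : ∀ i, ∀ z ∈ Ou A Y i, ∀ a : E n,
      0 ≤ (C * levi (η.w i) z a a + levi (vt A u i) z a a).re) :
    η.IsPot (fun x => (|C| + 1)⁻¹ * ez Y u x) := by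
  have hS := Qpa_Sm hY hY' hu
  have hp : 0 < |C| + 1 := by positivity
  refine ⟨fun i => contDiffOn_const.mul (hS i), fun i z hz a => ?_⟩
  have h1 : levi (vt A (fun x => (|C| + 1)⁻¹ * ez Y u x) i) z a a
      = (((|C| + 1)⁻¹ : ℝ) : ℂ) * levi (vt A (ez Y u) i) z a a :=
    Qpa_levi_mul (A.c i).open_target (hS i) hz _ a a
  rw [h1, Complex.add_re, Complex.re_ofReal_mul]
  have h0 := hη i z hz a
  by_cases h : (A.c i).symm z ∈ Y
  · have hz' : z ∈ Ou A Y i := ⟨hz, h⟩
    have h2 := hC i z hz' a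
    rw [Qpa_levi_congr (Qpa_in hY u hz')]
    rw [Complex.add_re, Complex.re_ofReal_mul] at h2
    have h3 : C * (levi (η.w i) z a a).re ≤ |C| * (levi (η.w i) z a a).re :=
      mul_le_mul_of_nonneg_right (le_abs_self C) h0
    have h4 : 0 ≤ (|C| + 1) * (levi (η.w i) z a a).re + (levi (vt A u i) z a a).re := by
      linarith
    have h5 := mul_nonneg (inv_pos.2 hp).le h4
    have h6 : (|C| + 1)⁻¹ * ((|C| + 1) * (levi (η.w i) z a a).re + (levi (vt A u i) z a a).re)
        = (levi (η.w i) z a a).re + (|C| + 1)⁻¹ * (levi (vt A u i) z a a).re := by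
      field_simp
    rw [h6] at h5
    exact h5
  · rw [Qpa_levi_congr (Qpa_out hY' u hz h), Qpa_levi_const, Complex.zero_re, mul_zero, add_zero]
    exact h0

/-- plurisubharmonic functions are in the class -/
theorem psh_inM {Y : Set X} {u : X → ℝ} (hu : PshOn A Y u) (η : Form A) : η.InM Y u := by
  refine ⟨hu.1, 0, fun i z hz a => ?_⟩
  rw [Complex.ofReal_zero, zero_mul, zero_add]
  exact hu.2 i z hz a

/-- the case `m = 0` -/
private theorem Qpa_zero [T2Space X] [CompactSpace X] (hη : η.Semipositive) (hν : η.RankLE ν)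
    (hom : om.Positive) (hs : η.IsSection 0 s) (i : ι) (z : E n)
    (hz : z ∈ Ou A (Off A s) i) :
    ∃ V : Submodule ℂ (E n), n ≤ Module.finrank ℂ V + ν ∧ ∀ v ∈ V,
      (∀ b, levi (η.w i) z v b = 0) ∧ fderiv ℝ (vt A (len η 0 s) i) z v = 0 ∧
      (∀ u : X → ℝ, η.InM (Off A s) u →
        (∀ b, levi (vt A u i) z v b = 0) ∧ fderiv ℝ (vt A u i) z v = 0) ∧
      ∀ f : X → ℂ, HolOn A (Off A s) f → fderiv ℂ (f ∘ (A.c i).symm) z v = 0 := by
  have hY := isOpen_Off hs
  have hY' := Qpa_open_compl hom hs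
  obtain ⟨V, hV, hV2⟩ := metric_V hη hν hom i z hz.1
  have key : ∀ v ∈ V, ∀ u : X → ℝ, η.InM (Off A s) u →
      (∀ b, levi (vt A u i) z v b = 0) ∧ fderiv ℝ (vt A u i) z v = 0 := by
    intro v hv u hu
    obtain ⟨C, hC⟩ := hu.bound
    have hp : (|C| + 1)⁻¹ ≠ 0 := by positivity
    have hpot := Qpa_pot hη hY hY' hu.smooth hC
    obtain ⟨h1, h2⟩ := (hV2 v hv).2 _ hpot
    have hS := Qpa_Sm hY hY' hu.smooth
    refine ⟨fun b => ?_, ?_⟩
    · have h3 : levi (vt A (fun x => (|C| + 1)⁻¹ * ez (Off A s) u x) i) z v b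
          = (((|C| + 1)⁻¹ : ℝ) : ℂ) * levi (vt A (ez (Off A s) u) i) z v b :=
        Qpa_levi_mul (A.c i).open_target (hS i) hz.1 _ v b
      rw [h1 b, Qpa_levi_congr (Qpa_in hY u hz)] at h3
      have h4 : (((|C| + 1)⁻¹ : ℝ) : ℂ) ≠ 0 := by exact_mod_cast hp
      exact (mul_eq_zero.1 h3.symm).resolve_left h4
    · have hdu : DifferentiableAt ℝ (vt A u i) z :=
        ((hu.smooth i).contDiffAt ((isOpen_Ou A hY i).mem_nhds hz)).differentiableAt (by simp)
      have h3 : HasFDerivAt (vt A (fun x => (|C| + 1)⁻¹ * ez (Off A s) u x) i)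
          ((|C| + 1)⁻¹ • fderiv ℝ (vt A u i) z) z := by
        refine (hdu.hasFDerivAt.const_mul (|C| + 1)⁻¹).congr_of_eventuallyEq ?_
        filter_upwards [Qpa_in hY u hz] with y hy
        have h5 : vt A (fun x => (|C| + 1)⁻¹ * ez (Off A s) u x) i y
            = (|C| + 1)⁻¹ * vt A (ez (Off A s) u) i y := rfl
        rw [h5, hy]
      rw [h3.fderiv, _root_.smul_apply, smul_eq_mul] at h2
      exact (mul_eq_zero.1 h2).resolve_left hp
  refine ⟨V, hV, fun v hv => ⟨(hV2 v hv).1, ?_, key v hv, fun f hf => ?_⟩⟩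
  · rw [Qpa_fderiv hom hs hz.1]
    rfl
  · exact nq_ker hY hf hz (key v hv _ (psh_inM (psh_nq hY hf) η)).1

theorem part_q [T2Space X] [CompactSpace X] (hη : η.Semipositive) (hν : η.RankLE ν)
    (hom : om.Positive) (hs : η.IsSection m s) (i : ι) (z : E n)
    (hz : z ∈ Ou A (Off A s) i) :
    ∃ V : Submodule ℂ (E n), n ≤ Module.finrank ℂ V + ν ∧ ∀ v ∈ V,
      (∀ b, levi (η.w i) z v b = 0) ∧ fderiv ℝ (vt A (len η m s) i) z v = 0 ∧
      (∀ u : X → ℝ, η.InM (Off A s) u →
        (∀ b, levi (vt A u i) z v b = 0) ∧ fderiv ℝ (vt A u i) z v = 0) ∧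
      ∀ f : X → ℂ, HolOn A (Off A s) f → fderiv ℂ (f ∘ (A.c i).symm) z v = 0 := by
  by_cases hm : m = 0
  · subst hm
    exact Qpa_zero hη hν hom hs i z hz
  · exact Qpa_ne hη hν hom hs hm i z hz

end Pool.Agent.NDC
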