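import Pool.Agent.NDC.Qpa
import Pool.Agent.NDC.Qfr

/-!
NDC: `ν` functions with independent `∂u_j` on the complement of the zero set of a section.
-/

open scoped ContDiff ComplexConjugate Topology ComplexOrder
open Complex MeasureTheory Matrix

namespace Pool.Agent.NDC

open Pool.Agent.CYF

variable {n : ℕ} {X : Type*} [TopologicalSpace X] {ι : Type*} {A : Mfd n X ι}
  {η om : Form A} {m : ℝ} {s : ι → E n → ℂ} {ν : ℕ}

private noncomputable def Qth_L (u : E n → ℝ) (y : E n) : E n →L[ℂ] ℂ :=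
  LinearMap.toContinuousLinearMap
    { toFun := fun v => d10 (cx u) y v
      map_add' := fun a b => d10_add_vec _ _ a b
      map_smul' := fun c a => d10_smul_vec _ _ a c }

private theorem Qth_d10 {u : E n → ℝ} {y v : E n} (hu : DifferentiableAt ℝ u y)
    (h : fderiv ℝ u y v = 0) (h' : fderiv ℝ u y (I • v) = 0) : d10 (cx u) y v = 0 := by
  have h1 : HasFDerivAt (cx u) (Complex.ofRealCLM.comp (fderiv ℝ u y)) y :=
    Complex.ofRealCLM.hasFDerivAt.comp y hu.hasFDerivAt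
  unfold d10
  rw [h1.fderiv]
  simp only [ContinuousLinearMap.comp_apply, h, h', map_zero, mul_zero, sub_zero, zero_div]

theorem part_null [T2Space X] [CompactSpace X] (hη : η.Semipositive) (hν : η.RankLE ν)
    (hom : om.Positive) (hs : η.IsSection m s) (i : ι) (z : E n)
    (hz : z ∈ Ou A (Off A s) i) :
    ∃ V : Submodule ℂ (E n), n ≤ Module.finrank ℂ V + ν ∧ ∀ v ∈ V, η.Null m s i z v := by
  obtain ⟨V, hV, hv⟩ := part_q hη hν hom hs i z hz
  exact ⟨V, hV, fun v h => ⟨(hv v h).1, (hv v h).2.1, (hv v h).2.2.1, (hv v h).2.2.2⟩⟩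

private theorem Qth_null [T2Space X] [CompactSpace X] (hη : η.Semipositive) (hν : η.RankLE ν)
    (hom : om.Positive) (hs : η.IsSection m s) {u : Fin ν → X → ℝ}
    (hu : ∀ j, η.InM (Off A s) (u j)) {i : ι} {y : E n} (hy : y ∈ Ou A (Off A s) i)
    (hsurj : ∀ b : Fin ν → ℂ, ∃ v, ∀ j, d10 (cx (vt A (u j) i)) y v = b j) {v : E n}
    (hv : ∀ j, d10 (cx (vt A (u j) i)) y v = 0) : η.Null m s i y v := by
  obtain ⟨V, hV, hV2⟩ := part_null hη hν hom hs i y hy
  refine hV2 v (ker_le (L := fun j => Qth_L (vt A (u j) i) y) (indep_of_surj hsurj) hV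
    (fun w hw j => ?_) hv)
  have hd : DifferentiableAt ℝ (vt A (u j) i) y :=
    (((hu j).smooth i).contDiffAt ((isOpen_Ou A (isOpen_Off hs) i).mem_nhds hy)).differentiableAt
      (by simp)
  exact Qth_d10 hd ((hV2 w hw).psh (u j) (hu j)).2
    ((hV2 _ (V.smul_mem I hw)).psh (u j) (hu j)).2

theorem three_q [T2Space X] [CompactSpace X] (hη : η.Semipositive) (hν : η.RankLE ν)
    (hom : om.Positive) (hs : η.IsSection m s) {u : Fin ν → X → ℝ}
    (hu : ∀ j, η.InM (Off A s) (u j)) {i : ι} {z : E n} (hz : z ∈ Ou A (Off A s) i)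
    (hind : LinearIndependent ℂ (fun j => d10 (cx (vt A (u j) i)) z)) :
    ∃ (O : Set (E n)) (d : ℕ) (ξ : Fin d → E n → E n), IsOpen O ∧ z ∈ O ∧
      O ⊆ Ou A (Off A s) i ∧ d + ν = n ∧ (∀ k, DifferentiableOn ℂ (ξ k) O) ∧ ∀ y ∈ O,
        LinearIndependent ℂ (fun k => ξ k y) ∧
        (∀ v ∈ Submodule.span ℂ (Set.range fun k => ξ k y), η.Null m s i y v) ∧
        ∀ k l, VectorField.lieBracket ℂ (ξ k) (ξ l) y ∈
          Submodule.span ℂ (Set.range fun k => ξ k y) := by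
  have hO := isOpen_Ou A (isOpen_Off hs) i
  obtain ⟨O, d, ξ, h1, h2, h3, h4, h5, h6⟩ := frame_local hO (U := fun j => vt A (u j) i)
    (fun j => (hu j).smooth i)
    (fun y hy hsurj v hv j b => ((Qth_null hη hν hom hs hu hy hsurj hv).psh (u j) (hu j)).1 b)
    hz hind
  refine ⟨O, d, ξ, h1, h2, h3, h4, h5, fun y hy => ?_⟩
  obtain ⟨h7, h8, h9, h10⟩ := h6 y hy
  exact ⟨h8, fun v hv => Qth_null hη hν hom hs hu (h3 hy) h7 ((h9 v).1 hv), h10⟩

end Pool.Agent.NDC
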