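import Pool.Agent.NDC.Lcr
import Pool.Agent.SRD.Srd

/-!
NDC module Srx (size 3): Sard's theorem on `X`.
PROOF. `X` is compact: a finite set `t` of charts `ix A x` covers `X` (`CompactSpace.elim_nhds_subcover`, `mem_ix`). For a chart `i` let
`F i y = fun j => vt A (u j) i y`, smooth on the open set `Ou A Y i`; `Z = ⋃ i ∈ t, F i '' crit (F i) (Ou A Y i)` is null (`sard`, module SRD/Srd). Let
`z ∈ Ou A Y i` be a point (of any chart `i`) where the forms are dependent, and `i' ∈ t` with `(A.c i).symm z ∈ (A.c i').source`, so `z ∈ Uo A i i'`,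
`z' = ph A i i' z ∈ Ou A Y i'`. The forms at `z'` are dependent too: `vt A (u j) i = vt A (u j) i' ∘ ph A i i'` near `z`, so
`fderiv ℝ (vt A (u j) i') z' = fderiv ℝ (vt A (u j) i) z ∘ fderiv ℝ (ph A i' i) z'` (`ph_ph`, near `z'`; `ph` is real differentiable); a linear relation of the
forms at `z` gives one of the forms at `z'`. So `fderiv ℝ (F i') z'` is not surjective (`real_indep`, module Krl, with the components
`fderiv ℝ (F i') z' v j = fderiv ℝ (vt A (u j) i') z' v`, `fderiv_pi`), `z' ∈ crit`, and `F i' z' = fun j => u j ((A.c i).symm z)` (`symm_ph`).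
`near`: `F = F i` is strictly differentiable at `z` with surjective derivative (`real_surj`, module Krl), so `map F (𝓝 z) = 𝓝 (F z)`
(`HasStrictFDerivAt.map_nhds_eq_of_surj`); the set `N = {y ∈ Ou A Y i | (A.c i).symm y ∈ O}` is a neighbourhood of `z`, so `F '' N` is a
neighbourhood of `F z`, of positive measure (`MeasureTheory.Measure.measure_pos_of_mem_nhds`), so it is not contained in `Z`.
-/

open scoped ContDiff ComplexConjugate Topology ComplexOrder
open Complex MeasureTheory Matrix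

namespace Pool.Agent.NDC

open Pool.Agent.CYF

variable {n : ℕ} {X : Type*} [TopologicalSpace X] {ι : Type*} {A : Mfd n X ι}
  {Y : Set X} {N : ℕ} {u : Fin N → X → ℝ}

theorem null_values [CompactSpace X] (hY : IsOpen Y) (hu : ∀ j, SmOn A Y (u j)) :
    ∃ Z : Set (Fin N → ℝ), volume Z = 0 ∧ ∀ i, ∀ z ∈ Ou A Y i,
      (fun j => u j ((A.c i).symm z)) ∉ Z →
        LinearIndependent ℝ (fun j => fderiv ℝ (vt A (u j) i) z) := by
  classical
  obtain ⟨t, ht⟩ := CompactSpace.elim_nhds_subcover (fun x => (A.c (ix A x)).source)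
    (fun x => (A.c (ix A x)).open_source.mem_nhds (mem_ix A x))
  let F : ι → E n → (Fin N → ℝ) := fun i y j => vt A (u j) i y
  have hF : ∀ i, ContDiffOn ℝ ∞ (F i) (Ou A Y i) := fun i => contDiffOn_pi.2 fun j => hu j i
  refine ⟨⋃ x ∈ t, F (ix A x) '' SRD.crit (F (ix A x)) (Ou A Y (ix A x)), ?_, ?_⟩
  · refine (measure_biUnion_null_iff t.countable_toSet).2 ?_
    intro x _
    exact SRD.sard (isOpen_Ou A hY _) (hF _)
  · intro i z hz hnot
    have hx : (A.c i).symm z ∈ ⋃ x ∈ t, (A.c (ix A x)).source := by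
      rw [ht]
      trivial
    simp only [Set.mem_iUnion] at hx
    obtain ⟨x, hxt, hx⟩ := hx
    have hU : z ∈ Uo A i (ix A x) := ⟨hz.1, hx⟩
    have hz' : ph A i (ix A x) z ∈ Ou A Y (ix A x) := ph_mem_Ou hU hz
    have hval : F (ix A x) (ph A i (ix A x) z) = fun j => u j ((A.c i).symm z) := by
      funext j
      change vt A (u j) (ix A x) (ph A i (ix A x) z) = _
      rw [vt_ph hU]
      rfl
    have hsurj : Function.Surjective (fderiv ℝ (F (ix A x)) (ph A i (ix A x) z)) := by
      by_contra hcon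
      apply hnot
      simp only [Set.mem_iUnion]
      exact ⟨x, hxt, ph A i (ix A x) z, ⟨hz', hcon⟩, hval⟩
    have hdiff : ∀ (k : ι) (y : E n), y ∈ Ou A Y k → ∀ j,
        DifferentiableAt ℝ (vt A (u j) k) y := fun k y hy j =>
      ((hu j k).contDiffAt ((isOpen_Ou A hY k).mem_nhds hy)).differentiableAt (by simp)
    have hdF : ∀ v j, fderiv ℝ (F (ix A x)) (ph A i (ix A x) z) v j =
        fderiv ℝ (vt A (u j) (ix A x)) (ph A i (ix A x) z) v := by
      intro v j
      have h1 : HasFDerivAt (F (ix A x)) (ContinuousLinearMap.pi fun j =>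
          fderiv ℝ (vt A (u j) (ix A x)) (ph A i (ix A x) z)) (ph A i (ix A x) z) :=
        hasFDerivAt_pi.2 fun j => (hdiff _ _ hz' j).hasFDerivAt
      rw [h1.fderiv]
      rfl
    have hind' : LinearIndependent ℝ
        (fun j => fderiv ℝ (vt A (u j) (ix A x)) (ph A i (ix A x) z)) := by
      apply real_indep
      intro b
      obtain ⟨v, hv⟩ := hsurj b
      exact ⟨v, fun j => by rw [← hdF, hv]⟩
    have hU' : ph A i (ix A x) z ∈ Uo A (ix A x) i := ph_mem_Uo hU
    have hchain : ∀ j, fderiv ℝ (vt A (u j) (ix A x)) (ph A i (ix A x) z) =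
        (fderiv ℝ (vt A (u j) i) z).comp
          (fderiv ℝ (ph A (ix A x) i) (ph A i (ix A x) z)) := by
      intro j
      have h1 : vt A (u j) (ix A x) =ᶠ[𝓝 (ph A i (ix A x) z)]
          (vt A (u j) i) ∘ (ph A (ix A x) i) := by
        filter_upwards [(isOpen_Uo A (ix A x) i).mem_nhds hU'] with y hy
        exact (vt_ph hy (u j)).symm
      have h2 : DifferentiableAt ℝ (ph A (ix A x) i) (ph A i (ix A x) z) :=
        (((contDiffOn_ph A (ix A x) i).contDiffAt
          ((isOpen_Uo A (ix A x) i).mem_nhds hU')).differentiableAt (by simp)).restrictScalars ℝ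
      have h3 : DifferentiableAt ℝ (vt A (u j) i)
          (ph A (ix A x) i (ph A i (ix A x) z)) := by
        rw [ph_ph hU]
        exact hdiff _ _ hz j
      rw [h1.fderiv_eq, fderiv_comp _ h3 h2, ph_ph hU]
    rw [Fintype.linearIndependent_iff] at hind' ⊢
    intro g hg
    refine hind' g ?_
    have h4 : ∑ j, g j • fderiv ℝ (vt A (u j) (ix A x)) (ph A i (ix A x) z) =
        (∑ j, g j • fderiv ℝ (vt A (u j) i) z).comp
          (fderiv ℝ (ph A (ix A x) i) (ph A i (ix A x) z)) := by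
      ext v
      simp [hchain]
    rw [h4, hg, ContinuousLinearMap.zero_comp]

theorem near (hY : IsOpen Y) (hu : ∀ j, SmOn A Y (u j)) {Z : Set (Fin N → ℝ)}
    (hZ : volume Z = 0) {i : ι} {z : E n} (hz : z ∈ Ou A Y i)
    (hind : LinearIndependent ℝ (fun j => fderiv ℝ (vt A (u j) i) z)) {O : Set X}
    (hO : IsOpen O) (hx : (A.c i).symm z ∈ O) :
    ∃ x, x ∈ O ∧ x ∈ Y ∧ (fun j => u j x) ∉ Z := by
  by_contra hcon
  push Not at hcon
  let F : E n → (Fin N → ℝ) := fun y j => vt A (u j) i y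
  have hF : ContDiffOn ℝ ∞ F (Ou A Y i) := contDiffOn_pi.2 fun j => hu j i
  have hFz : ContDiffAt ℝ ∞ F z := hF.contDiffAt ((isOpen_Ou A hY i).mem_nhds hz)
  have hst : HasStrictFDerivAt F (fderiv ℝ F z) z := hFz.hasStrictFDerivAt (by simp)
  have hdF : ∀ v j, fderiv ℝ F z v j = fderiv ℝ (vt A (u j) i) z v := by
    intro v j
    have h1 : HasFDerivAt F (ContinuousLinearMap.pi fun j => fderiv ℝ (vt A (u j) i) z) z :=
      hasFDerivAt_pi.2 fun j => (((hu j i).contDiffAt
        ((isOpen_Ou A hY i).mem_nhds hz)).differentiableAt (by simp)).hasFDerivAt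
    rw [h1.fderiv]
    rfl
  have hsurj : (fderiv ℝ F z).range = ⊤ := by
    rw [LinearMap.range_eq_top]
    intro b
    obtain ⟨v, hv⟩ := real_surj hind b
    exact ⟨v, funext fun j => (hdF v j).trans (hv j)⟩
  have hmap := hst.map_nhds_eq_of_surj hsurj
  have hN : {y | y ∈ Ou A Y i ∧ (A.c i).symm y ∈ O} ∈ 𝓝 z := by
    have h1 : ContinuousAt (A.c i).symm z := (A.c i).continuousAt_symm hz.1
    exact Filter.inter_mem ((isOpen_Ou A hY i).mem_nhds hz) (h1 (hO.mem_nhds hx))
  have him : F '' {y | y ∈ Ou A Y i ∧ (A.c i).symm y ∈ O} ∈ 𝓝 (F z) := by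
    rw [← hmap]
    exact Filter.image_mem_map hN
  have hpos := MeasureTheory.Measure.measure_pos_of_mem_nhds volume him
  have hsub : F '' {y | y ∈ Ou A Y i ∧ (A.c i).symm y ∈ O} ⊆ Z := by
    rintro _ ⟨y, ⟨hy1, hy2⟩, rfl⟩
    exact hcon _ hy2 hy1.2
  exact hpos.ne' (measure_mono_null hsub hZ)

end Pool.Agent.NDC
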