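import Pool.Agent.NDC.Pio

/-!
NDC module Stk (size 3): local Stokes theorem.
PROOF. Adapt `stokes` in Pool/Agent/DTW/Sto.lean (copy `integral_fderiv_zero`, `integral_pk_zero`,
`contDiff_of_zero`, `hasCompact_of_zero`, `pb_zero_off`, `pk_zero_off` from there with `Fin n` in the
place of `Ix n`; they do not use anything else). With
`G k z = ∑ l, (lm w z).adjugate l k * pb l (cx v) z` (smooth on `U`: `contDiffOn_adj`, module Adj; zero off `K`)
`∑ k, pk k (G k) z = ∑ l, (∑ k, pk k (adj l k)) * pb l (cx v) z + ∑ k, ∑ l, adj l k * LM v z k l`,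
the first term is zero (`piola`) and the second is `((lm w z).adjugate * lm v z).trace`
(`Matrix.trace`, `Matrix.mul_apply`; `Finset.sum_comm`). Off `U` everything is zero (`lm v z = 0` off `K`).
`lm_zero_off`: `pk_zero_off`, `pb_zero_off`.
-/

open scoped ContDiff ComplexConjugate Topology ComplexOrder
open Complex MeasureTheory Matrix

namespace Pool.Agent.NDC

open Pool.Agent.CYF

variable {n : ℕ}

private theorem Stk_integral_fderiv_zero {G : E n → ℂ} (hG : ContDiff ℝ ∞ G)
    (hc : HasCompactSupport G) (v : E n) : ∫ z, fderiv ℝ G z v = 0 := by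
  have h1 : Integrable (fun z => fderiv ℝ G z v) := by
    refine Continuous.integrable_of_hasCompactSupport ?_ ?_
    · exact (hG.continuous_fderiv (by simp)).clm_apply continuous_const
    · exact hc.fderiv_apply ℝ v
  have h2 : Integrable G := hG.continuous.integrable_of_hasCompactSupport hc
  have h := integral_mul_fderiv_eq_neg_fderiv_mul_of_integrable (μ := (volume : Measure (E n)))
    (f := fun _ : E n => (1 : ℂ)) (g := G) (v := v) (by simp) (by simpa using h1)
    (by simpa using h2) (fun x _ => differentiableAt_const _)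
    (fun x _ => hG.differentiable (by simp) x)
  simpa using h

private theorem Stk_integral_pk_zero {G : E n → ℂ} (hG : ContDiff ℝ ∞ G)
    (hc : HasCompactSupport G) (k : Fin n) : ∫ z, pk k G z = 0 := by
  have h1 : ∀ v : E n, Integrable (fun z => fderiv ℝ G z v) := by
    intro v
    refine Continuous.integrable_of_hasCompactSupport ?_ ?_
    · exact (hG.continuous_fderiv (by simp)).clm_apply continuous_const
    · exact hc.fderiv_apply ℝ v
  have h2 : (fun z => pk k G z) = fun z =>
      (fderiv ℝ G z (e k) - I * fderiv ℝ G z (I • e k)) * (2 : ℂ)⁻¹ := by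
    funext z
    unfold pk d10
    rw [div_eq_mul_inv]
  rw [h2, integral_mul_const, integral_sub (h1 _) ((h1 _).const_mul _), integral_const_mul,
    Stk_integral_fderiv_zero hG hc, Stk_integral_fderiv_zero hG hc]
  simp

private theorem Stk_contDiff_of_zero {G : E n → ℂ} {U K : Set (E n)} (hU : IsOpen U)
    (hK : IsCompact K) (hKU : K ⊆ U) (hG : ContDiffOn ℝ ∞ G U) (h0 : ∀ z ∉ K, G z = 0) :
    ContDiff ℝ ∞ G := by
  rw [contDiff_iff_contDiffAt]
  intro z
  by_cases hz : z ∈ U
  · exact hG.contDiffAt (hU.mem_nhds hz)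
  · have h1 : G =ᶠ[𝓝 z] fun _ => 0 := by
      filter_upwards [hK.isClosed.isOpen_compl.mem_nhds (fun h => hz (hKU h))] with y hy
      exact h0 y hy
    exact contDiffAt_const.congr_of_eventuallyEq h1

private theorem Stk_hasCompact_of_zero {G : E n → ℂ} {K : Set (E n)} (hK : IsCompact K)
    (h0 : ∀ z ∉ K, G z = 0) : HasCompactSupport G :=
  HasCompactSupport.intro hK h0

private theorem Stk_pb_zero_off {v : E n → ℝ} {K : Set (E n)} (hK : IsCompact K)
    (h0 : ∀ z ∉ K, v z = 0) (l : Fin n) : ∀ z ∉ K, pb l (cx v) z = 0 := by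
  intro z hz
  have h1 : cx v =ᶠ[𝓝 z] fun _ => 0 := by
    filter_upwards [hK.isClosed.isOpen_compl.mem_nhds hz] with y hy
    simp [cx, h0 y hy]
  rw [pb_congr h1]
  exact d01_const 0

private theorem Stk_pk_zero_off {G : E n → ℂ} {K : Set (E n)} (hK : IsCompact K)
    (h0 : ∀ z ∉ K, G z = 0) (l : Fin n) : ∀ z ∉ K, pk l G z = 0 := by
  intro z hz
  have h1 : G =ᶠ[𝓝 z] fun _ => 0 := by
    filter_upwards [hK.isClosed.isOpen_compl.mem_nhds hz] with y hy
    exact h0 y hy
  rw [pk_congr h1]
  exact d10_const 0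

theorem lm_zero_off {v : E n → ℝ} {K : Set (E n)} (hK : IsCompact K) (h0 : ∀ z ∉ K, v z = 0)
    {z : E n} (hz : z ∉ K) : lm v z = 0 := by
  ext k l
  rw [lm_apply, LM_eq]
  exact Stk_pk_zero_off hK (Stk_pb_zero_off hK h0 l) k z hz

theorem stokes {U K : Set (E n)} (hU : IsOpen U) (hK : IsCompact K) (hKU : K ⊆ U)
    {w : E n → ℝ} (hw : ContDiffOn ℝ ∞ w U) {v : E n → ℝ} (hv : ContDiffOn ℝ ∞ v U)
    (h0 : ∀ z ∉ K, v z = 0) :
    ∫ z, ((lm w z).adjugate * lm v z).trace = 0 := by
  have hV := contDiffOn_cx hv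
  set G : Fin n → E n → ℂ := fun k z =>
    ∑ l : Fin n, (lm w z).adjugate l k * pb l (cx v) z with hG
  have hFs : ∀ l k, ContDiffOn ℝ ∞ (fun z => (lm w z).adjugate l k) U := fun l k =>
    contDiffOn_adj (fun i j => contDiffOn_LM hU hw i j) l k
  have hPs : ∀ l, ContDiffOn ℝ ∞ (pb l (cx v)) U := fun l => contDiffOn_pb hU hV l
  have hGs : ∀ k, ContDiffOn ℝ ∞ (G k) U := by
    intro k
    exact ContDiffOn.sum fun l _ => (hFs _ _).mul (hPs l)
  have hG0 : ∀ k, ∀ z ∉ K, G k z = 0 := by
    intro k z hz
    simp only [hG]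
    refine Finset.sum_eq_zero fun l _ => ?_
    rw [Stk_pb_zero_off hK h0 l z hz, mul_zero]
  have hGc : ∀ k, ContDiff ℝ ∞ (G k) := fun k => Stk_contDiff_of_zero hU hK hKU (hGs k) (hG0 k)
  have hGh : ∀ k, HasCompactSupport (G k) := fun k => Stk_hasCompact_of_zero hK (hG0 k)
  have hint : ∀ k, Integrable (fun z => pk k (G k) z) := by
    intro k
    refine Continuous.integrable_of_hasCompactSupport ?_ ?_
    · have h1 : ContDiffOn ℝ ∞ (pk k (G k)) Set.univ :=
        contDiffOn_pk isOpen_univ (hGc k).contDiffOn k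
      exact (contDiffOn_univ.1 h1).continuous
    · exact Stk_hasCompact_of_zero hK (Stk_pk_zero_off hK (hG0 k) k)
  have hmain : ∀ z, ((lm w z).adjugate * lm v z).trace = ∑ k : Fin n, pk k (G k) z := by
    intro z
    by_cases hz : z ∈ U
    · have dF : ∀ l k, DifferentiableAt ℝ (fun y => (lm w y).adjugate l k) z := fun l k =>
        diffAt_of hU (hFs l k) hz
      have dP : ∀ l, DifferentiableAt ℝ (pb l (cx v)) z := fun l => diffAt_of hU (hPs l) hz
      have h1 : ∀ k, pk k (G k) z = ∑ l : Fin n,
          (pk k (fun y => (lm w y).adjugate l k) z * pb l (cx v) z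
            + (lm w z).adjugate l k * LM v z k l) := by
        intro k
        have h2 := d10_sum (z := z) (a := e k) Finset.univ
          (fun (l : Fin n) y => (lm w y).adjugate l k * pb l (cx v) y)
          (fun l _ => (dF l k).mul (dP l))
        have h3 : pk k (G k) z = ∑ l : Fin n,
            d10 (fun y => (lm w y).adjugate l k * pb l (cx v) y) z (e k) := h2
        rw [h3]
        refine Finset.sum_congr rfl fun l _ => ?_
        rw [d10_mul (dF l k) (dP l)]
        rfl
      have h4 : ∑ k : Fin n, pk k (G k) z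
          = ∑ l : Fin n, pb l (cx v) z * ∑ k : Fin n, pk k (fun y => (lm w y).adjugate l k) z
            + ∑ k : Fin n, ∑ l : Fin n, (lm w z).adjugate l k * LM v z k l := by
        simp only [h1, Finset.mul_sum]
        rw [Finset.sum_comm (f := fun (l : Fin n) (k : Fin n) => pb l (cx v) z *
          pk k (fun y => (lm w y).adjugate l k) z), ← Finset.sum_add_distrib]
        refine Finset.sum_congr rfl fun k _ => ?_
        rw [← Finset.sum_add_distrib]
        refine Finset.sum_congr rfl fun l _ => ?_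
        ring
      have h5 : ∀ l : Fin n, ∑ k : Fin n, pk k (fun y => (lm w y).adjugate l k) z = 0 :=
        fun l => piola hU hw hz l
      rw [h4]
      simp only [h5, mul_zero, Finset.sum_const_zero, zero_add]
      rw [Matrix.trace, Finset.sum_comm]
      refine Finset.sum_congr rfl fun l _ => ?_
      rw [Matrix.diag_apply, Matrix.mul_apply]
      rfl
    · have hzK : z ∉ K := fun h => hz (hKU h)
      rw [lm_zero_off hK h0 hzK]
      simp [fun k => Stk_pk_zero_off hK (hG0 k) k z hzK]
  simp only [hmain]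
  rw [integral_finsetSum _ fun k _ => hint k]
  refine Finset.sum_eq_zero fun k _ => ?_
  exact Stk_integral_pk_zero (hGc k) (hGh k) k

end Pool.Agent.NDC
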